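import Mathlib

/-!
# Burnside's theorem: a linear group of bounded exponent is finite
-/

open Polynomial

namespace H12.Uni

variable {κ : Type*} [Fintype κ] [DecidableEq κ]

theorem roots_pow {a : Matrix κ κ ℂ} {e : ℕ} (h : a ^ e = 1) {z : ℂ}
    (hz : z ∈ a.charpoly.roots) : z ^ e = 1 := by
  have hz0 := (Polynomial.mem_roots a.charpoly_monic.ne_zero).1 hz
  have hz' : Module.End.HasEigenvalue (Matrix.toLin' a) z := by
    rw [Module.End.hasEigenvalue_iff_isRoot_charpoly, Matrix.charpoly_toLin']
    exact hz0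
  obtain ⟨v, hv⟩ := hz'.exists_hasEigenvector
  have h1 := hv.pow_apply e
  rw [← Matrix.toLin'_pow, h, Matrix.toLin'_one, LinearMap.id_apply] at h1
  have h2 : (z ^ e - 1) • v = 0 := by rw [sub_smul, one_smul, ← h1, sub_self]
  exact sub_eq_zero.1 ((smul_eq_zero.1 h2).resolve_right hv.2)

theorem card_roots_charpoly (a : Matrix κ κ ℂ) : Multiset.card a.charpoly.roots = Fintype.card κ := by
  rw [← (IsAlgClosed.splits a.charpoly).natDegree_eq_card_roots, Matrix.charpoly_natDegree_eq_dim]

theorem finite_traces (e : ℕ) (he : 0 < e) :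
    {t : ℂ | ∃ a : Matrix κ κ ℂ, a ^ e = 1 ∧ a.trace = t}.Finite := by
  classical
  have hR : {z : ℂ | z ^ e = 1}.Finite := by
    have : {z : ℂ | z ^ e = 1} = ↑((X ^ e - 1 : ℂ[X]).roots.toFinset) := by
      ext z
      have h0 : (X ^ e - 1 : ℂ[X]) ≠ 0 := by
        have := X_pow_sub_C_ne_zero he (1 : ℂ)
        rwa [C_1] at this
      simp [h0, sub_eq_zero]
    rw [this]
    exact Finset.finite_toSet _
  have h1 : {f : Fin (Fintype.card κ) → ℂ | ∀ i, f i ∈ {z : ℂ | z ^ e = 1}}.Finite :=
    Set.Finite.pi' fun _ => hR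
  refine (h1.image fun f => ∑ i, f i).subset ?_
  rintro t ⟨a, ha, rfl⟩
  have h2 := card_roots_charpoly a
  set l := a.charpoly.roots.toList with hl
  have h3 : l.length = Fintype.card κ := by rw [hl, Multiset.length_toList, h2]
  refine ⟨fun i => l.get (i.cast h3.symm), fun i => ?_, ?_⟩
  · apply roots_pow ha
    rw [← Multiset.mem_toList, ← hl]
    exact List.get_mem _ _
  · rw [Matrix.trace_eq_sum_roots_charpoly]
    simp only
    have h4 : a.charpoly.roots.sum = l.sum := by rw [hl, Multiset.sum_toList]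
    rw [h4]
    have h5 : ∀ (l : List ℂ) (N : ℕ) (h : l.length = N),
        ∑ i : Fin N, l.get (i.cast h.symm) = l.sum := by
      rintro l _ rfl
      simp
    exact h5 l _ h3

theorem eq_one_of_trace {u : Matrix κ κ ℂ} {e : ℕ} (he : 0 < e) (h : u ^ e = 1)
    (htr : u.trace = Fintype.card κ) : u = 1 := by
  classical
  have hroot : ∀ z ∈ u.charpoly.roots, z = 1 := by
    have hn : ∀ z ∈ u.charpoly.roots, ‖z‖ = 1 := fun z hz =>
      Complex.norm_eq_one_of_pow_eq_one (roots_pow h hz) he.ne'
    have hsum : (u.charpoly.roots.map fun z => 1 - z.re).sum = 0 := by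
      rw [Multiset.sum_map_sub, Multiset.map_const', Multiset.sum_replicate,
        card_roots_charpoly]
      have h1 : (u.charpoly.roots.map fun z => z.re).sum = (u.charpoly.roots.sum).re := by
        have := (Complex.reAddGroupHom).map_multiset_sum u.charpoly.roots
        exact this.symm
      rw [h1, ← Matrix.trace_eq_sum_roots_charpoly, htr]
      simp
    have hnn : ∀ z ∈ u.charpoly.roots, 0 ≤ 1 - z.re := by
      intro z hz
      have := Complex.re_le_norm z
      rw [hn z hz] at this
      linarith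
    intro z hz
    have h2 : 1 - z.re = 0 := by
      refine (Multiset.all_zero_of_le_zero_le_of_sum_eq_zero ?_ hsum) _
        (Multiset.mem_map_of_mem _ hz)
      intro y hy
      obtain ⟨z, hz, rfl⟩ := Multiset.mem_map.1 hy
      exact hnn z hz
    have h3 : z.re = 1 := by linarith
    have h4 : z.re ^ 2 + z.im ^ 2 = 1 := by
      have := Complex.sq_norm z
      rw [hn z hz, Complex.normSq_apply] at this
      nlinarith
    have h5 : z.im = 0 := by
      rw [h3] at h4
      have : z.im ^ 2 = 0 := by linarith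
      exact pow_eq_zero_iff (two_ne_zero) |>.1 this
    exact Complex.ext h3 h5
  have hchar : u.charpoly = (X - C 1) ^ Fintype.card κ := by
    have h1 := (IsAlgClosed.splits u.charpoly).eq_prod_roots_of_monic u.charpoly_monic
    rw [h1]
    have h2 : u.charpoly.roots = Multiset.replicate (Fintype.card κ) 1 :=
      Multiset.eq_replicate.2 ⟨card_roots_charpoly u, hroot⟩
    rw [h2]
    simp
  have hnil : IsNilpotent (Matrix.toLin' (u - 1)) := by
    refine ⟨Fintype.card κ, ?_⟩
    have h1 := Matrix.aeval_self_charpoly u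
    rw [hchar, map_pow, map_sub, aeval_X, aeval_C, map_one] at h1
    rw [← Matrix.toLin'_pow, h1, map_zero]
  have hss : Module.End.IsSemisimple (Matrix.toLin' (u - 1) : Module.End ℂ (κ → ℂ)) := by
    have h0 : Module.End.IsSemisimple (Matrix.toLin' u : Module.End ℂ (κ → ℂ)) := by
      apply Module.End.isSemisimple_of_squarefree_aeval_eq_zero (p := X ^ e - 1)
      · exact (X_pow_sub_one_separable_iff.2 (by exact_mod_cast he.ne')).squarefree
      · rw [map_sub, map_pow, aeval_X, map_one, ← Matrix.toLin'_pow, h, Matrix.toLin'_one]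
        exact sub_self _
    have h1 : Matrix.toLin' (u - 1) = Matrix.toLin' u - algebraMap ℂ _ 1 := by
      rw [map_sub, Matrix.toLin'_one, map_one]
      rfl
    rw [h1]
    exact Module.End.isSemisimple_sub_algebraMap_iff.2 h0
  have h0 := Module.End.eq_zero_of_isNilpotent_isSemisimple hnil hss
  rw [LinearEquiv.map_eq_zero_iff] at h0
  exact sub_eq_zero.1 h0

theorem burnside (G : Set (Matrix κ κ ℂ)) (h1 : 1 ∈ G)
    (hmul : ∀ a ∈ G, ∀ b ∈ G, a * b ∈ G) (e : ℕ) (he : 0 < e) (h : ∀ a ∈ G, a ^ e = 1) :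
    G.Finite := by
  classical
  obtain ⟨b, hbG, hspan, hli⟩ := exists_linearIndependent ℂ G
  have hbf : b.Finite := hli.setFinite
  have := hbf.to_subtype
  have hpow : ∀ a ∈ G, ∀ k : ℕ, a ^ k ∈ G := by
    intro a ha k
    induction k with
    | zero => rwa [pow_zero]
    | succ k ih => rw [pow_succ]; exact hmul _ ih _ ha
  let φ : Matrix κ κ ℂ → (b → ℂ) := fun a c => (a * c.1).trace
  refine Set.Finite.of_finite_image (f := φ) ?_ ?_
  · refine (Set.Finite.pi' (fun _ : b => finite_traces (κ := κ) e he)).subset ?_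
    rintro _ ⟨a, ha, rfl⟩ c
    exact ⟨a * c.1, h _ (hmul _ ha _ (hbG c.2)), rfl⟩
  · intro a ha a' ha' haa
    have h2 : ∀ c ∈ Submodule.span ℂ G, (a * c).trace = (a' * c).trace := by
      intro c hc
      rw [← hspan] at hc
      induction hc using Submodule.span_induction with
      | mem c hc => exact congrFun haa ⟨c, hc⟩
      | zero => simp
      | add c c' _ _ hc hc' => rw [mul_add, mul_add, Matrix.trace_add, Matrix.trace_add, hc, hc']
      | smul t c _ hc => rw [mul_smul_comm, mul_smul_comm, Matrix.trace_smul, Matrix.trace_smul, hc]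
    have h3 := h2 (a' ^ (e - 1)) (Submodule.subset_span (hpow a' ha' _))
    rw [← pow_succ', Nat.sub_add_cancel he, h a' ha', Matrix.trace_one] at h3
    have h4 := eq_one_of_trace he (h _ (hmul _ ha _ (hpow a' ha' (e - 1)))) h3
    calc a = a * a' ^ e := by rw [h a' ha', mul_one]
      _ = a * (a' ^ (e - 1) * a') := by rw [← pow_succ, Nat.sub_add_cancel he]
      _ = a' := by rw [← mul_assoc, h4, one_mul]

end H12.Uni
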