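import Pool.Agent.H25.Hart.ZakStar
import Pool.Agent.H89.Hart.LemmaU
import Pool.Agent.H89.Hart.Lin

/-!
# Varieties stable under a one-parameter unipotent group: definitions

`A` is a nilpotent matrix with `A ^ m ≠ 0 = A ^ (m + 1)`; vectors `v` are acted on by `A *ᵥ v`,
linear forms `s` by `s ᵥ* A`, so that `(s ᵥ* A) ⬝ᵥ v = s ⬝ᵥ (A *ᵥ v)`.
-/

open MvPolynomial Matrix H89.Hart

set_option linter.unusedSectionVars false

namespace H12.Uni

variable {ι : Type*} [Fintype ι] [DecidableEq ι]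

/-- `exp(tA) x` for `A ^ (m + 1) = 0`. -/
noncomputable def orb (A : Matrix ι ι ℂ) (m : ℕ) (t : ℂ) (x : ι → ℂ) : ι → ℂ :=
  ∑ i ∈ Finset.range (m + 1), (t ^ i / (i.factorial : ℂ)) • (A ^ i *ᵥ x)

/-- `exp(tB) s`, where `B` is the transpose of `A`. -/
noncomputable def orbB (A : Matrix ι ι ℂ) (m : ℕ) (t : ℂ) (s : ι → ℂ) : ι → ℂ :=
  ∑ i ∈ Finset.range (m + 1), (t ^ i / (i.factorial : ℂ)) • (s ᵥ* A ^ i)

/-- `K_j = ker A ^ j`. -/
noncomputable def kerA (A : Matrix ι ι ℂ) (j : ℕ) : Submodule ℂ (ι → ℂ) :=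
  LinearMap.ker (A ^ j).mulVecLin

/-- `W_j = im A ^ j`. -/
noncomputable def imA (A : Matrix ι ι ℂ) (j : ℕ) : Submodule ℂ (ι → ℂ) :=
  LinearMap.range (A ^ j).mulVecLin

/-- `ker B ^ j`. -/
noncomputable def kerB (A : Matrix ι ι ℂ) (j : ℕ) : Submodule ℂ (ι → ℂ) :=
  LinearMap.ker (A ^ j).vecMulLinear

/-- `im B ^ j`, the annihilator of `kerA A j`. -/
noncomputable def imB (A : Matrix ι ι ℂ) (j : ℕ) : Submodule ℂ (ι → ℂ) :=
  LinearMap.range (A ^ j).vecMulLinear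

/-- `k_j = rank A ^ j`. -/
noncomputable def rk (A : Matrix ι ι ℂ) (j : ℕ) : ℕ := (A ^ j).rank

/-- the tangent space of the cone at `x`. -/
noncomputable def T (I : Ideal (MvPolynomial ι ℂ)) (x : ι → ℂ) : Submodule ℂ (ι → ℂ) where
  carrier := {v | ∀ s ∈ N I x, s ⬝ᵥ v = 0}
  add_mem' {a b} ha hb s hs := by rw [dotProduct_add, ha s hs, hb s hs, add_zero]
  zero_mem' s _ := dotProduct_zero s
  smul_mem' c v hv s hs := by rw [dotProduct_smul, hv s hs, smul_zero]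

/-- the standing assumptions (`r ≥ 2`; the aim is a contradiction). -/
structure UniSetup (I : Ideal (MvPolynomial ι ℂ)) (r : ℕ) (A : Matrix ι ι ℂ) (m : ℕ) : Prop where
  smooth : Smooth I r
  nd : ∀ s : ι → ℂ, (∀ x ∈ cone I, s ⬝ᵥ x = 0) → s = 0
  two_le : 2 ≤ r
  one_le : 1 ≤ m
  ne : A ^ m ≠ 0
  nil : A ^ (m + 1) = 0
  stab : ∀ x ∈ cone I, ∀ t : ℂ, orb A m t x ∈ cone I
  card_gt : 2 * r < Fintype.card ι

/-- condition (star): the generic conormal space meets `ker B ^ m` only in `0`. -/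
def Star (I : Ideal (MvPolynomial ι ℂ)) (A : Matrix ι ι ℂ) (m : ℕ) : Prop :=
  ∃ x ∈ cone I, x ≠ 0 ∧ ∀ s ∈ N I x, s ᵥ* A ^ m = 0 → s = 0

/-- the tangent vector field `P_v(y) = Δ(y) v - ∑ dg_i(y)(v) adj(M)_{ji} l_j`. -/
noncomputable def Pv {r : ℕ} (g : Fin r → MvPolynomial ι ℂ) (l : Fin r → ι → ℂ) (v y : ι → ℂ) :
    ι → ℂ :=
  (matAt g l y).det • v - ∑ i, ∑ j, ((dif (g i) y ⬝ᵥ v) * (matAt g l y).adjugate j i) • l j

/-- the same as a vector of polynomials. -/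
noncomputable def PvP {r : ℕ} (g : Fin r → MvPolynomial ι ℂ) (l : Fin r → ι → ℂ) (v : ι → ℂ) :
    ι → MvPolynomial ι ℂ := fun k =>
  (mat g l).det * C (v k) - ∑ i, ∑ j, (dd v (g i) * (mat g l).adjugate j i) * C (l j k)

/-- `η_v = A ^ m P_v` as a vector of polynomials. -/
noncomputable def etaP (A : Matrix ι ι ℂ) (m : ℕ) {r : ℕ} (g : Fin r → MvPolynomial ι ℂ)
    (l : Fin r → ι → ℂ) (v : ι → ℂ) : ι → MvPolynomial ι ℂ := fun k =>
  ∑ j, C ((A ^ m) k j) * PvP g l v j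

/-- the values of `η_v`. -/
noncomputable def eta (A : Matrix ι ι ℂ) (m : ℕ) {r : ℕ} (g : Fin r → MvPolynomial ι ℂ)
    (l : Fin r → ι → ℂ) (v y : ι → ℂ) : ι → ℂ := A ^ m *ᵥ Pv g l v y

/-- `s ∘ dη_v(y)`: the differential at `y` of the polynomial `s(η_v)`. -/
noncomputable def deta (A : Matrix ι ι ℂ) (m : ℕ) {r : ℕ} (g : Fin r → MvPolynomial ι ℂ)
    (l : Fin r → ι → ℂ) (v y s : ι → ℂ) : ι → ℂ :=
  dif (∑ k, C (s k) * etaP A m g l v k) y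

end H12.Uni
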