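import Pool.Agent.H12.Uni.Gen

/-! A smooth hypersurface stable under a unipotent one-parameter group has degree at most 2. -/

open MvPolynomial Matrix H89.Hart Filter Topology Pool.Agent.H25.Hart

set_option linter.unusedSectionVars false

namespace H12.Uni

variable {ι : Type*} [Fintype ι] [DecidableEq ι]

/-- the orbit of `x` as a vector of polynomials in one variable. -/
noncomputable def orbP (A : Matrix ι ι ℂ) (m : ℕ) (x : ι → ℂ) : ι → Polynomial ℂ := fun i =>
  ∑ j ∈ Finset.range (m + 1), Polynomial.C ((A ^ j *ᵥ x) i / (j.factorial : ℂ)) * Polynomial.X ^ j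

theorem eval_orbP (A : Matrix ι ι ℂ) (m : ℕ) (x : ι → ℂ) (t : ℂ) (i : ι) :
    (orbP A m x i).eval t = orb A m t x i := by
  rw [orbP, orb, Polynomial.eval_finsetSum, Finset.sum_apply]
  refine Finset.sum_congr rfl fun j _ => ?_
  rw [Polynomial.eval_mul, Polynomial.eval_C, Polynomial.eval_pow, Polynomial.eval_X,
    Pi.smul_apply, smul_eq_mul]
  ring

theorem eval_aeval_orbP (A : Matrix ι ι ℂ) (m : ℕ) (x : ι → ℂ) (t : ℂ) (f : MvPolynomial ι ℂ) :
    (aeval (orbP A m x) f).eval t = eval (orb A m t x) f := by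
  have h : ((Polynomial.aeval t : Polynomial ℂ →ₐ[ℂ] ℂ).comp (aeval (orbP A m x))) =
      (aeval (orb A m t x) : MvPolynomial ι ℂ →ₐ[ℂ] ℂ) := by
    apply MvPolynomial.algHom_ext
    intro i
    simp only [AlgHom.comp_apply, aeval_X, ← eval_orbP]
    rfl
  have h2 := congrArg (fun φ => φ f) h
  simpa [aeval_eq_eval, Polynomial.aeval_def] using h2

/-- the generator is invariant. -/
theorem eval_orb_gen {I : Ideal (MvPolynomial ι ℂ)} {A : Matrix ι ι ℂ} {m : ℕ} (hI : I.IsPrime)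
    (hnil : A ^ (m + 1) = 0) (hstab : ∀ x ∈ cone I, ∀ t : ℂ, orb A m t x ∈ cone I)
    {G : MvPolynomial ι ℂ} (hG : I = Ideal.span {G}) (hG0 : G ≠ 0) {e : ℕ}
    (he : G.IsHomogeneous e) (t : ℂ) (x : ι → ℂ) : eval (orb A m t x) G = eval x G := by
  have hGI : G ∈ I := by rw [hG]; exact Ideal.mem_span_singleton_self G
  -- the factor
  have hc : ∀ t : ℂ, ∃ c : ℂ, ∀ y, eval (orb A m t y) G = c * eval y G := by
    intro t
    set P := pull (ex A m t).mulVecLin G with hP
    have hev : ∀ y, eval y P = eval (orb A m t y) G := by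
      intro y
      rw [hP, eval_pull, Matrix.mulVecLin_apply, ex_mulVec]
    have hPI : P ∈ I := by
      apply mem_of_cone hI
      intro y hy
      rw [hev]
      exact hstab y hy t G hGI
    have hPh : P.IsHomogeneous e := pull_homog _ he
    rw [hG] at hPI
    obtain ⟨h, hh⟩ := Ideal.mem_span_singleton.1 hPI
    by_cases hP0 : P = 0
    · refine ⟨0, fun y => ?_⟩
      rw [← hev, hP0, map_zero, zero_mul]
    have hh0 : h ≠ 0 := by rintro rfl; exact hP0 (by rw [hh, mul_zero])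
    have hdeg : G.totalDegree + h.totalDegree = e := by
      rw [← totalDegree_mul_of_isDomain hG0 hh0, ← hh, hPh.totalDegree hP0]
    rw [he.totalDegree hG0] at hdeg
    have hht : h.totalDegree = 0 := by omega
    have hC := totalDegree_eq_zero_iff_eq_C.1 hht
    refine ⟨coeff 0 h, fun y => ?_⟩
    rw [← hev, hh, map_mul]
    conv_lhs => rw [hC]
    rw [eval_C, mul_comm]
  by_cases hx : eval x G = 0
  · obtain ⟨c, hc⟩ := hc t
    rw [hc, hx, mul_zero]
  -- the polynomial `t ↦ G (exp(tA) x)` has no zero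
  set p := aeval (orbP A m x) G with hp
  have hpe : ∀ t, p.eval t = eval (orb A m t x) G := fun t => eval_aeval_orbP A m x t G
  have hdeg : p.degree = 0 := by
    by_contra hne
    obtain ⟨z, hz⟩ := IsAlgClosed.exists_root p hne
    rw [Polynomial.IsRoot, hpe] at hz
    obtain ⟨c, hc⟩ := hc (-z)
    have h1 := hc (orb A m z x)
    rw [orb_neg_orb hnil, hz, mul_zero] at h1
    exact hx h1
  rw [← hpe, Polynomial.eq_C_of_degree_eq_zero hdeg, Polynomial.eval_C,
    Polynomial.coeff_zero_eq_eval_zero, hpe, orb_zero]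

/-- a smooth hypersurface with a unipotent one-parameter group is a quadric. -/
theorem deg_le_two {I : Ideal (MvPolynomial ι ℂ)} {A : Matrix ι ι ℂ} {m : ℕ} (hI : Smooth I 1)
    (hm : 1 ≤ m) (hnil : A ^ (m + 1) = 0) (hx : ∃ x ∈ cone I, A ^ m *ᵥ x ≠ 0)
    (hstab : ∀ x ∈ cone I, ∀ t : ℂ, orb A m t x ∈ cone I)
    {G : MvPolynomial ι ℂ} (hG : I = Ideal.span {G}) {e : ℕ}
    (he : G.IsHomogeneous e) : e ≤ 2 := by
  have hdif : ∀ x ∈ cone I, x ≠ 0 → dif G x ≠ 0 := by
    intro x hx hx0 h0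
    have h1 : N I x = ⊥ := by
      rw [Submodule.eq_bot_iff]
      intro φ hφ
      obtain ⟨f, hf, rfl⟩ := mem_N.1 hφ
      rw [hG] at hf
      obtain ⟨h, rfl⟩ := Ideal.mem_span_singleton.1 hf
      rw [dif_mul, h0, smul_zero, add_zero, hx G (by rw [hG]; exact Ideal.mem_span_singleton_self G),
        zero_smul]
    have h2 := hI.rank x hx hx0
    rw [h1, finrank_bot] at h2
    exact absurd h2 (by norm_num)
  obtain ⟨x, hx, hx0⟩ := hx
  have hx00 : x ≠ 0 := by rintro rfl; exact hx0 (Matrix.mulVec_zero _)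
  have hG0 : G ≠ 0 := by
    rintro rfl
    exact hdif x hx hx00 (dif_zero x)
  have hinv := eval_orb_gen hI.prime hnil hstab hG hG0 he
  -- differentiate
  have hd : ∀ t w, dif G (orb A m t x) ⬝ᵥ w = dif G x ⬝ᵥ orb A m (-t) w := by
    intro t w
    have h1 := dif_eq_of_ln (f := G) (g := G) (L := (ex A m t).mulVecLin) (fun u => by
      rw [Matrix.mulVecLin_apply, ex_mulVec, hinv]) x (orb A m (-t) w)
    rw [Matrix.mulVecLin_apply, ex_mulVec, Matrix.mulVecLin_apply, ex_mulVec,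
      orb_orb_neg hnil] at h1
    exact h1.symm
  by_contra hcon
  push Not at hcon
  -- the limit point
  set y := (m.factorial : ℂ)⁻¹ • (A ^ m *ᵥ x) with hy
  have hfac : (m.factorial : ℂ) ≠ 0 := Nat.cast_ne_zero.2 (Nat.factorial_ne_zero m)
  have hy0 : y ≠ 0 := smul_ne_zero (inv_ne_zero hfac) hx0
  have ht : Tendsto (fun t : ℂ => t) (Bornology.cobounded ℂ) (Bornology.cobounded ℂ) := tendsto_id
  have h1 := tendsto_orb hnil ht (tendsto_const_nhds (x := x))
  have hyI : y ∈ cone I := by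
    refine (isClosed_cone I).mem_of_tendsto h1 (Eventually.of_forall fun t => ?_)
    exact smul_mem_cone hI (hstab x hx t) _
  obtain ⟨w, hw⟩ : ∃ w, dif G y ⬝ᵥ w ≠ 0 := by
    by_contra hc
    push Not at hc
    exact hdif y hyI hy0 (dotProduct_eq_zero _ hc)
  have h2 : Tendsto (fun t : ℂ => dif G ((t ^ m)⁻¹ • orb A m t x) ⬝ᵥ w) (Bornology.cobounded ℂ)
      (𝓝 (dif G y ⬝ᵥ w)) :=
    (((continuous_dif G).dotProduct continuous_const).tendsto y).comp h1
  -- the other side tends to zero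
  have hneg : Tendsto (fun t : ℂ => -t) (Bornology.cobounded ℂ) (Bornology.cobounded ℂ) :=
    Filter.tendsto_neg_cobounded
  have h3 := tendsto_orb hnil hneg (tendsto_const_nhds (x := w))
  have h4 : Tendsto (fun t : ℂ => dif G x ⬝ᵥ (((-t) ^ m)⁻¹ • orb A m (-t) w))
      (Bornology.cobounded ℂ) (𝓝 (dif G x ⬝ᵥ ((m.factorial : ℂ)⁻¹ • (A ^ m *ᵥ w)))) :=
    ((continuous_const.dotProduct continuous_id).tendsto _).comp h3
  have h5 : Tendsto (fun t : ℂ => ((-1) ^ m * (t⁻¹) ^ (m * (e - 2))) *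
      (dif G x ⬝ᵥ (((-t) ^ m)⁻¹ • orb A m (-t) w))) (Bornology.cobounded ℂ) (𝓝 0) := by
    have h6 : Tendsto (fun t : ℂ => (t⁻¹) ^ (m * (e - 2))) (Bornology.cobounded ℂ)
        (𝓝 (0 ^ (m * (e - 2)))) := (tendsto_inv₀_cobounded (α := ℂ)).pow _
    rw [zero_pow (by
      have : 0 < m * (e - 2) := Nat.mul_pos (by omega) (by omega)
      omega)] at h6
    have h7 := ((tendsto_const_nhds (x := ((-1 : ℂ)) ^ m)).mul h6).mul h4
    simpa using h7
  refine hw (tendsto_nhds_unique (h2.congr' ?_) h5)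
  have hne : ∀ᶠ z in Bornology.cobounded ℂ, z ≠ 0 := Bornology.eventually_ne_cobounded 0
  filter_upwards [hne] with t ht0
  have h8 : dif G ((t ^ m)⁻¹ • orb A m t x) = ((t ^ m)⁻¹) ^ (e - 1) • dif G (orb A m t x) := by
    funext i
    simp only [dif, Pi.smul_apply, smul_eq_mul]
    exact eval_smul_homog (he.pderiv) _ _
  rw [h8, smul_dotProduct, hd, smul_eq_mul, dotProduct_smul, smul_eq_mul, ← mul_assoc]
  congr 1
  have h9 : e - 1 = (e - 2) + 1 := by omega
  have h10 : ((-1 : ℂ) ^ m) * (-1 : ℂ) ^ m = 1 := by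
    rw [← mul_pow]; norm_num
  have h11 : (-t) ^ m = (-1) ^ m * t ^ m := neg_pow t m
  have h12 : ((-1 : ℂ) ^ m)⁻¹ = (-1 : ℂ) ^ m := inv_eq_of_mul_eq_one_left h10
  rw [h9, pow_succ, h11, mul_inv, h12, pow_mul, inv_pow t m]
  linear_combination (-(((t ^ m)⁻¹) ^ (e - 2) * (t ^ m)⁻¹)) * h10

end H12.Uni
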