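import Pool.Agent.H12.Uni.Reduce
import Pool.Agent.H12.Uni.Burnside

/-!
# The group of linear automorphisms is finite
-/

open MvPolynomial

set_option linter.unusedSectionVars false
set_option linter.unusedSimpArgs false

namespace H12.Uni

open H89.Hart H15.Hart

theorem scalar_of_cone {κ : Type} [Fintype κ] [DecidableEq κ] {I : Ideal (MvPolynomial κ ℂ)}
    (hI : I.IsPrime) (hnd : ∀ s, (∀ x ∈ cone I, s ⬝ᵥ x = 0) → s = 0)
    (h : Module.End ℂ (κ → ℂ)) (hc : ∀ x ∈ cone I, ∃ c : ℂ, h x = c • x) :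
    ∃ c : ℂ, h = c • 1 := by
  classical
  by_contra hcon
  push Not at hcon
  -- for every eigenvalue there is a linear form vanishing on the eigenspace, not on the cone
  have h1 : ∀ c : ℂ, ∃ s : κ → ℂ, (∀ x, h x = c • x → s ⬝ᵥ x = 0) ∧ s ≠ 0 := by
    intro c
    have h2 : h - c • 1 ≠ 0 := fun h0 => hcon c (sub_eq_zero.1 h0)
    obtain ⟨y, hy⟩ : ∃ y, (h - c • 1) y ≠ 0 := by
      by_contra h3
      push Not at h3
      exact h2 (LinearMap.ext h3)
    obtain ⟨i, hi⟩ : ∃ i, (h - c • 1) y i ≠ 0 := by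
      by_contra h3
      push Not at h3
      exact hy (funext h3)
    refine ⟨fun k => (h - c • 1) (Pi.single k 1) i, ?_, ?_⟩
    · intro x hx
      have h4 : (h - c • 1) x = 0 := by
        rw [LinearMap.sub_apply, LinearMap.smul_apply, Module.End.one_apply, hx, sub_self]
      have h5 : (fun k => (h - c • 1) (Pi.single k 1) i) ⬝ᵥ x = (h - c • 1) x i := row_dot _ i x
      rw [h5, h4]
      rfl
    · intro h0
      apply hi
      rw [← row_dot (h - c • 1) i y]
      have : row (h - c • 1) i = 0 := h0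
      rw [this, zero_dotProduct]
  choose s hs hs0 using h1
  have hfin := Module.End.finite_hasEigenvalue h
  have h2 : ∏ c ∈ hfin.toFinset, lin (s c) ∈ I := by
    apply H15.Hart.mem_of_cone hI
    intro x hx
    rw [map_prod]
    obtain ⟨c, hcx⟩ := hc x hx
    by_cases hx0 : x = 0
    · rcases hfin.toFinset.eq_empty_or_nonempty with he | ⟨μ, hμ⟩
      · -- no eigenvalue: the space is zero
        exfalso
        rcases isEmpty_or_nonempty κ with hk | hk
        · exact hcon 0 (LinearMap.ext fun v => Subsingleton.elim _ _)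
        · obtain ⟨μ, hμ⟩ := Module.End.exists_eigenvalue h
          have : μ ∈ hfin.toFinset := hfin.mem_toFinset.2 hμ
          rw [he] at this
          simp at this
      · apply Finset.prod_eq_zero hμ
        rw [eval_lin, hx0, dotProduct_zero]
    · apply Finset.prod_eq_zero (i := c)
      · rw [hfin.mem_toFinset]
        exact Module.End.hasEigenvalue_of_hasEigenvector (x := x)
          ⟨Module.End.mem_eigenspace_iff.2 hcx, hx0⟩
      · rw [eval_lin]
        exact hs c x hcx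
  obtain ⟨c, -, hcI⟩ := (hI.prod_mem_iff).1 h2
  apply hs0 c
  apply hnd
  intro x hx
  rw [← eval_lin]
  exact hx _ hcI

/-- every variety is cut out by forms of bounded degree. -/
theorem exists_cut_degree {κ : Type*} [Fintype κ] (I : Ideal (MvPolynomial κ ℂ))
    (hI : ∀ f ∈ I, ∀ d, homogeneousComponent d f ∈ I) :
    ∃ d, 1 ≤ d ∧ ∀ x, (∀ f ∈ I, ∀ e ≤ d, f.IsHomogeneous e → eval x f = 0) → x ∈ cone I := by
  classical
  obtain ⟨S, hS⟩ := (isNoetherianRing_iff_ideal_fg _).1
    (inferInstance : IsNoetherianRing (MvPolynomial κ ℂ)) I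
  refine ⟨S.sup totalDegree + 1, by omega, fun x hx => ?_⟩
  have h1 : ∀ f ∈ S, eval x f = 0 := by
    intro f hf
    have hfI : f ∈ I := by rw [← hS]; exact Ideal.subset_span hf
    rw [← sum_homogeneousComponent f, map_sum]
    apply Finset.sum_eq_zero
    intro e he
    refine hx _ (hI f hfI e) e ?_ (homogeneousComponent_isHomogeneous e f)
    have h2 : f.totalDegree ≤ S.sup totalDegree := Finset.le_sup (f := totalDegree) hf
    have := Finset.mem_range.1 he
    omega
  intro f hf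
  have h2 : I ≤ RingHom.ker (eval x) := by
    rw [← hS, Ideal.span_le]
    intro f hf
    exact RingHom.mem_ker.2 (h1 f hf)
  exact RingHom.mem_ker.1 (h2 hf)

/-- The group of linear automorphisms is finite in the nondegenerate case. -/
theorem finite_group (κ : Type) [Fintype κ] [DecidableEq κ] (I : Ideal (MvPolynomial κ ℂ))
    (r : ℕ) (hI : Smooth I r)
    (hnd : ∀ s, (∀ x ∈ cone I, s ⬝ᵥ x = 0) → s = 0)
    (hcard : 23 * r < Fintype.card κ) (hcard' : 16 * r ^ 3 ≤ Fintype.card κ)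
    (hnot : ¬ (r ≤ 1 ∧ (r = 1 → ∀ G e, I = Ideal.span {G} → G.IsHomogeneous e → e ≤ 2))) :
    {a : Matrix κ κ ℂ | a.det = 1 ∧ ∀ x ∈ cone I, a.mulVec x ∈ cone I}.Finite := by
  classical
  obtain ⟨d, hd, hcut⟩ := exists_cut_degree I hI.homog
  set E := Fintype.card κ * ((2 * d) ^ (Fintype.card κ - 1)).factorial with hE
  have hcard0 : 0 < Fintype.card κ := by omega
  refine burnside _ ⟨Matrix.det_one, fun x hx => by rwa [Matrix.one_mulVec]⟩ ?_ E ?_ ?_
  · rintro a ⟨ha, ha'⟩ b ⟨hb, hb'⟩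
    refine ⟨by rw [Matrix.det_mul, ha, hb, one_mul], fun x hx => ?_⟩
    rw [← Matrix.mulVec_mulVec]
    exact ha' _ (hb' _ hx)
  · exact Nat.mul_pos hcard0 (Nat.factorial_pos _)
  · rintro a ⟨ha, ha'⟩
    have hinj : Function.Injective a.mulVecLin := by
      intro x y hxy
      rw [Matrix.mulVecLin_apply, Matrix.mulVecLin_apply] at hxy
      have h1 : a.adjugate.mulVec (a.mulVec x) = a.adjugate.mulVec (a.mulVec y) := by rw [hxy]
      rwa [Matrix.mulVec_mulVec, Matrix.mulVec_mulVec, Matrix.adjugate_mul, ha, one_smul,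
        Matrix.one_mulVec, Matrix.one_mulVec] at h1
    obtain ⟨N, hN, hN', hNc⟩ : ∃ N, 0 < N ∧ N ≤ (2 * d) ^ (Fintype.card κ - 1) ∧
        ∀ x ∈ cone I, ∃ c : ℂ, (⇑(a.mulVecLin))^[N] x = c • x := by
      by_contra hcon
      push Not at hcon
      exact hnot (core_all κ I r d hI a.mulVecLin hinj (fun x hx => ha' x hx) hnd hcut
        (fun N hN hN' => hcon N hN hN') hcard hcard')
    obtain ⟨c, hc⟩ := scalar_of_cone hI.prime hnd (a.mulVecLin ^ N) (fun x hx => by
      obtain ⟨c, hc⟩ := hNc x hx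
      exact ⟨c, by rw [Module.End.pow_apply]; exact hc⟩)
    have h2 : a ^ N = c • (1 : Matrix κ κ ℂ) := by
      apply Matrix.ext_of_mulVec_single
      intro i
      have h3 := congrArg (fun φ => φ (Pi.single i 1)) hc
      have h4 : (a.mulVecLin ^ N) (Pi.single i 1) = (a ^ N).mulVec (Pi.single i 1) := by
        have : ∀ (k : ℕ) (v : κ → ℂ), (a.mulVecLin ^ k) v = (a ^ k).mulVec v := by
          intro k
          induction k with
          | zero => intro v; simp
          | succ k ih =>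
            intro v
            rw [pow_succ', Module.End.mul_apply, ih, Matrix.mulVecLin_apply, pow_succ',
              Matrix.mulVec_mulVec]
        exact this N _
      rw [h4] at h3
      rw [h3, Matrix.smul_mulVec, Matrix.one_mulVec]
      rfl
    have h3 : c ^ Fintype.card κ = 1 := by
      have h4 := congrArg Matrix.det h2
      rw [Matrix.det_pow, ha, one_pow, Matrix.det_smul, Matrix.det_one, mul_one] at h4
      exact h4.symm
    obtain ⟨q, hq⟩ := Nat.dvd_factorial hN hN'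
    have h5 : a ^ (N * Fintype.card κ) = 1 := by
      rw [pow_mul, h2, smul_pow, h3, one_pow, one_smul]
    rw [hE, hq, show Fintype.card κ * (N * q) = N * Fintype.card κ * q by ring, pow_mul, h5,
      one_pow]

/-- finitely many linear automorphisms. -/
theorem finite_aut {n : ℕ} {I : Ideal (MvPolynomial (Fin (n + 1)) ℂ)} {r r' : ℕ}
    (hI : Smooth I r)
    (κ : Type) [Fintype κ] [DecidableEq κ] (L : (κ → ℂ) →ₗ[ℂ] (Fin (n + 1) → ℂ))
    (M : (Fin (n + 1) → ℂ) →ₗ[ℂ] (κ → ℂ)) (hInv : H15.Hart.Inv L M I)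
    (hLW : ∀ z, L z ∈ Submodule.span ℂ (cone I))
    (hLM : ∀ x ∈ Submodule.span ℂ (cone I), L (M x) = x)
    (hsm : Smooth (H15.Hart.pull M I) r')
    (hnd : ∀ s, (∀ x ∈ cone (H15.Hart.pull M I), s ⬝ᵥ x = 0) → s = 0)
    (hcard : 23 * r' < Fintype.card κ) (hcard' : 16 * r' ^ 3 ≤ Fintype.card κ)
    (hnot : ¬ (r' ≤ 1 ∧ (r' = 1 → ∀ G e, H15.Hart.pull M I = Ideal.span {G} →
      G.IsHomogeneous e → e ≤ 2))) :
    ∃ S : Finset ((Fin (n + 1) → ℂ) ≃ₗ[ℂ] (Fin (n + 1) → ℂ)),
      ∀ g : (Fin (n + 1) → ℂ) ≃ₗ[ℂ] (Fin (n + 1) → ℂ), (∀ x ∈ cone I, g x ∈ cone I) →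
        ∃ h ∈ S, ∀ x ∈ cone I, ∃ c : ℂ, g x = c • h x := by
  classical
  have hfin := finite_group κ (H15.Hart.pull M I) r' hsm hnd hcard hcard' hnot
  set A := {a : Matrix κ κ ℂ | a.det = 1 ∧
    ∀ x ∈ cone (H15.Hart.pull M I), a.mulVec x ∈ cone (H15.Hart.pull M I)} with hA
  have hp := hI.prime
  have hcard0 : 0 < Fintype.card κ := by omega
  -- the matrix of an automorphism
  have hrep : ∀ g : (Fin (n + 1) → ℂ) ≃ₗ[ℂ] (Fin (n + 1) → ℂ), (∀ x ∈ cone I, g x ∈ cone I) →
      ∃ a ∈ A, ∃ μ : ℂ, ∀ x ∈ cone I, g x = μ • L (a.mulVec (M x)) := by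
    intro g hg
    have hgW : ∀ x ∈ Submodule.span ℂ (cone I), g x ∈ Submodule.span ℂ (cone I) := by
      intro x hx
      have h1 : g x ∈ (Submodule.span ℂ (cone I)).map g.toLinearMap :=
        Submodule.mem_map_of_mem (f := g.toLinearMap) hx
      have h2 : (Submodule.span ℂ (cone I)).map g.toLinearMap ≤ Submodule.span ℂ (cone I) := by
        rw [Submodule.map_span, Submodule.span_le]
        rintro _ ⟨y, hy, rfl⟩
        exact Submodule.subset_span (hg y hy)
      exact h2 h1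
    let g' : Module.End ℂ (κ → ℂ) := M ∘ₗ g.toLinearMap ∘ₗ L
    have hLg : ∀ z, L (g' z) = g (L z) := fun z => hLM _ (hgW _ (hLW z))
    have hLinj : Function.Injective L := fun z z' h => by
      rw [← hInv.ML z, h, hInv.ML]
    have hinj' : Function.Injective g' := by
      intro z z' h
      apply hLinj
      apply g.injective
      rw [← hLg, ← hLg, h]
    set b := LinearMap.toMatrix' g' with hb
    have hbz : ∀ z, b.mulVec z = g' z := fun z => by
      rw [hb, ← Matrix.toLin'_apply, Matrix.toLin'_toMatrix']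
    have hdet : b.det ≠ 0 := by
      rw [hb, LinearMap.det_toMatrix']
      intro h0
      have h1 : LinearMap.ker g' ≠ ⊥ := by
        intro h2
        have h3 := LinearMap.isUnit_det g' ((LinearMap.isUnit_iff_ker_eq_bot g').2 h2)
        rw [h0] at h3
        exact not_isUnit_zero h3
      exact h1 (LinearMap.ker_eq_bot.2 hinj')
    obtain ⟨μ, hμ⟩ := IsAlgClosed.exists_pow_nat_eq (b.det) hcard0
    have hμ0 : μ ≠ 0 := by
      rintro rfl
      rw [zero_pow hcard0.ne'] at hμ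
      exact hdet hμ.symm
    refine ⟨μ⁻¹ • b, ⟨?_, ?_⟩, μ, ?_⟩
    · rw [Matrix.det_smul, inv_pow, hμ, inv_mul_cancel₀ hdet]
    · intro z hz
      rw [cone_pull hInv hp] at hz ⊢
      rw [Matrix.smul_mulVec, hbz, map_smul, hLg]
      exact H15.Hart.smul_mem_cone hI.homog (hg _ hz) _
    · intro x hx
      rw [Matrix.smul_mulVec, hbz, map_smul, smul_smul, mul_inv_cancel₀ hμ0, one_smul, hLg,
        hInv.LM x hx]
  -- choose a representative for every matrix
  let rep : Matrix κ κ ℂ → ((Fin (n + 1) → ℂ) ≃ₗ[ℂ] (Fin (n + 1) → ℂ)) := fun a =>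
    if h : ∃ g : (Fin (n + 1) → ℂ) ≃ₗ[ℂ] (Fin (n + 1) → ℂ), ∃ μ : ℂ,
      ∀ x ∈ cone I, g x = μ • L (a.mulVec (M x)) then h.choose else LinearEquiv.refl ℂ _
  have hrep2 : ∀ a, (∃ g : (Fin (n + 1) → ℂ) ≃ₗ[ℂ] (Fin (n + 1) → ℂ), ∃ μ : ℂ,
      ∀ x ∈ cone I, g x = μ • L (a.mulVec (M x))) → ∃ μ : ℂ, ∀ x ∈ cone I,
      rep a x = μ • L (a.mulVec (M x)) := by
    intro a h
    simp only [rep, dif_pos h]
    exact h.choose_spec
  refine ⟨hfin.toFinset.image rep, fun g hg => ?_⟩
  obtain ⟨a, ha, μ, hμ⟩ := hrep g hg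
  refine ⟨rep a, Finset.mem_image_of_mem _ (hfin.mem_toFinset.2 ha), fun x hx => ?_⟩
  obtain ⟨ν, hν⟩ := hrep2 a ⟨g, μ, hμ⟩
  by_cases hν0 : ν = 0
  · -- then `rep a x = 0`, so `x = 0`
    have h1 := hν x hx
    rw [hν0, zero_smul] at h1
    have h2 : x = 0 := (rep a).map_eq_zero_iff.1 h1
    exact ⟨0, by rw [h2, map_zero, zero_smul]⟩
  · refine ⟨μ * ν⁻¹, ?_⟩
    rw [hμ x hx, hν x hx, smul_smul, mul_assoc, inv_mul_cancel₀ hν0, mul_one]

end H12.Uni
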