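import Pool.Agent.H12.Uni.Gen

/-! Polynomial flows of the cone (2A), (2B). -/

open MvPolynomial Matrix H89.Hart Filter Topology Pool.Agent.H25.Hart

set_option linter.unusedSectionVars false

namespace H12.Uni

variable {ι : Type*} [Fintype ι] [DecidableEq ι] {κ : Type*} [Fintype κ] [DecidableEq κ]

theorem eval_PvP {r : ℕ} (g : Fin r → MvPolynomial ι ℂ)
    (l : Fin r → ι → ℂ) (v y : ι → ℂ) (k : ι) : eval y (PvP g l v k) = Pv g l v y k := by
  simp only [PvP, Pv, map_sub, map_mul, map_sum, eval_C, eval_det_mat, eval_adj_mat, eval_dd,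
    Pi.sub_apply, Pi.smul_apply, Finset.sum_apply, smul_eq_mul]

theorem eval_etaP (A : Matrix ι ι ℂ) (m : ℕ) {r : ℕ} (g : Fin r → MvPolynomial ι ℂ)
    (l : Fin r → ι → ℂ) (v y : ι → ℂ) (k : ι) :
    eval y (etaP A m g l v k) = eta A m g l v y k := by
  simp only [etaP, eta, map_sum, map_mul, eval_C, eval_PvP, Matrix.mulVec, dotProduct]

theorem ev_etaP (A : Matrix ι ι ℂ) (m : ℕ) {r : ℕ} (g : Fin r → MvPolynomial ι ℂ)
    (l : Fin r → ι → ℂ) (v y : ι → ℂ) : ev (etaP A m g l v) y = eta A m g l v y :=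
  funext fun k => eval_etaP A m g l v y k

/-- `P_v(y)` is tangent at `y`. -/
theorem Pv_mem_T {I : Ideal (MvPolynomial ι ℂ)} {r : ℕ} (hI : Smooth I r)
    (g : Fin r → MvPolynomial ι ℂ) (hg : ∀ i, g i ∈ I) (l : Fin r → ι → ℂ) {p : ι → ℂ}
    (hp : p ∈ cone I) (hp0 : p ≠ 0) (hdet : (matAt g l p).det ≠ 0) (v : ι → ℂ) {y : ι → ℂ}
    (hy : y ∈ cone I) : Pv g l v y ∈ T I y := by
  rw [mem_T]
  intro s hs
  have h1 := frame_id hI g hg l hp hp0 hdet hy hs
  have h2 := congrArg (fun w => w ⬝ᵥ v) h1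
  simp only [smul_dotProduct, sum_dotProduct, smul_eq_mul] at h2
  simp only [Pv, dotProduct_sub, dotProduct_smul, dotProduct_sum, smul_eq_mul]
  rw [h2, sub_eq_zero]
  refine Finset.sum_congr rfl fun i _ => ?_
  rw [Finset.sum_mul]
  refine Finset.sum_congr rfl fun j _ => ?_
  ring

/-- at the frame point, for tangent `v`: `P_v(p) = v`. -/
theorem Pv_self {I : Ideal (MvPolynomial ι ℂ)} {r : ℕ} (g : Fin r → MvPolynomial ι ℂ)
    (hg : ∀ i, g i ∈ I) (l : Fin r → ι → ℂ) {p : ι → ℂ} (hmat : matAt g l p = 1) {v : ι → ℂ}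
    (hv : v ∈ T I p) : Pv g l v p = v := by
  rw [Pv, hmat, Matrix.det_one, one_smul]
  rw [Finset.sum_eq_zero, sub_zero]
  intro i _
  refine Finset.sum_eq_zero fun j _ => ?_
  rw [hv _ (mem_N.2 ⟨g i, hg i, rfl⟩), zero_mul, zero_smul]

theorem eta_self {I : Ideal (MvPolynomial ι ℂ)} {r : ℕ} (A : Matrix ι ι ℂ) (m : ℕ)
    (g : Fin r → MvPolynomial ι ℂ)
    (hg : ∀ i, g i ∈ I) (l : Fin r → ι → ℂ) {p : ι → ℂ} (hmat : matAt g l p = 1) {v : ι → ℂ}
    (hv : v ∈ T I p) : eta A m g l v p = A ^ m *ᵥ v := by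
  rw [eta, Pv_self g hg l hmat hv]

theorem eta_mem_imA (A : Matrix ι ι ℂ) (m : ℕ) {r : ℕ} (g : Fin r → MvPolynomial ι ℂ)
    (l : Fin r → ι → ℂ) (v y : ι → ℂ) : eta A m g l v y ∈ imA A m :=
  mem_imA.2 ⟨_, rfl⟩

theorem deta_eq (A : Matrix ι ι ℂ) (m : ℕ) {r : ℕ} (g : Fin r → MvPolynomial ι ℂ)
    (l : Fin r → ι → ℂ) (v y s : ι → ℂ) :
    deta A m g l v y s = ∑ k, s k • dif (etaP A m g l v k) y := by
  rw [deta, dif_sum]
  refine Finset.sum_congr rfl fun k _ => ?_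
  rw [← smul_eq_C_mul, dif_smul]

theorem Pv_add {r : ℕ} (g : Fin r → MvPolynomial ι ℂ) (l : Fin r → ι → ℂ) (v w y : ι → ℂ) :
    Pv g l (v + w) y = Pv g l v y + Pv g l w y := by
  simp only [Pv, smul_add, dotProduct_add, add_mul, add_smul, Finset.sum_add_distrib]
  abel

theorem Pv_smul {r : ℕ} (g : Fin r → MvPolynomial ι ℂ) (l : Fin r → ι → ℂ) (c : ℂ)
    (v y : ι → ℂ) : Pv g l (c • v) y = c • Pv g l v y := by
  simp only [Pv, dotProduct_smul, smul_eq_mul, smul_sub, Finset.smul_sum, smul_smul]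
  congr 1
  · rw [mul_comm]
  · refine Finset.sum_congr rfl fun i _ => Finset.sum_congr rfl fun j _ => ?_
    rw [mul_assoc]

theorem eta_add (A : Matrix ι ι ℂ) (m : ℕ) {r : ℕ} (g : Fin r → MvPolynomial ι ℂ)
    (l : Fin r → ι → ℂ) (v w y : ι → ℂ) :
    eta A m g l (v + w) y = eta A m g l v y + eta A m g l w y := by
  rw [eta, Pv_add, Matrix.mulVec_add]; rfl

theorem eta_smul (A : Matrix ι ι ℂ) (m : ℕ) {r : ℕ} (g : Fin r → MvPolynomial ι ℂ)
    (l : Fin r → ι → ℂ) (c : ℂ) (v y : ι → ℂ) :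
    eta A m g l (c • v) y = c • eta A m g l v y := by
  rw [eta, Pv_smul, Matrix.mulVec_smul]; rfl

theorem etaP_add (A : Matrix ι ι ℂ) (m : ℕ) {r : ℕ} (g : Fin r → MvPolynomial ι ℂ)
    (l : Fin r → ι → ℂ) (v w : ι → ℂ) (k : ι) :
    etaP A m g l (v + w) k = etaP A m g l v k + etaP A m g l w k := by
  apply MvPolynomial.funext
  intro y
  rw [map_add, eval_etaP, eval_etaP, eval_etaP, eta_add]
  rfl

theorem etaP_smul (A : Matrix ι ι ℂ) (m : ℕ) {r : ℕ} (g : Fin r → MvPolynomial ι ℂ)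
    (l : Fin r → ι → ℂ) (c : ℂ) (v : ι → ℂ) (k : ι) :
    etaP A m g l (c • v) k = c • etaP A m g l v k := by
  apply MvPolynomial.funext
  intro y
  rw [smul_eval, eval_etaP, eval_etaP, eta_smul]
  rfl

theorem deta_add_left (A : Matrix ι ι ℂ) (m : ℕ) {r : ℕ} (g : Fin r → MvPolynomial ι ℂ)
    (l : Fin r → ι → ℂ) (v w y s : ι → ℂ) :
    deta A m g l (v + w) y s = deta A m g l v y s + deta A m g l w y s := by
  simp only [deta_eq, etaP_add, dif_add, smul_add, Finset.sum_add_distrib]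

theorem deta_smul_left (A : Matrix ι ι ℂ) (m : ℕ) {r : ℕ} (g : Fin r → MvPolynomial ι ℂ)
    (l : Fin r → ι → ℂ) (c : ℂ) (v y s : ι → ℂ) :
    deta A m g l (c • v) y s = c • deta A m g l v y s := by
  simp only [deta_eq, etaP_smul, dif_smul, Finset.smul_sum]
  refine Finset.sum_congr rfl fun k _ => ?_
  rw [smul_comm]

theorem deta_add_right (A : Matrix ι ι ℂ) (m : ℕ) {r : ℕ} (g : Fin r → MvPolynomial ι ℂ)
    (l : Fin r → ι → ℂ) (v y s u : ι → ℂ) :
    deta A m g l v y (s + u) = deta A m g l v y s + deta A m g l v y u := by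
  simp only [deta_eq, Pi.add_apply, add_smul, Finset.sum_add_distrib]

theorem deta_smul_right (A : Matrix ι ι ℂ) (m : ℕ) {r : ℕ} (g : Fin r → MvPolynomial ι ℂ)
    (l : Fin r → ι → ℂ) (c : ℂ) (v y s : ι → ℂ) :
    deta A m g l v y (c • s) = c • deta A m g l v y s := by
  simp only [deta_eq, Pi.smul_apply, smul_eq_mul, Finset.smul_sum, smul_smul]

/-- if `s` vanishes on `im A ^ m` then `s ∘ dη = 0`. -/
theorem deta_eq_zero (A : Matrix ι ι ℂ) (m : ℕ) {r : ℕ} (g : Fin r → MvPolynomial ι ℂ)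
    (l : Fin r → ι → ℂ) (v y : ι → ℂ) {s : ι → ℂ} (hs : ∀ w ∈ imA A m, s ⬝ᵥ w = 0) :
    deta A m g l v y s = 0 := by
  have h : (∑ k, C (s k) * etaP A m g l v k) = 0 := by
    apply MvPolynomial.funext
    intro z
    rw [map_sum, map_zero, ← hs _ (eta_mem_imA A m g l v z)]
    refine Finset.sum_congr rfl fun k _ => ?_
    rw [map_mul, eval_C, eval_etaP]
  rw [deta, h, dif_zero]

/-! ### chain rule -/

theorem dif_bind (φ : ι → MvPolynomial κ ℂ) (h : MvPolynomial ι ℂ) (u : κ → ℂ) :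
    dif (bind₁ φ h) u = ∑ k, eval (ev φ u) (pderiv k h) • dif (φ k) u := by
  induction h using MvPolynomial.induction_on with
  | C c =>
    funext j
    simp [dif]
  | add p q hp hq =>
    rw [map_add, dif_add, hp, hq, ← Finset.sum_add_distrib]
    refine Finset.sum_congr rfl fun k _ => ?_
    rw [map_add, map_add, add_smul]
  | mul_X p j hp =>
    rw [map_mul, bind₁_X_right, dif_mul, hp, eval_bind, Finset.smul_sum]
    have h1 : ∀ k, eval (ev φ u) (pderiv k (p * X j)) • dif (φ k) u =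
        eval u (φ j) • eval (ev φ u) (pderiv k p) • dif (φ k) u +
          (if k = j then eval (ev φ u) p • dif (φ j) u else 0) := by
      intro k
      rw [Derivation.leibniz, pderiv_X]
      by_cases hk : k = j
      · subst hk
        simp only [Pi.single_eq_same, smul_eq_mul, map_add, map_mul, mul_one, eval_X, if_true,
          add_smul, smul_smul]
        rw [add_comm]
        rfl
      · have hk' : ¬ j = k := fun e => hk e.symm
        simp only [Pi.single_apply, hk, hk', if_false, smul_eq_mul, map_add, map_mul, mul_zero,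
          zero_add, add_zero, eval_X, smul_smul]
        rfl
    rw [Finset.sum_congr rfl (fun k _ => h1 k), Finset.sum_add_distrib, add_comm]
    simp

/-- invariance under a derivation gives invariance under its flow. -/
theorem ln_eq_zero_of_flow {I : Ideal (MvPolynomial ι ℂ)} {x u : ι → ℂ} (hx : x ∈ cone I)
    (D : MvPolynomial ι ℂ → MvPolynomial ι ℂ) (hD : ∀ h ∈ I, D h ∈ I)
    (hd : ∀ h, (ln x u h).derivative = ln x u (D h)) : ∀ h ∈ I, ln x u h = 0 := by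
  have key : ∀ n : ℕ, ∀ h ∈ I, (ln x u h).coeff n = 0 := by
    intro n
    induction n with
    | zero =>
      intro h hh
      rw [coeff_zero_ln]
      exact hx h hh
    | succ n ih =>
      intro h hh
      have h1 := ih (D h) (hD h hh)
      rw [← hd, Polynomial.coeff_derivative] at h1
      have h2 : ((n : ℂ) + 1) ≠ 0 := by exact_mod_cast Nat.succ_ne_zero n
      exact (mul_eq_zero.1 h1).resolve_right h2
  intro h hh
  ext n
  rw [key n h hh, Polynomial.coeff_zero]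

section

variable {I : Ideal (MvPolynomial ι ℂ)} {r : ℕ} {A : Matrix ι ι ℂ} {m : ℕ}

/-- `ξ(x) = η_v(A ^ m x)` as a vector of polynomials. -/
noncomputable def xiP (A : Matrix ι ι ℂ) (m : ℕ) {r : ℕ} (g : Fin r → MvPolynomial ι ℂ)
    (l : Fin r → ι → ℂ) (v : ι → ℂ) : ι → MvPolynomial ι ℂ := fun k =>
  pull (A ^ m).mulVecLin (etaP A m g l v k)

theorem ev_xiP (A : Matrix ι ι ℂ) (m : ℕ) {r : ℕ} (g : Fin r → MvPolynomial ι ℂ)
    (l : Fin r → ι → ℂ) (v x : ι → ℂ) : ev (xiP A m g l v) x = eta A m g l v (A ^ m *ᵥ x) := by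
  funext k
  rw [ev, xiP, eval_pull, eval_etaP]
  rfl

theorem UniSetup.pow_mul_self (U : UniSetup I r A m) : A ^ m * A ^ m = 0 := by
  rw [← pow_add]
  exact U.pow_zero_of_lt (by have := U.one_le; omega)

theorem UniSetup.pow_mulVec_eta (U : UniSetup I r A m) (g : Fin r → MvPolynomial ι ℂ)
    (l : Fin r → ι → ℂ) (v y : ι → ℂ) : A ^ m *ᵥ eta A m g l v y = 0 := by
  rw [eta, Matrix.mulVec_mulVec, U.pow_mul_self, Matrix.zero_mulVec]

theorem UniSetup.pow_mulVec_flow (U : UniSetup I r A m) (g : Fin r → MvPolynomial ι ℂ)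
    (l : Fin r → ι → ℂ) (v x y : ι → ℂ) (t : ℂ) :
    A ^ m *ᵥ (x + t • eta A m g l v y) = A ^ m *ᵥ x := by
  rw [Matrix.mulVec_add, Matrix.mulVec_smul, U.pow_mulVec_eta, smul_zero, add_zero]

/-- the derivation along `ξ`. -/
noncomputable def Dxi (A : Matrix ι ι ℂ) (m : ℕ) {r : ℕ} (g : Fin r → MvPolynomial ι ℂ)
    (l : Fin r → ι → ℂ) (v : ι → ℂ) (h : MvPolynomial ι ℂ) : MvPolynomial ι ℂ :=
  ∑ k, xiP A m g l v k * pderiv k h

theorem eval_Dxi (A : Matrix ι ι ℂ) (m : ℕ) {r : ℕ} (g : Fin r → MvPolynomial ι ℂ)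
    (l : Fin r → ι → ℂ) (v x : ι → ℂ) (h : MvPolynomial ι ℂ) :
    eval x (Dxi A m g l v h) = dif h x ⬝ᵥ eta A m g l v (A ^ m *ᵥ x) := by
  rw [Dxi, map_sum, ← ev_xiP]
  simp only [map_mul, dotProduct, dif, ev]
  refine Finset.sum_congr rfl fun k _ => mul_comm _ _

theorem UniSetup.Dxi_mem (U : UniSetup I r A m) (g : Fin r → MvPolynomial ι ℂ)
    (hg : ∀ i, g i ∈ I) (l : Fin r → ι → ℂ) {p : ι → ℂ} (hp : p ∈ cone I) (hp0 : p ≠ 0)
    (hdet : (matAt g l p).det ≠ 0) (v : ι → ℂ) {h : MvPolynomial ι ℂ} (hh : h ∈ I) :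
    Dxi A m g l v h ∈ I := by
  obtain ⟨z, hz, hz0⟩ := U.exists_pow_ne
  obtain ⟨k, hk⟩ : ∃ k, (A ^ m *ᵥ z) k ≠ 0 := by
    by_contra hc; push Not at hc; exact hz0 (funext hc)
  have h1 : linP (A ^ m).mulVecLin k ∉ I := by
    intro hmem
    apply hk
    have := hz _ hmem
    have h2 := congrFun (ev_linP (A ^ m).mulVecLin z) k
    rw [ev] at h2
    rw [h2] at this
    exact this
  have h2 : linP (A ^ m).mulVecLin k * Dxi A m g l v h ∈ I := by
    apply mem_of_cone U.smooth.prime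
    intro x hx
    rw [map_mul]
    by_cases hx0 : A ^ m *ᵥ x = 0
    · have h3 := congrFun (ev_linP (A ^ m).mulVecLin x) k
      rw [ev] at h3
      rw [h3, Matrix.mulVecLin_apply, hx0, Pi.zero_apply, zero_mul]
    · have hkill : A ^ (m + 1) *ᵥ x = 0 := by rw [U.nil, Matrix.zero_mulVec]
      have h3 : dif h x ᵥ* A ^ m ∈ N I (A ^ m *ᵥ x) :=
        U.cl hx (mem_N.2 ⟨h, hh, rfl⟩) hx0 hkill (by rw [U.nil, Matrix.vecMul_zero])
      have h4 := Pv_mem_T U.smooth g hg l hp hp0 hdet v (U.cl_cone hx hkill)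
      rw [eval_Dxi, eta, dotProduct_mulVec, mem_T.1 h4 _ h3, mul_zero]
  exact (U.smooth.prime.mem_or_mem h2).resolve_left h1

/-- (2A) -/
theorem UniSetup.flow (U : UniSetup I r A m) (g : Fin r → MvPolynomial ι ℂ)
    (hg : ∀ i, g i ∈ I) (l : Fin r → ι → ℂ)
    {p : ι → ℂ} (hp : p ∈ cone I) (hp0 : p ≠ 0) (hdet : (matAt g l p).det ≠ 0) (v : ι → ℂ)
    {x : ι → ℂ} (hx : x ∈ cone I) (t : ℂ) :
    x + t • eta A m g l v (A ^ m *ᵥ x) ∈ cone I := by
  intro h hh
  have h1 := ln_eq_zero_of_flow (u := eta A m g l v (A ^ m *ᵥ x)) hx (Dxi A m g l v)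
    (fun h hh => U.Dxi_mem g hg l hp hp0 hdet v hh) (fun h => by
      apply Polynomial.funext
      intro t
      rw [eval_derivative_ln, eval_ln, eval_Dxi, U.pow_mulVec_flow]) h hh
  rw [← eval_ln, h1, Polynomial.eval_zero]

/-- (2B) -/
theorem UniSetup.flow_N (U : UniSetup I r A m) (g : Fin r → MvPolynomial ι ℂ)
    (hg : ∀ i, g i ∈ I) (l : Fin r → ι → ℂ)
    {p : ι → ℂ} (hp : p ∈ cone I) (hp0 : p ≠ 0) (hdet : (matAt g l p).det ≠ 0) (v : ι → ℂ)
    {x s : ι → ℂ} (_hx : x ∈ cone I) (hs : s ∈ N I x) (t : ℂ) :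
    s - t • (deta A m g l v (A ^ m *ᵥ x) s ᵥ* A ^ m) ∈
      N I (x + t • eta A m g l v (A ^ m *ᵥ x)) := by
  obtain ⟨h, hh, rfl⟩ := mem_N.1 hs
  set x₁ := x + t • eta A m g l v (A ^ m *ᵥ x) with hx₁
  let φ : ι → MvPolynomial ι ℂ := fun k => X k - C t * xiP A m g l v k
  have hφ : ∀ z, ev φ z = z + (-t) • eta A m g l v (A ^ m *ᵥ z) := by
    intro z
    funext k
    have := congrFun (ev_xiP A m g l v z) k
    rw [ev] at this
    simp only [ev, φ, map_sub, eval_X, map_mul, eval_C, this, Pi.add_apply, Pi.smul_apply,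
      smul_eq_mul]
    ring
  have hφ₁ : ev φ x₁ = x := by
    rw [hφ, hx₁, U.pow_mulVec_flow, neg_smul]
    abel
  refine mem_N.2 ⟨bind₁ φ h, ?_, ?_⟩
  · apply mem_of_cone U.smooth.prime
    intro z hz
    rw [eval_bind, hφ]
    exact U.flow g hg l hp hp0 hdet v hz (-t) h hh
  · rw [dif_bind, hφ₁]
    have h1 : ∀ k, dif (φ k) x₁ = Pi.single k 1 - t • dif (xiP A m g l v k) x₁ := by
      intro k
      simp only [φ]
      rw [dif_sub, dif_X, ← smul_eq_C_mul, dif_smul]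
    have h2 : ∀ k, dif (xiP A m g l v k) x₁ =
        dif (etaP A m g l v k) (A ^ m *ᵥ x) ᵥ* A ^ m := by
      intro k
      refine dotProduct_eq _ _ fun w => ?_
      rw [xiP, dif_pull, ← dotProduct_mulVec]
      have : (A ^ m).mulVecLin x₁ = A ^ m *ᵥ x := by
        rw [Matrix.mulVecLin_apply, hx₁, U.pow_mulVec_flow]
      rw [this]
      rfl
    have h3 : deta A m g l v (A ^ m *ᵥ x) (dif h x) ᵥ* A ^ m =
        ∑ k, dif h x k • (dif (etaP A m g l v k) (A ^ m *ᵥ x) ᵥ* A ^ m) := by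
      rw [deta_eq, Matrix.sum_vecMul]
      refine Finset.sum_congr rfl fun k _ => ?_
      rw [Matrix.smul_vecMul]
    rw [h3]
    have h4 : ∀ k, eval x (pderiv k h) • dif (φ k) x₁ =
        dif h x k • (Pi.single k 1 : ι → ℂ) -
          t • (dif h x k • (dif (etaP A m g l v k) (A ^ m *ᵥ x) ᵥ* A ^ m)) := by
      intro k
      rw [h1, h2, smul_sub, smul_comm t]
      rfl
    rw [Finset.sum_congr rfl fun k _ => h4 k, Finset.sum_sub_distrib, Finset.smul_sum]
    congr 1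
    funext j
    simp [Finset.sum_apply, Pi.single_apply]

end

/-! ### sections by linear spaces -/

theorem exists_of_not_mem {P : Ideal (MvPolynomial κ ℂ)}
    (hP : P.IsPrime) {h : MvPolynomial κ ℂ} (h1 : h ∉ P) : ∃ u ∈ cone P, eval u h ≠ 0 := by
  by_contra hcon
  push Not at hcon
  exact h1 (mem_of_cone hP hcon)

/-- `F_j`: a component of a linear section. -/
theorem exists_F {I : Ideal (MvPolynomial ι ℂ)} {r : ℕ} (hI : Smooth I r)
    (hd : (Fintype.card ι : WithBot ℕ∞) ≤ ringKrullDim (MvPolynomial ι ℂ ⧸ I) + r)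
    (M : Submodule ℂ (ι → ℂ)) (hM : r + 1 ≤ Module.finrank ℂ M) :
    ∃ P : Ideal (MvPolynomial ι ℂ), P.IsPrime ∧ (∀ f ∈ P, ∀ d, homogeneousComponent d f ∈ P) ∧
      I ≤ P ∧ (∀ z ∈ cone P, z ∈ M) ∧
      (Module.finrank ℂ M : WithBot ℕ∞) ≤ ringKrullDim (MvPolynomial ι ℂ ⧸ P) + r := by
  obtain ⟨l, hl⟩ := exists_equations M
  have h3 : Module.finrank ℂ M ≤ Fintype.card ι := by
    have := Submodule.finrank_le M
    rwa [Module.finrank_fintype_fun_eq_card] at this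
  obtain ⟨y, hy, hy0, hyl⟩ := exists_in_section hI.prime hI.homog hd l (by omega)
  obtain ⟨P, h1, h2, h3, -, h5, h6⟩ := exists_section hI M hy hy0 ((hl y).2 hyl)
  exact ⟨P, h1, h2, h3, h5, h6⟩

end H12.Uni
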