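import Pool.Agent.H12.Uni.Orb

/-! Generic conditions on conormal spaces, dimensions as natural numbers, homogeneity of `Q`. -/

open MvPolynomial Matrix H89.Hart Filter Topology

set_option linter.unusedSectionVars false

namespace H12.Uni

variable {ι : Type*} [Fintype ι] [DecidableEq ι] {κ : Type*} [Fintype κ] [DecidableEq κ]

/-! ### dimensions -/

omit [DecidableEq κ] in
theorem exists_dim {P : Ideal (MvPolynomial κ ℂ)} (hP : P.IsPrime) :
    ∃ d : ℕ, ringKrullDim (MvPolynomial κ ℂ ⧸ P) = (d : WithBot ℕ∞) := by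
  have h1 : ringKrullDim (MvPolynomial κ ℂ ⧸ P) ≤ (Fintype.card κ : WithBot ℕ∞) := by
    refine (ringKrullDim_quotient_le P).trans ?_
    rw [MvPolynomial.ringKrullDim_of_isNoetherianRing]
    simp
  have hne : Nontrivial (MvPolynomial κ ℂ ⧸ P) := Ideal.Quotient.nontrivial_iff.2 hP.ne_top
  have h2 : 0 ≤ ringKrullDim (MvPolynomial κ ℂ ⧸ P) := ringKrullDim_nonneg_of_nontrivial
  rcases hd : ringKrullDim (MvPolynomial κ ℂ ⧸ P) with _ | e
  · rw [hd] at h2
    exact absurd h2 (by decide)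
  · rcases e with _ | n
    · rw [hd] at h1
      exfalso
      change (⊤ : WithBot ℕ∞) ≤ _ at h1
      rw [top_le_iff] at h1
      exact ENat.natCast_ne_top (Fintype.card κ) (WithBot.coe_injective
        (show (((Fintype.card κ : ℕ) : ℕ∞) : WithBot ℕ∞) = ((⊤ : ℕ∞) : WithBot ℕ∞) from h1))
    · exact ⟨n, rfl⟩

/-! ### generic conditions -/

/-- the values of a vector of polynomials. -/
noncomputable def ev (φ : ι → MvPolynomial κ ℂ) (u : κ → ℂ) : ι → ℂ := fun i => eval u (φ i)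

theorem eval_bind (φ : ι → MvPolynomial κ ℂ) (u : κ → ℂ) (f : MvPolynomial ι ℂ) :
    eval u (bind₁ φ f) = eval (ev φ u) f := by
  have h : ((aeval u : MvPolynomial κ ℂ →ₐ[ℂ] ℂ).comp (bind₁ φ)) = aeval (ev φ u) := by
    apply MvPolynomial.algHom_ext
    intro i
    simp [ev, aeval_eq_eval]
  have h2 := congrArg (fun ψ => ψ f) h
  simpa [aeval_eq_eval] using h2

/-- the polynomials expressing that `σ` is conormal at `φ` (frame `g`, `l`). -/
noncomputable def RP {r : ℕ} (g : Fin r → MvPolynomial ι ℂ) (l : Fin r → ι → ℂ)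
    (φ σ : ι → MvPolynomial κ ℂ) (k : ι) : MvPolynomial κ ℂ :=
  bind₁ φ (mat g l).det * σ k - ∑ i, (∑ j, (∑ a, σ a * C (l j a)) *
    bind₁ φ ((mat g l).adjugate j i)) * bind₁ φ (pderiv k (g i))

theorem eval_RP {r : ℕ} (g : Fin r → MvPolynomial ι ℂ) (l : Fin r → ι → ℂ)
    (φ σ : ι → MvPolynomial κ ℂ) (k : ι) (u : κ → ℂ) :
    eval u (RP g l φ σ k) = ((matAt g l (ev φ u)).det • ev σ u -
      ∑ i, (∑ j, (ev σ u ⬝ᵥ l j) * (matAt g l (ev φ u)).adjugate j i) •
        dif (g i) (ev φ u)) k := by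
  simp only [RP, map_sub, map_mul, map_sum, eval_bind, eval_det_mat, eval_adj_mat, eval_C,
    Pi.sub_apply, Pi.smul_apply, smul_eq_mul, Finset.sum_apply, dotProduct, dif]
  rfl

theorem mem_N_of_RP {I : Ideal (MvPolynomial ι ℂ)} {r : ℕ} {g : Fin r → MvPolynomial ι ℂ}
    (hg : ∀ i, g i ∈ I) {l : Fin r → ι → ℂ} {φ σ : ι → MvPolynomial κ ℂ} {u : κ → ℂ}
    (hdet : (matAt g l (ev φ u)).det ≠ 0) (h : ∀ k, eval u (RP g l φ σ k) = 0) :
    ev σ u ∈ N I (ev φ u) := by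
  have h1 : (matAt g l (ev φ u)).det • ev σ u =
      ∑ i, (∑ j, (ev σ u ⬝ᵥ l j) * (matAt g l (ev φ u)).adjugate j i) •
        dif (g i) (ev φ u) := by
    rw [← sub_eq_zero]
    funext k
    rw [← eval_RP, h k]
    rfl
  have h2 : (matAt g l (ev φ u)).det • ev σ u ∈ N I (ev φ u) := by
    rw [h1]
    exact Submodule.sum_mem _ fun i _ => Submodule.smul_mem _ _ (mem_N.2 ⟨g i, hg i, rfl⟩)
  exact ((N I (ev φ u)).smul_mem_iff hdet).1 h2

theorem RP_eq_zero {I : Ideal (MvPolynomial ι ℂ)} {r : ℕ} (hI : Smooth I r)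
    {g : Fin r → MvPolynomial ι ℂ} (hg : ∀ i, g i ∈ I) {l : Fin r → ι → ℂ} {p : ι → ℂ}
    (hp : p ∈ cone I) (hp0 : p ≠ 0) (hdet : (matAt g l p).det ≠ 0)
    {φ σ : ι → MvPolynomial κ ℂ} {u : κ → ℂ} (hu : ev φ u ∈ cone I)
    (hσ : ev σ u ∈ N I (ev φ u)) (k : ι) : eval u (RP g l φ σ k) = 0 := by
  rw [eval_RP, ← frame_id hI g hg l hp hp0 hdet hu hσ, sub_self]
  rfl

/-- a generic conormal vector is conormal everywhere. -/
theorem mem_N_of_generic {I : Ideal (MvPolynomial ι ℂ)} {r : ℕ} (hI : Smooth I r)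
    {P : Ideal (MvPolynomial κ ℂ)} (hP : P.IsPrime) (φ σ : ι → MvPolynomial κ ℂ)
    (hφ : ∀ u ∈ cone P, ev φ u ∈ cone I) {h : MvPolynomial κ ℂ} (hh : h ∉ P)
    (hgen : ∀ u ∈ cone P, eval u h ≠ 0 → ev φ u ≠ 0 → ev σ u ∈ N I (ev φ u))
    {u : κ → ℂ} (hu : u ∈ cone P) (hu0 : ev φ u ≠ 0) : ev σ u ∈ N I (ev φ u) := by
  obtain ⟨g, l, hg, -, hli, hmat⟩ := exists_frame hI (hφ u hu) hu0
  have hdet : (matAt g l (ev φ u)).det ≠ 0 := by rw [hmat]; simp
  refine mem_N_of_RP hg hdet fun k => ?_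
  obtain ⟨a, ha⟩ : ∃ a, ev φ u a ≠ 0 := by
    by_contra hc; push Not at hc; exact hu0 (funext hc)
  have h1 : φ a ∉ P := fun h => ha (hu _ h)
  have h2 : φ a * h * RP g l φ σ k ∈ P := by
    apply mem_of_cone hP
    intro z hz
    rw [map_mul, map_mul]
    by_cases hz1 : eval z (φ a) = 0
    · rw [hz1]; ring
    by_cases hz2 : eval z h = 0
    · rw [hz2]; ring
    have hz0 : ev φ z ≠ 0 := fun h0 => hz1 (congrFun h0 a)
    rw [RP_eq_zero hI hg (hφ u hu) hu0 hdet (hφ z hz) (hgen z hz hz2 hz0), mul_zero]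
  rcases hP.mem_or_mem h2 with h3 | h3
  · rcases hP.mem_or_mem h3 with h4 | h4
    · exact absurd h4 h1
    · exact absurd h4 hh
  · exact hu _ h3

/-- a linear map as a vector of polynomials. -/
noncomputable def linP (L : (κ → ℂ) →ₗ[ℂ] (ι → ℂ)) : ι → MvPolynomial κ ℂ := fun i =>
  Pool.Agent.H25.Hart.pull L (X i)

theorem ev_linP (L : (κ → ℂ) →ₗ[ℂ] (ι → ℂ)) (u : κ → ℂ) : ev (linP L) u = L u := by
  funext i
  rw [ev, linP, Pool.Agent.H25.Hart.eval_pull, eval_X]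

theorem ev_C (s : ι → ℂ) (u : κ → ℂ) : ev (fun i => (C (s i) : MvPolynomial κ ℂ)) u = s := by
  funext i
  simp [ev]

/-- the generic version for a linear map and a constant form. -/
theorem mem_N_of_generic_lin {I : Ideal (MvPolynomial ι ℂ)} {r : ℕ} (hI : Smooth I r)
    {P : Ideal (MvPolynomial κ ℂ)} (hP : P.IsPrime) (L : (κ → ℂ) →ₗ[ℂ] (ι → ℂ))
    (hL : ∀ u ∈ cone P, L u ∈ cone I) {h : MvPolynomial κ ℂ} (hh : h ∉ P) {s : ι → ℂ}
    (hgen : ∀ u ∈ cone P, eval u h ≠ 0 → L u ≠ 0 → s ∈ N I (L u))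
    {u : κ → ℂ} (hu : u ∈ cone P) (hu0 : L u ≠ 0) : s ∈ N I (L u) := by
  have := mem_N_of_generic hI hP (linP L) (fun i => C (s i)) (by
    intro u hu; rw [ev_linP]; exact hL u hu) hh (by
    intro u hu h1 h2
    rw [ev_linP] at h2 ⊢
    rw [ev_C]
    exact hgen u hu h1 h2) hu (by rwa [ev_linP])
  rwa [ev_linP, ev_C] at this

/-! ### homogeneity -/

theorem det_homog {c : ℕ} (M : Matrix (Fin c) (Fin c) (MvPolynomial κ ℂ)) (a : Fin c → ℕ)
    (h : ∀ i j, (M i j).IsHomogeneous (a i)) : M.det.IsHomogeneous (∑ i, a i) := by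
  rw [← Matrix.det_transpose, Matrix.det_apply]
  refine IsHomogeneous.sum _ _ _ fun σ _ => ?_
  have h1 : (∏ i, Mᵀ (σ i) i).IsHomogeneous (∑ i, a i) :=
    IsHomogeneous.prod _ _ _ fun i _ => h i (σ i)
  rw [Units.smul_def, ← Int.cast_smul_eq_zsmul ℂ]
  exact (homogeneousSubmodule κ ℂ _).smul_mem _ h1

theorem dd_homog {v : ι → ℂ} {f : MvPolynomial ι ℂ} {d : ℕ} (hf : f.IsHomogeneous d) :
    (dd v f).IsHomogeneous (d - 1) := by
  refine IsHomogeneous.sum _ _ _ fun i _ => ?_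
  have := (isHomogeneous_C ι (v i)).mul (hf.pderiv (i := i))
  simpa using this

theorem mat_det_homog {c : ℕ} {g : Fin c → MvPolynomial ι ℂ} (l : Fin c → ι → ℂ)
    {d : Fin c → ℕ} (hg : ∀ i, (g i).IsHomogeneous (d i)) :
    (mat g l).det.IsHomogeneous (∑ i, (d i - 1)) :=
  det_homog _ _ fun i _ => dd_homog (hg i)

theorem mat_adj_homog {c : ℕ} {g : Fin c → MvPolynomial ι ℂ} (l : Fin c → ι → ℂ)
    {d : Fin c → ℕ} (hg : ∀ i, (g i).IsHomogeneous (d i)) (j i : Fin c) :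
    ((mat g l).adjugate j i).IsHomogeneous (∑ k, if k = i then 0 else (d k - 1)) := by
  rw [Matrix.adjugate_apply]
  refine det_homog _ _ fun k j' => ?_
  by_cases hk : k = i
  · subst hk
    rw [Matrix.updateRow_self, if_pos rfl, Pi.single_apply]
    split_ifs
    · exact isHomogeneous_one _ _
    · exact isHomogeneous_zero _ _ _
  · rw [Matrix.updateRow_ne hk, if_neg hk]
    exact dd_homog (hg k)

theorem Q_homog {c : ℕ} {g : Fin c → MvPolynomial ι ℂ} (l : Fin c → ι → ℂ)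
    {d : Fin c → ℕ} (hg : ∀ i, (g i).IsHomogeneous (d i)) {h : MvPolynomial ι ℂ} {e : ℕ}
    (hh : h.IsHomogeneous e) (v : ι → ℂ) :
    (Q g l h v).IsHomogeneous (∑ i, (d i - 1) + (e - 1)) := by
  rw [Q]
  refine IsHomogeneous.sub ((mat_det_homog l hg).mul (dd_homog hh)) ?_
  refine IsHomogeneous.sum _ _ _ fun i _ => ?_
  have h1 : (∑ j, dd (l j) h * (mat g l).adjugate j i).IsHomogeneous
      ((e - 1) + ∑ k, if k = i then 0 else (d k - 1)) :=
    IsHomogeneous.sum _ _ _ fun j _ => (dd_homog hh).mul (mat_adj_homog l hg j i)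
  have h2 := h1.mul (dd_homog (v := v) (hg i))
  have h3 : (e - 1) + (∑ k, if k = i then 0 else (d k - 1)) + (d i - 1) =
      ∑ i, (d i - 1) + (e - 1) := by
    rw [add_assoc, add_comm]
    congr 1
    have h4 : ∑ k, (d k - 1) = ∑ k, ((if k = i then 0 else (d k - 1)) +
        (if k = i then (d i - 1) else 0)) := by
      refine Finset.sum_congr rfl fun k _ => ?_
      split_ifs with hk
      · rw [hk, zero_add]
      · rw [add_zero]
    rw [h4, Finset.sum_add_distrib]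
    simp
  rwa [h3] at h2

/-- every conormal vector is the differential of a homogeneous element. -/
theorem exists_homog_dif {I : Ideal (MvPolynomial ι ℂ)}
    (hh : ∀ f ∈ I, ∀ d, homogeneousComponent d f ∈ I) {p v : ι → ℂ} (hp : p ∈ cone I)
    (hp0 : p ≠ 0) (hv : v ∈ N I p) : ∃ g ∈ I, ∃ d, g.IsHomogeneous d ∧ dif g p = v := by
  obtain ⟨f, hf, rfl⟩ := mem_N.1 hv
  obtain ⟨k, hk⟩ : ∃ k, p k ≠ 0 := by
    by_contra hc; push Not at hc; exact hp0 (funext hc)
  let ℓ : MvPolynomial ι ℂ := lf (Pi.single k (p k)⁻¹)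
  have hℓ : eval p ℓ = 1 := by
    rw [eval_lf]; simp [hk]
  have hℓh : ℓ.IsHomogeneous 1 := lf_homog _
  refine ⟨∑ d ∈ Finset.range (f.totalDegree + 1), ℓ ^ (f.totalDegree - d) *
    homogeneousComponent d f, ?_, f.totalDegree, ?_, ?_⟩
  · exact Ideal.sum_mem _ fun d _ => Ideal.mul_mem_left _ _ (hh f hf d)
  · refine IsHomogeneous.sum _ _ _ fun d hd => ?_
    have h1 := (hℓh.pow (f.totalDegree - d)).mul (homogeneousComponent_isHomogeneous d f)
    have h2 : 1 * (f.totalDegree - d) + d = f.totalDegree := by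
      have := Finset.mem_range.1 hd
      omega
    rwa [h2] at h1
  · rw [dif_sum]
    have h1 : dif f p = ∑ d ∈ Finset.range (f.totalDegree + 1),
        dif (homogeneousComponent d f) p := by
      rw [← dif_sum, sum_homogeneousComponent]
    rw [h1]
    refine Finset.sum_congr rfl fun d _ => ?_
    rw [dif_mul, map_pow, hℓ, one_pow, one_smul, hp _ (hh f hf d), zero_smul, add_zero]

end H12.Uni
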