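import Pool.Agent.H12.Uni.Deg

/-! From one invertible linear map to a unipotent one-parameter group. -/

open MvPolynomial Matrix H89.Hart Pool.Agent.H25.Hart

set_option linter.unusedSectionVars false

namespace H12.Uni

/-! ### exponential polynomials -/

/-- the shift of sequences. -/
def shiftS : Module.End ℂ (ℕ → ℂ) where
  toFun f k := f (k + 1)
  map_add' _ _ := rfl
  map_smul' _ _ := rfl

theorem shift_pow_zero (χ : ℂ) : ∀ n : ℕ, ∀ q : Polynomial ℂ, q.degree < n →
    ((shiftS - χ • (1 : Module.End ℂ (ℕ → ℂ))) ^ n) (fun k : ℕ => χ ^ k * q.eval (k : ℂ)) = 0 := by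
  intro n
  induction n with
  | zero =>
    intro q hq
    have hq0 : q = 0 := by
      rw [← Polynomial.degree_eq_bot]
      exact (Nat.WithBot.lt_zero_iff).1 (by simpa using hq)
    funext k
    simp [hq0]
  | succ n ih =>
    intro q hq
    by_cases hq0 : q = 0
    · have : (fun k : ℕ => χ ^ k * q.eval (k : ℂ)) = 0 := by
        funext k; simp [hq0]
      rw [this, map_zero]
    set d := Polynomial.taylor 1 q - q with hd
    have hdeg : d.degree < n := by
      have h1 : d.degree < (Polynomial.taylor 1 q).degree := by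
        refine Polynomial.degree_sub_lt_left (Polynomial.degree_taylor q 1) ?_ ?_
        · intro h0
          exact hq0 ((Polynomial.taylor_eq_zero 1 q).1 h0)
        · rw [Polynomial.leadingCoeff_taylor]
      rw [Polynomial.degree_taylor] at h1
      have h2 : q.degree ≤ n := by
        rw [Polynomial.degree_eq_natDegree hq0] at hq ⊢
        have : q.natDegree < n + 1 := by exact_mod_cast hq
        exact_mod_cast Nat.lt_succ_iff.1 this
      exact h1.trans_le h2
    have hstep : (shiftS - χ • (1 : Module.End ℂ (ℕ → ℂ))) (fun k : ℕ => χ ^ k * q.eval (k : ℂ)) =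
        χ • (fun k : ℕ => χ ^ k * d.eval (k : ℂ)) := by
      funext k
      rw [hd]
      simp only [LinearMap.sub_apply, LinearMap.smul_apply, Module.End.one_apply, shiftS,
        LinearMap.coe_mk, AddHom.coe_mk, Pi.sub_apply, Pi.smul_apply, smul_eq_mul,
        Polynomial.eval_sub, Polynomial.taylor_eval]
      push_cast
      ring
    rw [pow_succ, Module.End.mul_apply, hstep, map_smul, ih d hdeg, smul_zero]

theorem exp_poly_zero (T : Finset ℂ) (hT : ∀ χ ∈ T, χ ≠ 0) (p : ℂ → Polynomial ℂ)
    (h : ∀ k : ℕ, ∑ χ ∈ T, χ ^ k * (p χ).eval (k : ℂ) = 0) : ∀ χ ∈ T, p χ = 0 := by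
  have hind := Module.End.independent_maxGenEigenspace shiftS
  rw [iSupIndep_iff_finsetSum_eq_zero_imp_eq_zero] at hind
  have h1 := hind T (fun χ => fun k : ℕ => χ ^ k * (p χ).eval (k : ℂ)) (by
    intro χ _
    rw [Module.End.mem_maxGenEigenspace]
    refine ⟨(p χ).natDegree + 1, shift_pow_zero χ _ _ ?_⟩
    exact (Polynomial.degree_le_natDegree).trans_lt (by exact_mod_cast Nat.lt_succ_self _)) (by
    funext k
    rw [Finset.sum_apply]
    exact h k)
  intro χ hχ
  have h2 := h1 χ hχ
  refine Polynomial.eq_zero_of_infinite_isRoot _ (Set.Infinite.mono (s := Set.range ((↑) : ℕ → ℂ))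
    ?_ (Set.infinite_range_of_injective Nat.cast_injective))
  rintro _ ⟨k, rfl⟩
  have h3 := congrFun h2 k
  exact (mul_eq_zero.1 h3).resolve_left (pow_ne_zero k (hT χ hχ))

variable {κ : Type*} [Fintype κ] [DecidableEq κ]

theorem eval_twist_zero (G : MvPolynomial κ ℂ) (a : κ → ℂ) (ha : ∀ i, a i ≠ 0)
    (q : κ → Polynomial ℂ) (h : ∀ k : ℕ, eval (fun i => a i ^ k * (q i).eval (k : ℂ)) G = 0)
    (t : ℂ) : eval (fun i => (q i).eval t) G = 0 := by
  classical
  let val : (κ →₀ ℕ) → ℂ := fun m => ∏ i, a i ^ m i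
  let T : Finset ℂ := G.support.image val
  let p : ℂ → Polynomial ℂ := fun χ => ∑ m ∈ G.support.filter (fun m => val m = χ),
    Polynomial.C (coeff m G) * ∏ i, q i ^ m i
  have hp : ∀ χ t, (p χ).eval t = ∑ m ∈ G.support.filter (fun m => val m = χ),
      coeff m G * ∏ i, (q i).eval t ^ m i := by
    intro χ t
    simp only [p, Polynomial.eval_finsetSum, Polynomial.eval_mul, Polynomial.eval_C,
      Polynomial.eval_prod, Polynomial.eval_pow]
  have h1 : ∀ k : ℕ, ∑ χ ∈ T, χ ^ k * (p χ).eval (k : ℂ) = 0 := by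
    intro k
    rw [← h k, eval_eq', ← Finset.sum_fiberwise_of_maps_to (g := val) (t := T)
      (fun m hm => Finset.mem_image_of_mem _ hm)]
    refine Finset.sum_congr rfl fun χ _ => ?_
    rw [hp, Finset.mul_sum]
    refine Finset.sum_congr rfl fun m hm => ?_
    have hval : val m = χ := (Finset.mem_filter.1 hm).2
    have : ∏ i, (a i ^ k * (q i).eval (k : ℂ)) ^ m i =
        χ ^ k * ∏ i, (q i).eval (k : ℂ) ^ m i := by
      rw [← hval]
      simp only [val, mul_pow, Finset.prod_mul_distrib, ← Finset.prod_pow]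
      congr 1
      refine Finset.prod_congr rfl fun i _ => ?_
      rw [← pow_mul, ← pow_mul, mul_comm]
    rw [this]; ring
  have h2 := exp_poly_zero T (by
    intro χ hχ
    obtain ⟨m, -, rfl⟩ := Finset.mem_image.1 hχ
    exact Finset.prod_ne_zero_iff.2 fun i _ => pow_ne_zero _ (ha i)) p h1
  rw [eval_eq', ← Finset.sum_fiberwise_of_maps_to (g := val) (t := T)
      (fun m hm => Finset.mem_image_of_mem _ hm)]
  refine Finset.sum_eq_zero fun χ hχ => ?_
  rw [← hp, h2 χ hχ, Polynomial.eval_zero]

/-! ### derivatives along polynomial curves -/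

theorem derivative_aeval (γ : κ → Polynomial ℂ) (f : MvPolynomial κ ℂ) :
    (aeval γ f : Polynomial ℂ).derivative =
      ∑ i, aeval γ (pderiv i f) * (γ i).derivative := by
  induction f using MvPolynomial.induction_on with
  | C c => simp
  | add p q hp hq =>
    rw [map_add, Polynomial.derivative_add, hp, hq, ← Finset.sum_add_distrib]
    refine Finset.sum_congr rfl fun i _ => ?_
    rw [map_add, map_add, add_mul]
  | mul_X p j hp =>
    rw [map_mul, Polynomial.derivative_mul, hp, aeval_X]
    have h2 : ∀ i, aeval γ (pderiv i (p * X j)) * (γ i).derivative =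
        aeval γ (pderiv i p) * (γ i).derivative * γ j +
        (if i = j then aeval γ p * (γ j).derivative else 0) := by
      intro i
      rw [Derivation.leibniz, pderiv_X]
      by_cases h : i = j
      · subst h; simp; ring
      · have h' : ¬ j = i := fun e => h e.symm
        simp [h, h', Pi.single_apply]; ring
    rw [Finset.sum_congr rfl (fun i _ => h2 i), Finset.sum_add_distrib, Finset.sum_mul]
    simp

theorem eval_aeval (γ : κ → Polynomial ℂ) (f : MvPolynomial κ ℂ) (t : ℂ) :
    (aeval γ f : Polynomial ℂ).eval t = eval (fun i => (γ i).eval t) f := by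
  have h : ((Polynomial.aeval t : Polynomial ℂ →ₐ[ℂ] ℂ).comp (aeval γ)) =
      (aeval (fun i => (γ i).eval t) : MvPolynomial κ ℂ →ₐ[ℂ] ℂ) := by
    apply MvPolynomial.algHom_ext
    intro i
    simp only [AlgHom.comp_apply, aeval_X]
    rfl
  have h2 := congrArg (fun φ => φ f) h
  simpa [aeval_eq_eval, Polynomial.aeval_def] using h2

/-- infinitesimal stability implies stability under `exp(tA)`. -/
theorem orb_mem_of_deriv {I : Ideal (MvPolynomial κ ℂ)} (hI : I.IsPrime) {A : Matrix κ κ ℂ} {m : ℕ}
    (hnil : A ^ (m + 1) = 0) (hD : ∀ f ∈ I, ∀ x ∈ cone I, dif f x ⬝ᵥ (A *ᵥ x) = 0)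
    {x : κ → ℂ} (hx : x ∈ cone I) (t : ℂ) : orb A m t x ∈ cone I := by
  let DA : MvPolynomial κ ℂ → MvPolynomial κ ℂ := fun f =>
    ∑ i, pderiv i f * ∑ k, C (A i k) * X k
  have hDA : ∀ f ∈ I, DA f ∈ I := by
    intro f hf
    apply mem_of_cone hI
    intro y hy
    rw [← hD f hf y hy]
    simp only [DA, map_sum, map_mul, eval_C, eval_X, dotProduct, dif, Matrix.mulVec]
  have hder : ∀ i, (orbP A m x i).derivative = ∑ k, Polynomial.C (A i k) * orbP A m x k := by
    intro i
    apply Polynomial.funext
    intro t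
    simp only [orbP, Polynomial.derivative_sum, Polynomial.derivative_C_mul_X_pow,
      Polynomial.eval_finsetSum, Polynomial.eval_mul, Polynomial.eval_C, Polynomial.eval_pow,
      Polynomial.eval_X, Finset.mul_sum]
    rw [Finset.sum_comm, Finset.sum_range_succ' , Finset.sum_range_succ]
    have h0 : ∑ k, A i k * ((A ^ m *ᵥ x) k / (m.factorial : ℂ) * t ^ m) = 0 := by
      have : ∑ k, A i k * ((A ^ m *ᵥ x) k / (m.factorial : ℂ) * t ^ m) =
          (A *ᵥ (A ^ m *ᵥ x)) i / (m.factorial : ℂ) * t ^ m := by
        conv_rhs => rw [Matrix.mulVec, dotProduct]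
        simp only [Finset.sum_div, Finset.sum_mul]
        refine Finset.sum_congr rfl fun k _ => ?_
        ring
      rw [this, Matrix.mulVec_mulVec, ← pow_succ', hnil, Matrix.zero_mulVec]
      simp
    rw [h0, add_zero]
    simp only [Nat.cast_zero, mul_zero, zero_mul, add_zero]
    refine Finset.sum_congr rfl fun j _ => ?_
    have h1 : ∑ k, A i k * ((A ^ j *ᵥ x) k / (j.factorial : ℂ) * t ^ j) =
        (A ^ (j + 1) *ᵥ x) i / (j.factorial : ℂ) * t ^ j := by
      rw [pow_succ', ← Matrix.mulVec_mulVec]
      conv_rhs => rw [Matrix.mulVec, dotProduct]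
      simp only [Finset.sum_div, Finset.sum_mul]
      refine Finset.sum_congr rfl fun k _ => ?_
      ring
    rw [h1, Nat.factorial_succ]
    have h2 : (j.factorial : ℂ) ≠ 0 := Nat.cast_ne_zero.2 (Nat.factorial_ne_zero j)
    have h3 : ((j + 1 : ℕ) : ℂ) ≠ 0 := Nat.cast_ne_zero.2 (Nat.succ_ne_zero j)
    rw [Nat.cast_mul, Nat.add_sub_cancel]
    field_simp
  have hd : ∀ f, (aeval (orbP A m x) f).derivative = aeval (orbP A m x) (DA f) := by
    intro f
    rw [derivative_aeval]
    simp only [DA, map_sum, map_mul, aeval_X, hder, MvPolynomial.aeval_C,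
      Polynomial.algebraMap_eq]
  have key : ∀ n : ℕ, ∀ f ∈ I, (aeval (orbP A m x) f).coeff n = 0 := by
    intro n
    induction n with
    | zero =>
      intro f hf
      rw [Polynomial.coeff_zero_eq_eval_zero, eval_aeval_orbP, orb_zero]
      exact hx f hf
    | succ n ih =>
      intro f hf
      have h1 := ih (DA f) (hDA f hf)
      rw [← hd, Polynomial.coeff_derivative] at h1
      have h2 : ((n : ℂ) + 1) ≠ 0 := by exact_mod_cast Nat.succ_ne_zero n
      exact (mul_eq_zero.1 h1).resolve_right h2
  intro f hf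
  have h1 : aeval (orbP A m x) f = 0 := by
    ext n
    rw [key n f hf, Polynomial.coeff_zero]
  rw [← eval_aeval_orbP, h1, Polynomial.eval_zero]

/-! ### the Jordan decomposition -/

/-- `binom(T, j)` as a polynomial. -/
noncomputable def binP (j : ℕ) : Polynomial ℂ :=
  Polynomial.C ((j.factorial : ℂ)⁻¹) * descPochhammer ℂ j

theorem eval_binP (j k : ℕ) : (binP j).eval (k : ℂ) = (k.choose j : ℂ) := by
  rw [binP, Polynomial.eval_mul, Polynomial.eval_C, descPochhammer_eval_eq_descFactorial,
    Nat.descFactorial_eq_factorial_mul_choose]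
  have h2 : (j.factorial : ℂ) ≠ 0 := Nat.cast_ne_zero.2 (Nat.factorial_ne_zero j)
  push_cast
  field_simp

theorem binP_zero : binP 0 = 1 := by simp [binP]

theorem binP_one : binP 1 = Polynomial.X := by simp [binP]

/-- eigenbasis of a semisimple map. -/
theorem exists_eigenbasis {s : Module.End ℂ (κ → ℂ)} (hs : s.IsSemisimple) :
    ∃ b : Module.Basis κ ℂ (κ → ℂ), ∃ a : κ → ℂ, ∀ i, s (b i) = a i • b i := by
  classical
  let eigenDecomp := DirectSum.isInternal_submodule_of_iSupIndep_of_iSup_eq_top
    s.eigenspaces_iSupIndep hs.iSup_eigenspace_eq_top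
  let J := (ν : ℂ) × Fin (Module.finrank ℂ (s.eigenspace ν))
  let v : Module.Basis J ℂ (κ → ℂ) :=
    eigenDecomp.collectedBasis fun μ => Module.finBasis ℂ (s.eigenspace μ)
  have hsv : ∀ i : J, s (v i) = i.1 • v i := fun i =>
    Module.End.mem_eigenspace_iff.mp (eigenDecomp.collectedBasis_mem _ i)
  let e : J ≃ κ := v.indexEquiv (Pi.basisFun ℂ κ)
  refine ⟨v.reindex e, fun i => (e.symm i).1, fun i => ?_⟩
  rw [Module.Basis.reindex_apply]
  exact hsv _

/-- either diagonalizable, or the cone is stable under a unipotent one-parameter group. -/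
theorem jordan_cases {I : Ideal (MvPolynomial κ ℂ)} (hI : I.IsPrime)
    (g : Module.End ℂ (κ → ℂ)) (hinj : Function.Injective g)
    (hstab : ∀ x ∈ cone I, g x ∈ cone I) :
    (∃ b : Module.Basis κ ℂ (κ → ℂ), ∃ a : κ → ℂ, ∀ i, g (b i) = a i • b i) ∨
    (∃ A : Matrix κ κ ℂ, ∃ m : ℕ, 1 ≤ m ∧ A ^ m ≠ 0 ∧ A ^ (m + 1) = 0 ∧
      ∀ x ∈ cone I, ∀ t : ℂ, orb A m t x ∈ cone I) := by
  classical
  obtain ⟨n, hn_adj, s, hns', hn_nil, hs_ss, hgns⟩ := g.exists_isNilpotent_isSemisimple
  have hns : Commute n s :=
    Algebra.commute_of_mem_adjoin_singleton_of_commute hns'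
      (Algebra.commute_of_mem_adjoin_self hn_adj).symm
  obtain ⟨b, a, hb⟩ := exists_eigenbasis hs_ss
  by_cases hn0 : n = 0
  · left
    refine ⟨b, a, fun i => ?_⟩
    rw [hgns, hn0, zero_add]
    exact hb i
  right
  obtain ⟨M, hM⟩ := hn_nil
  -- `s` is injective
  have hgn : Commute g n := by
    rw [hgns]
    exact (Commute.refl n).add_left hns.symm
  have hsinj : Function.Injective s := by
    rw [← LinearMap.ker_eq_bot, LinearMap.ker_eq_bot']
    intro x hx
    have h1 : g x = n x := by rw [hgns, LinearMap.add_apply, hx, add_zero]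
    have h2 : ∀ k : ℕ, (g ^ k) x = (n ^ k) x := by
      intro k
      induction k with
      | zero => rfl
      | succ k ih =>
        rw [pow_succ', Module.End.mul_apply, ih, pow_succ, Module.End.mul_apply, ← h1]
        have h3 := LinearMap.congr_fun (hgn.pow_right k).eq x
        simpa [Module.End.mul_apply] using h3
    have h3 := h2 M
    rw [hM, LinearMap.zero_apply] at h3
    have h4 : ∀ k : ℕ, (g ^ k) x = 0 → x = 0 := by
      intro k
      induction k with
      | zero => intro h; simpa using h
      | succ k ih =>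
        intro h
        rw [pow_succ', Module.End.mul_apply] at h
        exact ih (hinj (by rw [h, map_zero]))
    exact h4 M h3
  have ha : ∀ i, a i ≠ 0 := by
    intro i h0
    have h1 := hb i
    rw [h0, zero_smul] at h1
    exact b.ne_zero i (hsinj (by rw [h1, map_zero]))
  let se : (κ → ℂ) ≃ₗ[ℂ] (κ → ℂ) := LinearEquiv.ofInjectiveEndo s hsinj
  have hse : ∀ x, se x = s x := fun x => rfl
  let si : Module.End ℂ (κ → ℂ) := se.symm.toLinearMap
  have hsi1 : s * si = 1 := by
    ext1 x
    exact LinearMap.ext fun c => by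
      simp only [LinearMap.comp_apply, Module.End.mul_apply, Module.End.one_apply]
      exact se.apply_symm_apply _
  have hsi2 : si * s = 1 := by
    ext1 x
    exact LinearMap.ext fun c => by
      simp only [LinearMap.comp_apply, Module.End.mul_apply, Module.End.one_apply]
      exact se.symm_apply_apply _
  have hcsi : Commute n si := by
    change n * si = si * n
    calc n * si = (si * s) * (n * si) := by rw [hsi2, one_mul]
      _ = si * (s * n) * si := by simp only [mul_assoc]
      _ = si * (n * s) * si := by rw [hns.eq]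
      _ = si * n * (s * si) := by simp only [mul_assoc]
      _ = si * n := by rw [hsi1, mul_one]
  set ν : Module.End ℂ (κ → ℂ) := si * n with hν
  have hνM : ν ^ M = 0 := by rw [hν, hcsi.symm.mul_pow, hM, mul_zero]
  have hν0 : ν ≠ 0 := by
    intro h0
    apply hn0
    have : s * ν = n := by rw [hν, ← mul_assoc, hsi1, one_mul]
    rw [← this, h0, mul_zero]
  have hgs : g = s * (1 + ν) := by
    rw [mul_add, mul_one, hν, ← mul_assoc, hsi1, one_mul, add_comm]
    exact hgns
  have hsν : Commute s ν := by
    change s * (si * n) = si * n * s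
    rw [← mul_assoc, hsi1, one_mul, mul_assoc, hns.eq, ← mul_assoc, hsi2, one_mul]
  -- powers of `g`
  have hpow : ∀ k : ℕ, g ^ k = s ^ k * (1 + ν) ^ k := by
    intro k
    rw [hgs, ((Commute.one_right s).add_right hsν).mul_pow]
  have hbin : ∀ k : ℕ, (1 + ν) ^ k = ∑ j ∈ Finset.range M, (k.choose j : ℂ) • ν ^ j := by
    intro k
    rw [add_comm, (Commute.one_right ν).add_pow]
    simp only [one_pow, mul_one]
    have h1 : ∀ j, ν ^ j * (k.choose j : Module.End ℂ (κ → ℂ)) = (k.choose j : ℂ) • ν ^ j := by
      intro j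
      rw [← Nat.cast_comm, ← nsmul_eq_mul, Nat.cast_smul_eq_nsmul]
    simp only [h1]
    have h2 : ∑ j ∈ Finset.range (k + 1), (k.choose j : ℂ) • ν ^ j =
        ∑ j ∈ Finset.range (max (k + 1) M), (k.choose j : ℂ) • ν ^ j := by
      refine Finset.sum_subset (Finset.range_mono (le_max_left _ _)) ?_
      intro j _ hj
      rw [Nat.choose_eq_zero_of_lt (by simpa using hj), Nat.cast_zero, zero_smul]
    have h3 : ∑ j ∈ Finset.range M, (k.choose j : ℂ) • ν ^ j =
        ∑ j ∈ Finset.range (max (k + 1) M), (k.choose j : ℂ) • ν ^ j := by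
      refine Finset.sum_subset (Finset.range_mono (le_max_right _ _)) ?_
      intro j _ hj
      have : M ≤ j := by simpa using hj
      rw [pow_eq_zero_of_le this hνM, smul_zero]
    rw [h2, h3]
  have hcoord : ∀ (i : κ) (k : ℕ) (y : κ → ℂ), b.repr ((s ^ k) y) i = a i ^ k * b.repr y i := by
    intro i k y
    induction k with
    | zero => simp
    | succ k ih =>
      rw [pow_succ', Module.End.mul_apply]
      have h1 : ∀ z, b.repr (s z) i = a i * b.repr z i := by
        intro z
        conv_lhs => rw [← b.sum_repr z]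
        rw [map_sum, map_sum, Finsupp.finsetSum_apply]
        simp only [map_smul, hb, Finsupp.smul_apply, b.repr_self, smul_eq_mul]
        rw [Finset.sum_eq_single i]
        · simp; ring
        · intro j _ hj
          simp [Finsupp.single_apply, hj]
        · simp
      rw [h1, ih, pow_succ]
      ring
  have hgcoord : ∀ (i : κ) (k : ℕ) (x : κ → ℂ), b.repr ((g ^ k) x) i =
      a i ^ k * ∑ j ∈ Finset.range M, (k.choose j : ℂ) * b.repr ((ν ^ j) x) i := by
    intro i k x
    rw [hpow, Module.End.mul_apply, hcoord, hbin]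
    congr 1
    rw [LinearMap.sum_apply, map_sum, Finsupp.finsetSum_apply]
    simp only [LinearMap.smul_apply, map_smul, Finsupp.smul_apply, smul_eq_mul]
  -- the unipotent group with binomial coefficients
  have hu : ∀ x ∈ cone I, ∀ t : ℂ,
      ∑ j ∈ Finset.range M, (binP j).eval t • (ν ^ j) x ∈ cone I := by
    intro x hx t f hf
    let L : (κ → ℂ) →ₗ[ℂ] (κ → ℂ) := b.equivFun.symm.toLinearMap
    let q : κ → Polynomial ℂ := fun i =>
      ∑ j ∈ Finset.range M, Polynomial.C (b.repr ((ν ^ j) x) i) * binP j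
    have hq : ∀ i t, (q i).eval t = ∑ j ∈ Finset.range M, (binP j).eval t * b.repr ((ν ^ j) x) i := by
      intro i t
      simp only [q, Polynomial.eval_finsetSum, Polynomial.eval_mul, Polynomial.eval_C]
      refine Finset.sum_congr rfl fun j _ => mul_comm _ _
    have hgk : ∀ k : ℕ, (g ^ k) x ∈ cone I := by
      intro k
      induction k with
      | zero => simpa using hx
      | succ k ih =>
        rw [pow_succ', Module.End.mul_apply]
        exact hstab _ ih
    have h1 := eval_twist_zero (pull L f) a ha q (fun k => by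
      rw [eval_pull]
      have h2 : L (fun i => a i ^ k * (q i).eval (k : ℂ)) = (g ^ k) x := by
        change b.equivFun.symm _ = _
        rw [LinearEquiv.symm_apply_eq]
        funext i
        rw [Module.Basis.equivFun_apply, hgcoord, hq]
        simp only [eval_binP]
      rw [h2]
      exact hgk k f hf) t
    rw [eval_pull] at h1
    have h2 : L (fun i => (q i).eval t) =
        ∑ j ∈ Finset.range M, (binP j).eval t • (ν ^ j) x := by
      change b.equivFun.symm _ = _
      rw [LinearEquiv.symm_apply_eq]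
      funext i
      rw [Module.Basis.equivFun_apply, map_sum, Finsupp.finsetSum_apply, hq]
      simp only [map_smul, Finsupp.smul_apply, smul_eq_mul]
    rwa [h2] at h1
  -- the logarithm
  let c : ℕ → ℂ := fun j => (binP j).derivative.eval 0
  have hc0 : c 0 = 0 := by simp [c, binP_zero]
  have hc1 : c 1 = 1 := by simp [c, binP_one]
  let AL : Module.End ℂ (κ → ℂ) := ∑ j ∈ Finset.range M, c j • ν ^ j
  obtain ⟨w, hw⟩ : ∃ w : Module.End ℂ (κ → ℂ), AL = ν * w ∧ Commute ν w := by
    refine ⟨∑ j ∈ Finset.range (M - 1), c (j + 1) • ν ^ j, ?_, ?_⟩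
    · simp only [AL]
      rcases Nat.eq_zero_or_pos M with hM0 | hM0
      · rw [hM0]
        simp
      · obtain ⟨M', rfl⟩ := Nat.exists_eq_succ_of_ne_zero (by omega : M ≠ 0)
        rw [Finset.sum_range_succ', hc0, zero_smul, add_zero, Finset.mul_sum]
        simp only [Nat.succ_eq_add_one, Nat.add_sub_cancel]
        refine Finset.sum_congr rfl fun j _ => ?_
        rw [mul_smul_comm, ← pow_succ']
    · exact Commute.sum_right _ _ _ fun j _ => ((Commute.refl ν).pow_right j).smul_right _
  have hALnil : AL ^ M = 0 := by rw [hw.1, hw.2.mul_pow, hνM, zero_mul]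
  have hAL0 : AL ≠ 0 := by
    -- the largest nonvanishing power of `ν`
    intro h0
    obtain ⟨e, he, he1⟩ : ∃ e : ℕ, ν ^ (e + 1) ≠ 0 ∧ ν ^ (e + 2) = 0 := by
      have hex : ∃ k, ν ^ k = 0 := ⟨M, hνM⟩
      have h1 := Nat.find_spec hex
      have h2 : 2 ≤ Nat.find hex := by
        by_contra hlt
        have h3 : Nat.find hex = 0 ∨ Nat.find hex = 1 := by omega
        rcases h3 with h3 | h3
        · rw [h3, pow_zero] at h1
          apply hν0
          rw [← mul_one ν, h1, mul_zero]
        · rw [h3, pow_one] at h1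
          exact hν0 h1
      refine ⟨Nat.find hex - 2, ?_, ?_⟩
      · intro h4
        exact Nat.find_min hex (m := Nat.find hex - 2 + 1) (by omega) h4
      · have : Nat.find hex - 2 + 2 = Nat.find hex := by omega
        rw [this]; exact h1
    have h1 : ν ^ e * AL = ν ^ (e + 1) := by
      simp only [AL, Finset.mul_sum]
      rw [Finset.sum_eq_single 1]
      · rw [hc1, one_smul, pow_one, ← pow_succ]
      · intro j _ hj
        rcases Nat.lt_or_ge j 1 with hj1 | hj1
        · have : j = 0 := by omega
          rw [this, hc0, zero_smul, mul_zero]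
        · rw [mul_smul_comm, ← pow_add, pow_eq_zero_of_le (by omega : e + 2 ≤ e + j) he1, smul_zero]
      · intro h2
        have h3 : M ≤ 1 := by simpa using h2
        exact absurd (pow_eq_zero_of_le (by omega : M ≤ e + 1) hνM) he
    rw [h0, mul_zero] at h1
    exact he h1.symm
  let A : Matrix κ κ ℂ := LinearMap.toMatrix' AL
  have hAmul : ∀ x, A *ᵥ x = AL x := fun x => LinearMap.toMatrix'_mulVec AL x
  have hA0 : A ≠ 0 := by
    intro h0
    apply hAL0
    exact (LinearMap.toMatrix' (R := ℂ) (n := κ) (m := κ)).map_eq_zero_iff.1 h0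
  have hApow : ∀ k : ℕ, A ^ k = LinearMap.toMatrix' (AL ^ k) := by
    intro k
    induction k with
    | zero => simp
    | succ k ih =>
      rw [pow_succ, ih, pow_succ]
      exact (LinearMap.toMatrix'_mul _ _).symm
  have hAM : A ^ M = 0 := by rw [hApow, hALnil, map_zero]
  obtain ⟨m, hm1, hm2, hm3⟩ : ∃ m : ℕ, 1 ≤ m ∧ A ^ m ≠ 0 ∧ A ^ (m + 1) = 0 := by
    have hex : ∃ k, A ^ k = 0 := ⟨M, hAM⟩
    have h1 := Nat.find_spec hex
    have h2 : 2 ≤ Nat.find hex := by
      by_contra hlt
      have h3 : Nat.find hex = 0 ∨ Nat.find hex = 1 := by omega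
      rcases h3 with h3 | h3
      · rw [h3, pow_zero] at h1
        apply hA0
        rw [← mul_one A, h1, mul_zero]
      · rw [h3, pow_one] at h1
        exact hA0 h1
    refine ⟨Nat.find hex - 1, by omega, ?_, ?_⟩
    · intro h4
      exact Nat.find_min hex (m := Nat.find hex - 1) (by omega) h4
    · have : Nat.find hex - 1 + 1 = Nat.find hex := by omega
      rw [this]; exact h1
  refine ⟨A, m, hm1, hm2, hm3, fun x hx t => orb_mem_of_deriv hI hm3 ?_ hx t⟩
  intro f hf y hy
  -- differentiate `f (u(t) y) = 0` at `0`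
  let γ : κ → Polynomial ℂ := fun i => ∑ j ∈ Finset.range M, Polynomial.C ((ν ^ j) y i) * binP j
  have hγ : ∀ t, (fun i => (γ i).eval t) = ∑ j ∈ Finset.range M, (binP j).eval t • (ν ^ j) y := by
    intro t
    funext i
    simp only [γ, Polynomial.eval_finsetSum, Polynomial.eval_mul, Polynomial.eval_C,
      Finset.sum_apply, Pi.smul_apply, smul_eq_mul]
    refine Finset.sum_congr rfl fun j _ => mul_comm _ _
  have h1 : aeval γ f = 0 := by
    apply Polynomial.funext
    intro t
    rw [eval_aeval, hγ, Polynomial.eval_zero]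
    exact hu y hy t f hf
  have hM1 : 1 ≤ M := by
    by_contra hlt
    have : M = 0 := by omega
    rw [this, pow_zero] at hνM
    apply hν0
    rw [← mul_one ν, hνM, mul_zero]
  have hb0 : ∀ j, (binP j).eval 0 = if j = 0 then 1 else 0 := by
    intro j
    have := eval_binP j 0
    rw [Nat.cast_zero] at this
    rw [this]
    split_ifs with hj
    · rw [hj]; simp
    · rw [Nat.choose_eq_zero_of_lt (by omega)]; simp
  have hγ0 : (fun i => (γ i).eval 0) = y := by
    rw [hγ, Finset.sum_eq_single 0]
    · rw [hb0, if_pos rfl, one_smul, pow_zero]; rfl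
    · intro j _ hj
      rw [hb0, if_neg hj, zero_smul]
    · intro h2
      exact absurd (Finset.mem_range.2 (by omega)) h2
  have h2 := congrArg (fun p => (Polynomial.derivative p).eval 0) h1
  simp only [derivative_aeval, Polynomial.derivative_zero, Polynomial.eval_zero,
    Polynomial.eval_finsetSum, Polynomial.eval_mul, eval_aeval] at h2
  rw [hγ0] at h2
  have h3 : ∀ i, (γ i).derivative.eval 0 = (A *ᵥ y) i := by
    intro i
    rw [hAmul]
    simp only [γ, AL, Polynomial.derivative_sum, Polynomial.derivative_C_mul,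
      Polynomial.eval_finsetSum, Polynomial.eval_mul, Polynomial.eval_C, LinearMap.sum_apply,
      LinearMap.smul_apply, Finset.sum_apply, Pi.smul_apply, smul_eq_mul, c]
    refine Finset.sum_congr rfl fun j _ => mul_comm _ _
  simp only [h3] at h2
  exact h2

end H12.Uni
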