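import Pool.Agent.H12.Uni.Defs

/-! Linear algebra of a matrix and its transpose. -/

open MvPolynomial Matrix H89.Hart

set_option linter.unusedSectionVars false

namespace H12.Uni

variable {ι : Type*} [Fintype ι] [DecidableEq ι]

theorem mem_kerA {A : Matrix ι ι ℂ} {j : ℕ} {v : ι → ℂ} : v ∈ kerA A j ↔ A ^ j *ᵥ v = 0 := by
  rw [kerA, LinearMap.mem_ker, Matrix.mulVecLin_apply]

theorem mem_imA {A : Matrix ι ι ℂ} {j : ℕ} {w : ι → ℂ} : w ∈ imA A j ↔ ∃ v, A ^ j *ᵥ v = w := by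
  rw [imA, LinearMap.mem_range]
  rfl

theorem mem_kerB {A : Matrix ι ι ℂ} {j : ℕ} {s : ι → ℂ} : s ∈ kerB A j ↔ s ᵥ* A ^ j = 0 := by
  rw [kerB, LinearMap.mem_ker, Matrix.vecMulLinear_apply]

theorem mem_imB {A : Matrix ι ι ℂ} {j : ℕ} {s : ι → ℂ} : s ∈ imB A j ↔ ∃ u, u ᵥ* A ^ j = s := by
  rw [imB, LinearMap.mem_range]
  rfl

/-- a linear form vanishing on all common zeros of the forms in `W` lies in `W`. -/
theorem mem_of_perp (W : Submodule ℂ (ι → ℂ)) {s : ι → ℂ}
    (h : ∀ v, (∀ w ∈ W, w ⬝ᵥ v = 0) → s ⬝ᵥ v = 0) : s ∈ W := by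
  by_contra hs
  obtain ⟨f, hf, hle⟩ := Submodule.exists_le_ker_of_notMem hs
  apply hf
  have hf' : ∀ v : ι → ℂ, f v = v ⬝ᵥ (fun k => f (Pi.single k 1)) := by
    intro v
    have : v = ∑ k, v k • (Pi.single k (1 : ℂ) : ι → ℂ) := by
      funext m; simp [Finset.sum_apply, Pi.single_apply]
    conv_lhs => rw [this, map_sum]
    simp [dotProduct]
  rw [hf']
  apply h
  intro w hw
  rw [← hf']
  exact LinearMap.mem_ker.1 (hle hw)

theorem mem_of_perp' (W : Submodule ℂ (ι → ℂ)) {v : ι → ℂ}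
    (h : ∀ s, (∀ w ∈ W, s ⬝ᵥ w = 0) → s ⬝ᵥ v = 0) : v ∈ W := by
  refine mem_of_perp W fun s hs => ?_
  rw [dotProduct_comm]
  exact h s fun w hw => by rw [dotProduct_comm]; exact hs w hw

theorem mem_imB_iff {A : Matrix ι ι ℂ} {j : ℕ} {s : ι → ℂ} :
    s ∈ imB A j ↔ ∀ v, A ^ j *ᵥ v = 0 → s ⬝ᵥ v = 0 := by
  constructor
  · intro hs v hv
    obtain ⟨u, rfl⟩ := mem_imB.1 hs
    rw [← dotProduct_mulVec, hv, dotProduct_zero]
  · intro h
    refine mem_of_perp _ fun v hv => h v ?_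
    rw [← dotProduct_eq_zero_iff]
    intro u
    rw [dotProduct_comm, dotProduct_mulVec]
    exact hv _ (mem_imB.2 ⟨u, rfl⟩)

theorem mem_imA_iff {A : Matrix ι ι ℂ} {j : ℕ} {w : ι → ℂ} :
    w ∈ imA A j ↔ ∀ s, s ᵥ* A ^ j = 0 → s ⬝ᵥ w = 0 := by
  constructor
  · intro hs v hv
    obtain ⟨u, rfl⟩ := mem_imA.1 hs
    rw [dotProduct_mulVec, hv, zero_dotProduct]
  · intro h
    refine mem_of_perp' _ fun s hs => h s ?_
    rw [← dotProduct_eq_zero_iff]
    intro u
    rw [← dotProduct_mulVec]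
    exact hs _ (mem_imA.2 ⟨u, rfl⟩)

theorem finrank_imA (A : Matrix ι ι ℂ) (j : ℕ) : Module.finrank ℂ (imA A j) = rk A j := rfl

theorem finrank_imB (A : Matrix ι ι ℂ) (j : ℕ) : Module.finrank ℂ (imB A j) = rk A j := by
  have h : imB A j = LinearMap.range ((A ^ j)ᵀ).mulVecLin := by
    ext s
    rw [mem_imB, LinearMap.mem_range]
    refine exists_congr fun u => ?_
    rw [Matrix.mulVecLin_apply, Matrix.mulVec_transpose]
  rw [h, rk, ← Matrix.rank_transpose]
  rfl

theorem finrank_kerA (A : Matrix ι ι ℂ) (j : ℕ) :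
    Module.finrank ℂ (kerA A j) + rk A j = Fintype.card ι := by
  have := LinearMap.finrank_range_add_finrank_ker (A ^ j).mulVecLin
  rw [Module.finrank_fintype_fun_eq_card] at this
  rw [← finrank_imA, add_comm]
  exact this

theorem finrank_kerB (A : Matrix ι ι ℂ) (j : ℕ) :
    Module.finrank ℂ (kerB A j) + rk A j = Fintype.card ι := by
  have := LinearMap.finrank_range_add_finrank_ker (A ^ j).vecMulLinear
  rw [Module.finrank_fintype_fun_eq_card] at this
  rw [← finrank_imB, add_comm]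
  exact this

/-- annihilators have complementary dimension. -/
theorem finrank_perp (W : Submodule ℂ (ι → ℂ)) (Z : Submodule ℂ (ι → ℂ))
    (hZ : ∀ v, v ∈ Z ↔ ∀ w ∈ W, w ⬝ᵥ v = 0) :
    Module.finrank ℂ Z + Module.finrank ℂ W = Fintype.card ι := by
  classical
  let b := Module.finBasis ℂ W
  let M : Matrix (Fin (Module.finrank ℂ W)) ι ℂ := Matrix.of fun i => (b i : ι → ℂ)
  have hker : LinearMap.ker M.mulVecLin = Z := by
    ext v
    rw [LinearMap.mem_ker, Matrix.mulVecLin_apply, hZ]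
    constructor
    · intro h w hw
      have h1 : w = ∑ i, b.repr ⟨w, hw⟩ i • (b i : ι → ℂ) := by
        have := congrArg (Submodule.subtype W) (b.sum_repr ⟨w, hw⟩)
        rw [map_sum] at this
        simpa using this.symm
      rw [h1, sum_dotProduct]
      refine Finset.sum_eq_zero fun i _ => ?_
      have h2 := congrFun h i
      rw [smul_dotProduct]
      have h3 : (b i : ι → ℂ) ⬝ᵥ v = 0 := h2
      rw [h3, smul_zero]
    · intro h
      funext i
      exact h _ (b i).2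
  have hli : LinearIndependent ℂ M.row := by
    have := b.linearIndependent.map' W.subtype W.ker_subtype
    exact this
  have hrank : M.rank = Module.finrank ℂ W := by
    have := hli.rank_matrix
    rwa [Fintype.card_fin] at this
  have := LinearMap.finrank_range_add_finrank_ker M.mulVecLin
  rw [Module.finrank_fintype_fun_eq_card, hker] at this
  have h4 : Module.finrank ℂ (LinearMap.range M.mulVecLin) = Module.finrank ℂ W := hrank
  omega

theorem mem_T {I : Ideal (MvPolynomial ι ℂ)} {x v : ι → ℂ} :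
    v ∈ T I x ↔ ∀ s ∈ N I x, s ⬝ᵥ v = 0 := Iff.rfl

theorem finrank_T {I : Ideal (MvPolynomial ι ℂ)} {r : ℕ} (hI : Smooth I r) {x : ι → ℂ}
    (hx : x ∈ cone I) (hx0 : x ≠ 0) : Module.finrank ℂ (T I x) + r = Fintype.card ι := by
  rw [← hI.rank x hx hx0]
  exact finrank_perp _ _ fun _ => mem_T

theorem mem_N_iff_T {I : Ideal (MvPolynomial ι ℂ)} {x s : ι → ℂ} :
    s ∈ N I x ↔ ∀ v ∈ T I x, s ⬝ᵥ v = 0 :=
  ⟨fun hs v hv => hv s hs, fun h => mem_of_perp _ fun v hv => h v hv⟩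

end H12.Uni
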