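import Pool.Agent.H12.Uni.Lin

/-! The one-parameter group, its orbits and their limits. -/

open MvPolynomial Matrix H89.Hart Filter Topology

set_option linter.unusedSectionVars false

namespace H12.Uni

variable {ι : Type*} [Fintype ι] [DecidableEq ι]

/-! ### pull back of differentials -/

theorem dif_eq_of_ln {κ : Type*} [Fintype κ] [DecidableEq κ] {f : MvPolynomial ι ℂ}
    {g : MvPolynomial κ ℂ} {L : (κ → ℂ) →ₗ[ℂ] (ι → ℂ)} (h : ∀ u, eval u g = eval (L u) f)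
    (u v : κ → ℂ) : dif g u ⬝ᵥ v = dif f (L u) ⬝ᵥ L v := by
  rw [← coeff_one_ln, ← coeff_one_ln]
  congr 1
  apply Polynomial.funext
  intro t
  rw [eval_ln, eval_ln, h, map_add, map_smul]

theorem dif_pull {κ : Type*} [Fintype κ] [DecidableEq κ] (L : (κ → ℂ) →ₗ[ℂ] (ι → ℂ))
    (f : MvPolynomial ι ℂ) (u v : κ → ℂ) :
    dif (Pool.Agent.H25.Hart.pull L f) u ⬝ᵥ v = dif f (L u) ⬝ᵥ L v :=
  dif_eq_of_ln (Pool.Agent.H25.Hart.eval_pull L · f) u v

/-! ### the matrices `exp(tA)` -/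

/-- `exp(tA)` as a matrix. -/
noncomputable def ex (A : Matrix ι ι ℂ) (m : ℕ) (t : ℂ) : Matrix ι ι ℂ :=
  ∑ i ∈ Finset.range (m + 1), (t ^ i / (i.factorial : ℂ)) • A ^ i

theorem ex_mulVec (A : Matrix ι ι ℂ) (m : ℕ) (t : ℂ) (x : ι → ℂ) :
    ex A m t *ᵥ x = orb A m t x := by
  rw [ex, orb, Matrix.sum_mulVec]
  refine Finset.sum_congr rfl fun i _ => ?_
  rw [Matrix.smul_mulVec]

theorem vecMul_ex (A : Matrix ι ι ℂ) (m : ℕ) (t : ℂ) (s : ι → ℂ) :
    s ᵥ* ex A m t = orbB A m t s := by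
  rw [ex, orbB, Matrix.vecMul_sum]
  refine Finset.sum_congr rfl fun i _ => ?_
  rw [Matrix.vecMul_smul]

theorem smul_nil {A : Matrix ι ι ℂ} {m : ℕ} (hA : A ^ (m + 1) = 0) (t : ℂ) :
    (t • A) ^ (m + 1) = 0 := by
  rw [smul_pow, hA, smul_zero]

theorem ex_eq_exp {A : Matrix ι ι ℂ} {m : ℕ} (hA : A ^ (m + 1) = 0) (t : ℂ) :
    ex A m t = IsNilpotent.exp (t • A) := by
  rw [IsNilpotent.exp_eq_sum (smul_nil hA t), ex]
  refine Finset.sum_congr rfl fun i _ => ?_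
  rw [smul_pow, ← Rat.cast_smul_eq_qsmul ℂ, smul_smul]
  congr 1
  push_cast
  rw [div_eq_mul_inv, mul_comm]

theorem ex_add {A : Matrix ι ι ℂ} {m : ℕ} (hA : A ^ (m + 1) = 0) (t u : ℂ) :
    ex A m (t + u) = ex A m t * ex A m u := by
  rw [ex_eq_exp hA, ex_eq_exp hA, ex_eq_exp hA, add_smul]
  exact IsNilpotent.exp_add_of_commute (((Commute.refl A).smul_right u).smul_left t)
    ⟨m + 1, smul_nil hA t⟩ ⟨m + 1, smul_nil hA u⟩

theorem ex_zero (A : Matrix ι ι ℂ) (m : ℕ) : ex A m 0 = 1 := by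
  rw [ex, Finset.sum_eq_single 0]
  · simp
  · intro i _ hi
    rw [zero_pow hi, zero_div, zero_smul]
  · simp

theorem ex_neg_mul {A : Matrix ι ι ℂ} {m : ℕ} (hA : A ^ (m + 1) = 0) (t : ℂ) :
    ex A m (-t) * ex A m t = 1 := by
  rw [← ex_add hA, neg_add_cancel, ex_zero]

theorem ex_mul_neg {A : Matrix ι ι ℂ} {m : ℕ} (hA : A ^ (m + 1) = 0) (t : ℂ) :
    ex A m t * ex A m (-t) = 1 := by
  rw [← ex_add hA, add_neg_cancel, ex_zero]

theorem orb_time_add {A : Matrix ι ι ℂ} {m : ℕ} (hA : A ^ (m + 1) = 0) (t u : ℂ) (x : ι → ℂ) :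
    orb A m (t + u) x = orb A m t (orb A m u x) := by
  rw [← ex_mulVec, ← ex_mulVec, ← ex_mulVec, ex_add hA, Matrix.mulVec_mulVec]

theorem orb_neg_orb {A : Matrix ι ι ℂ} {m : ℕ} (hA : A ^ (m + 1) = 0) (t : ℂ) (x : ι → ℂ) :
    orb A m (-t) (orb A m t x) = x := by
  rw [← ex_mulVec, ← ex_mulVec, Matrix.mulVec_mulVec, ex_neg_mul hA, Matrix.one_mulVec]

theorem orb_orb_neg {A : Matrix ι ι ℂ} {m : ℕ} (hA : A ^ (m + 1) = 0) (t : ℂ) (x : ι → ℂ) :
    orb A m t (orb A m (-t) x) = x := by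
  rw [← ex_mulVec, ← ex_mulVec, Matrix.mulVec_mulVec, ex_mul_neg hA, Matrix.one_mulVec]

theorem orb_ne_zero {A : Matrix ι ι ℂ} {m : ℕ} (hA : A ^ (m + 1) = 0) (t : ℂ) {x : ι → ℂ}
    (hx : x ≠ 0) : orb A m t x ≠ 0 := by
  intro h
  apply hx
  rw [← orb_neg_orb hA t x, h, ← ex_mulVec, Matrix.mulVec_zero]

theorem orbB_dot (A : Matrix ι ι ℂ) (m : ℕ) (t : ℂ) (s v : ι → ℂ) :
    orbB A m t s ⬝ᵥ v = s ⬝ᵥ orb A m t v := by
  rw [← vecMul_ex, ← ex_mulVec, dotProduct_mulVec]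

theorem orb_zero (A : Matrix ι ι ℂ) (m : ℕ) (x : ι → ℂ) : orb A m 0 x = x := by
  rw [← ex_mulVec, ex_zero, Matrix.one_mulVec]

theorem orbB_zero (A : Matrix ι ι ℂ) (m : ℕ) (x : ι → ℂ) : orbB A m 0 x = x := by
  rw [← vecMul_ex, ex_zero, Matrix.vecMul_one]

/-! ### limits -/

theorem tendsto_coef {α : Type*} {F : Filter α} {t : α → ℂ}
    (ht : Tendsto t F (Bornology.cobounded ℂ)) {i m : ℕ} (h : i ≤ m) :
    Tendsto (fun a => ((t a) ^ m)⁻¹ * (t a ^ i / (i.factorial : ℂ))) F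
      (𝓝 (if i = m then (m.factorial : ℂ)⁻¹ else 0)) := by
  have hne : ∀ᶠ a in F, t a ≠ 0 := by
    have : ∀ᶠ z in Bornology.cobounded ℂ, z ≠ 0 := Bornology.eventually_ne_cobounded 0
    exact ht.eventually this
  by_cases him : i = m
  · subst him
    rw [if_pos rfl]
    refine tendsto_const_nhds.congr' ?_
    filter_upwards [hne] with a ha
    have := pow_ne_zero i ha
    field_simp
  · rw [if_neg him]
    have h1 : Tendsto (fun a => (t a)⁻¹) F (𝓝 0) := tendsto_inv₀_cobounded.comp ht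
    have h2 : Tendsto (fun a => ((t a)⁻¹) ^ (m - i) * (i.factorial : ℂ)⁻¹) F
        (𝓝 (0 ^ (m - i) * (i.factorial : ℂ)⁻¹)) := (h1.pow (m - i)).mul_const _
    have h3 : m - i ≠ 0 := by omega
    rw [zero_pow h3, zero_mul] at h2
    refine h2.congr' ?_
    filter_upwards [hne] with a ha
    have h4 : t a ^ m = t a ^ i * t a ^ (m - i) := by rw [← pow_add]; congr 1; omega
    have h5 := pow_ne_zero i ha
    have h6 := pow_ne_zero (m - i) ha
    rw [h4, inv_pow]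
    field_simp

theorem tendsto_orb_aux {A : Matrix ι ι ℂ} {m : ℕ} {α : Type*} {F : Filter α}
    {t : α → ℂ} {v : α → ι → ℂ} {v₀ : ι → ℂ} (ht : Tendsto t F (Bornology.cobounded ℂ))
    (hv : Tendsto v F (𝓝 v₀)) :
    Tendsto (fun a => ((t a) ^ m)⁻¹ • orb A m (t a) (v a)) F
      (𝓝 ((m.factorial : ℂ)⁻¹ • (A ^ m *ᵥ v₀))) := by
  have h1 : ∀ i ∈ Finset.range (m + 1), Tendsto (fun a => (((t a) ^ m)⁻¹ *
      (t a ^ i / (i.factorial : ℂ))) • (A ^ i *ᵥ v a)) F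
      (𝓝 ((if i = m then (m.factorial : ℂ)⁻¹ else 0) • (A ^ i *ᵥ v₀))) := by
    intro i hi
    have h2 : Tendsto (fun a => A ^ i *ᵥ v a) F (𝓝 (A ^ i *ᵥ v₀)) :=
      ((continuous_const.matrix_mulVec continuous_id).tendsto v₀).comp hv
    exact (tendsto_coef ht (by have := Finset.mem_range.1 hi; omega)).smul h2
  have h2 := tendsto_finsetSum (Finset.range (m + 1)) h1
  have h3 : ∑ i ∈ Finset.range (m + 1), (if i = m then (m.factorial : ℂ)⁻¹ else 0) •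
      (A ^ i *ᵥ v₀) = (m.factorial : ℂ)⁻¹ • (A ^ m *ᵥ v₀) := by
    rw [Finset.sum_eq_single m]
    · rw [if_pos rfl]
    · intro i _ hi
      rw [if_neg hi, zero_smul]
    · intro hm
      exact absurd (Finset.mem_range.2 (Nat.lt_succ_self m)) hm
  rw [h3] at h2
  refine h2.congr fun a => ?_
  rw [orb, Finset.smul_sum]
  refine Finset.sum_congr rfl fun i _ => ?_
  rw [smul_smul]

theorem orbB_eq_orb (A : Matrix ι ι ℂ) (m : ℕ) (t : ℂ) (s : ι → ℂ) :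
    orbB A m t s = orb Aᵀ m t s := by
  rw [orb, orbB]
  refine Finset.sum_congr rfl fun i _ => ?_
  rw [← Matrix.transpose_pow, Matrix.mulVec_transpose]

theorem tendsto_orbB_aux {A : Matrix ι ι ℂ} {m : ℕ} {α : Type*} {F : Filter α}
    {t : α → ℂ} {v : α → ι → ℂ} {v₀ : ι → ℂ} (ht : Tendsto t F (Bornology.cobounded ℂ))
    (hv : Tendsto v F (𝓝 v₀)) :
    Tendsto (fun a => ((t a) ^ m)⁻¹ • orbB A m (t a) (v a)) F
      (𝓝 ((m.factorial : ℂ)⁻¹ • (v₀ ᵥ* A ^ m))) := by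
  have := tendsto_orb_aux (A := Aᵀ) (m := m) ht hv
  rw [← Matrix.transpose_pow, Matrix.mulVec_transpose] at this
  simpa only [orbB_eq_orb] using this

theorem tendsto_orb {A : Matrix ι ι ℂ} {m : ℕ} (_hA : A ^ (m + 1) = 0) {α : Type*} {F : Filter α}
    {t : α → ℂ} {v : α → ι → ℂ} {v₀ : ι → ℂ} (ht : Tendsto t F (Bornology.cobounded ℂ))
    (hv : Tendsto v F (𝓝 v₀)) :
    Tendsto (fun a => ((t a) ^ m)⁻¹ • orb A m (t a) (v a)) F
      (𝓝 ((m.factorial : ℂ)⁻¹ • (A ^ m *ᵥ v₀))) := tendsto_orb_aux ht hv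

theorem tendsto_orbB {A : Matrix ι ι ℂ} {m : ℕ} (_hA : A ^ (m + 1) = 0) {α : Type*} {F : Filter α}
    {t : α → ℂ} {v : α → ι → ℂ} {v₀ : ι → ℂ} (ht : Tendsto t F (Bornology.cobounded ℂ))
    (hv : Tendsto v F (𝓝 v₀)) :
    Tendsto (fun a => ((t a) ^ m)⁻¹ • orbB A m (t a) (v a)) F
      (𝓝 ((m.factorial : ℂ)⁻¹ • (v₀ ᵥ* A ^ m))) := tendsto_orbB_aux ht hv

theorem pow_mulVec_zero {A : Matrix ι ι ℂ} {e i : ℕ} {v : ι → ℂ} (hv : A ^ e *ᵥ v = 0)
    (h : e ≤ i) : A ^ i *ᵥ v = 0 := by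
  obtain ⟨d, rfl⟩ := Nat.exists_eq_add_of_le h
  rw [add_comm, pow_add, ← Matrix.mulVec_mulVec, hv, Matrix.mulVec_zero]

theorem vecMul_pow_zero {A : Matrix ι ι ℂ} {e i : ℕ} {v : ι → ℂ} (hv : v ᵥ* A ^ e = 0)
    (h : e ≤ i) : v ᵥ* A ^ i = 0 := by
  obtain ⟨d, rfl⟩ := Nat.exists_eq_add_of_le h
  rw [pow_add, ← Matrix.vecMul_vecMul, hv, Matrix.zero_vecMul]

/-- a vector killed by `A ^ (e + 1)`. -/
theorem orb_of_pow {A : Matrix ι ι ℂ} {m e : ℕ} (hem : e ≤ m) {v : ι → ℂ}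
    (hv : A ^ (e + 1) *ᵥ v = 0) (t : ℂ) : orb A m t v = orb A e t v := by
  rw [orb, orb]
  refine (Finset.sum_subset (Finset.range_mono (by omega)) ?_).symm
  intro i _ hi
  rw [pow_mulVec_zero hv (by simpa using hi), smul_zero]

theorem orbB_of_pow {A : Matrix ι ι ℂ} {m e : ℕ} (hem : e ≤ m) {v : ι → ℂ}
    (hv : v ᵥ* A ^ (e + 1) = 0) (t : ℂ) : orbB A m t v = orbB A e t v := by
  rw [orbB, orbB]
  refine (Finset.sum_subset (Finset.range_mono (by omega)) ?_).symm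
  intro i _ hi
  rw [vecMul_pow_zero hv (by simpa using hi), smul_zero]

theorem tendsto_orb_fixed {A : Matrix ι ι ℂ} {m e : ℕ} (hem : e ≤ m) {v : ι → ℂ}
    (hv : A ^ (e + 1) *ᵥ v = 0) {α : Type*} {F : Filter α} {t : α → ℂ}
    (ht : Tendsto t F (Bornology.cobounded ℂ)) :
    Tendsto (fun a => ((t a) ^ e)⁻¹ • orb A m (t a) v) F
      (𝓝 ((e.factorial : ℂ)⁻¹ • (A ^ e *ᵥ v))) := by
  simp only [orb_of_pow hem hv]
  exact tendsto_orb_aux ht tendsto_const_nhds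

theorem tendsto_orbB_fixed {A : Matrix ι ι ℂ} {m e : ℕ} (hem : e ≤ m) {v : ι → ℂ}
    (hv : v ᵥ* A ^ (e + 1) = 0) {α : Type*} {F : Filter α} {t : α → ℂ}
    (ht : Tendsto t F (Bornology.cobounded ℂ)) :
    Tendsto (fun a => ((t a) ^ e)⁻¹ • orbB A m (t a) v) F
      (𝓝 ((e.factorial : ℂ)⁻¹ • (v ᵥ* A ^ e))) := by
  simp only [orbB_of_pow hem hv]
  exact tendsto_orbB_aux ht tendsto_const_nhds

section U

variable {I : Ideal (MvPolynomial ι ℂ)} {r : ℕ} {A : Matrix ι ι ℂ} {m : ℕ}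

/-- conormal spaces along the orbits: `exp(-tB)s ∈ N_{exp(tA)x}`. -/
theorem UniSetup.orbB_mem (U : UniSetup I r A m) {x s : ι → ℂ} (_hx : x ∈ cone I)
    (hs : s ∈ N I x) (t : ℂ) :
    orbB A m (-t) s ∈ N I (orb A m t x) := by
  obtain ⟨f, hf, rfl⟩ := mem_N.1 hs
  let L : (ι → ℂ) →ₗ[ℂ] (ι → ℂ) := (ex A m (-t)).mulVecLin
  have hL : ∀ y, L y = orb A m (-t) y := fun y => by
    rw [← ex_mulVec]; rfl
  refine mem_N.2 ⟨Pool.Agent.H25.Hart.pull L f, ?_, ?_⟩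
  · apply mem_of_cone U.smooth.prime
    intro y hy
    rw [Pool.Agent.H25.Hart.eval_pull, hL]
    exact U.stab y hy (-t) f hf
  · refine dotProduct_eq _ _ fun v => ?_
    rw [dif_pull, hL, hL, orb_neg_orb U.nil, orbB_dot]

theorem UniSetup.zero_mem (U : UniSetup I r A m) : (0 : ι → ℂ) ∈ cone I := by
  have h : ∃ x ∈ cone I, x ≠ 0 := by
    by_contra hcon
    push Not at hcon
    have hs := U.nd (fun _ => 1) (fun x hx => by rw [hcon x hx, dotProduct_zero])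
    have hc := U.card_gt
    obtain ⟨i⟩ : Nonempty ι := Fintype.card_pos_iff.1 (by omega)
    exact one_ne_zero (congrFun hs i)
  obtain ⟨x, hx, -⟩ := h
  have := smul_mem_cone U.smooth hx 0
  rwa [zero_smul] at this

/-- limits of points of orbits. -/
theorem UniSetup.cl_cone (U : UniSetup I r A m) {x : ι → ℂ} (hx : x ∈ cone I) {a : ℕ}
    (ha' : A ^ (a + 1) *ᵥ x = 0) : A ^ a *ᵥ x ∈ cone I := by
  by_cases ham : a ≤ m
  · have ht : Tendsto (fun n : ℂ => n) (Bornology.cobounded ℂ) (Bornology.cobounded ℂ) :=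
      tendsto_id
    have h1 := tendsto_orb_fixed ham ha' ht
    have h2 : (a.factorial : ℂ)⁻¹ • (A ^ a *ᵥ x) ∈ cone I := by
      refine (isClosed_cone I).mem_of_tendsto h1 (Eventually.of_forall fun t => ?_)
      exact smul_mem_cone U.smooth (U.stab x hx t) _
    have h3 := smul_mem_cone U.smooth h2 (a.factorial : ℂ)
    rwa [smul_smul, mul_inv_cancel₀ (Nat.cast_ne_zero.2 (Nat.factorial_ne_zero a)), one_smul] at h3
  · have h0 : A ^ a *ᵥ x = 0 := by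
      have : A ^ a = 0 := by
        have := congrArg (A ^ (a - (m + 1)) * ·) U.nil
        simp only [mul_zero, ← pow_add] at this
        rwa [show a - (m + 1) + (m + 1) = a by omega] at this
      rw [this, Matrix.zero_mulVec]
    rw [h0]
    exact U.zero_mem

theorem UniSetup.pow_zero_of_lt (U : UniSetup I r A m) {e : ℕ} (h : m < e) : A ^ e = 0 := by
  have := congrArg (A ^ (e - (m + 1)) * ·) U.nil
  simp only [mul_zero, ← pow_add] at this
  rwa [show e - (m + 1) + (m + 1) = e by omega] at this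

theorem N_smul_mem {I : Ideal (MvPolynomial ι ℂ)} {x s : ι → ℂ} (hs : s ∈ N I x) (c : ℂ) :
    c • s ∈ N I x := Submodule.smul_mem _ c hs

/-- (CL) -/
theorem UniSetup.cl (U : UniSetup I r A m) {x s : ι → ℂ} (hx : x ∈ cone I) (hs : s ∈ N I x)
    {a e : ℕ} (ha : A ^ a *ᵥ x ≠ 0) (ha' : A ^ (a + 1) *ᵥ x = 0) (he : s ᵥ* A ^ (e + 1) = 0) :
    s ᵥ* A ^ e ∈ N I (A ^ a *ᵥ x) := by
  by_cases hem : e ≤ m
  swap
  · rw [U.pow_zero_of_lt (e := e) (by omega), Matrix.vecMul_zero]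
    exact Submodule.zero_mem _
  have ham : a ≤ m := by
    by_contra h
    exact ha (by rw [U.pow_zero_of_lt (by omega), Matrix.zero_mulVec])
  have hfa : ((a.factorial : ℂ))⁻¹ ≠ 0 := inv_ne_zero (Nat.cast_ne_zero.2 (Nat.factorial_ne_zero a))
  have hfe : ((e.factorial : ℂ))⁻¹ ≠ 0 := inv_ne_zero (Nat.cast_ne_zero.2 (Nat.factorial_ne_zero e))
  have h1 := tendsto_orb_fixed (F := Bornology.cobounded ℂ) ham ha' tendsto_id
  have hneg : Tendsto (fun t : ℂ => -t) (Bornology.cobounded ℂ) (Bornology.cobounded ℂ) :=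
    Filter.tendsto_neg_cobounded
  have h2 := tendsto_orbB_fixed (F := Bornology.cobounded ℂ) hem he hneg
  have h3 := mem_N_of_tendsto U.smooth (smul_ne_zero hfa ha) h1 h2 (by
    have : ∀ᶠ z in Bornology.cobounded ℂ, z ≠ 0 := Bornology.eventually_ne_cobounded 0
    filter_upwards [this] with t ht
    refine ⟨smul_mem_cone U.smooth (U.stab x hx t) _, ?_⟩
    refine N_smul U.smooth (inv_ne_zero (pow_ne_zero a ht)) ?_
    exact N_smul_mem (U.orbB_mem hx hs t) _)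
  have h4 := N_smul U.smooth (inv_ne_zero hfa) h3.2
  rw [smul_smul, inv_mul_cancel₀ hfa, one_smul] at h4
  have h5 := N_smul_mem h4 (((e.factorial : ℂ))⁻¹)⁻¹
  rwa [smul_smul, inv_mul_cancel₀ hfe, one_smul] at h5

/-- the dimension of `X`: `codim = r`. -/
theorem dim_le_of_smooth {I : Ideal (MvPolynomial ι ℂ)} {r : ℕ} (hI : Smooth I r)
    (h0 : ∃ x ∈ cone I, x ≠ 0) :
    (Fintype.card ι : WithBot ℕ∞) ≤ ringKrullDim (MvPolynomial ι ℂ ⧸ I) + r := by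
  obtain ⟨y, hy, hy0⟩ := h0
  obtain ⟨h, l, hhI, hhom, hli, -⟩ := exists_frame hI hy hy0
  obtain ⟨P, hP, hPh, hPg, hyP, hdim⟩ := exists_component h hhom y (fun i => hy _ (hhI i))
  rw [Fintype.card_fin] at hdim
  have h1 : P ≤ I := branch_le hP hI.prime hyP hy h hPg hhI hli hdim
  have h2 : I ≤ P := le_of_local hI h hhI hy hy0 hli hP hPg hyP
  rw [← le_antisymm h1 h2]
  exact hdim

theorem UniSetup.exists_ne (U : UniSetup I r A m) : ∃ x ∈ cone I, x ≠ 0 := by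
  by_contra hcon
  push Not at hcon
  have hs := U.nd (fun _ => 1) (fun x hx => by rw [hcon x hx, dotProduct_zero])
  have hc := U.card_gt
  obtain ⟨i⟩ : Nonempty ι := Fintype.card_pos_iff.1 (by omega)
  exact one_ne_zero (congrFun hs i)

theorem UniSetup.dim_le (U : UniSetup I r A m) :
    (Fintype.card ι : WithBot ℕ∞) ≤ ringKrullDim (MvPolynomial ι ℂ ⧸ I) + r :=
  dim_le_of_smooth U.smooth U.exists_ne

/-- a nonzero matrix does not vanish identically on the cone. -/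
theorem UniSetup.exists_mulVec_ne (U : UniSetup I r A m) {B : Matrix ι ι ℂ} (hB : B ≠ 0) :
    ∃ x ∈ cone I, B *ᵥ x ≠ 0 := by
  by_contra hcon
  push Not at hcon
  apply hB
  ext i j
  have := U.nd (B i) (fun x hx => congrFun (hcon x hx) i)
  exact congrFun this j

theorem UniSetup.exists_pow_ne (U : UniSetup I r A m) : ∃ x ∈ cone I, A ^ m *ᵥ x ≠ 0 :=
  U.exists_mulVec_ne U.ne

end U

end H12.Uni
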