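import Pool.Agent.H26.Uni.Final
import Pool.Agent.H12.Uni.Jordan
import Pool.Agent.H12.Uni.Deg
import Pool.Agent.H25.Hart.CoreOrder

/-!
# Reduction of the theorem for one linear automorphism to the nondegenerate case
-/

open MvPolynomial

set_option linter.unusedSectionVars false
set_option linter.unusedSimpArgs false

namespace H12.Uni

open H89.Hart H15.Hart

/-- Reduction to the nondegenerate case. -/
theorem reduction3
    (n r : ℕ) (I : Ideal (MvPolynomial (Fin (n + 1)) ℂ)) (hI : Smooth I r)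
    (hdim : ringKrullDim (MvPolynomial (Fin (n + 1)) ℂ ⧸ I) + r = n + 1)
    (hne : ∃ x ∈ cone I, x ≠ 0)
    (core : ∀ (κ : Type) [Fintype κ] [DecidableEq κ] (L : (κ → ℂ) →ₗ[ℂ] (Fin (n + 1) → ℂ))
      (M : (Fin (n + 1) → ℂ) →ₗ[ℂ] (κ → ℂ)) (r' : ℕ), H15.Hart.Inv L M I →
      (∀ z, L z ∈ Submodule.span ℂ (cone I)) →
      (∀ x ∈ Submodule.span ℂ (cone I), L (M x) = x) →
      Smooth (H15.Hart.pull M I) r' →
      (∀ s, (∀ x ∈ cone (H15.Hart.pull M I), s ⬝ᵥ x = 0) → s = 0) →
      r' ≤ r → (r - r') + Fintype.card κ = n + 1 →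
      r' ≤ 1 ∧ (r' = 1 → ∀ G e, H15.Hart.pull M I = Ideal.span {G} → G.IsHomogeneous e →
        e ≤ 2)) :
    ∃ F : Fin r → MvPolynomial (Fin (n + 1)) ℂ, ∃ d : Fin r → ℕ,
      (∀ i, (F i).IsHomogeneous (d i)) ∧ (∀ i, d i = 1 ∨ d i = 2) ∧
      (∀ i j, d i = 2 → d j = 2 → i = j) ∧ I = Ideal.span (Set.range F) ∧
      ∀ x ∈ cone I, x ≠ 0 → LinearIndependent ℂ (fun i => dif (F i) x) := by
  classical
  let W : Submodule ℂ (Fin (n + 1) → ℂ) := Submodule.span ℂ (cone I)
  have hYW : ∀ x ∈ cone I, x ∈ W := fun x hx => Submodule.subset_span hx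
  obtain ⟨κ, _, _, a, L, hBW, hBa, hBW'⟩ := exists_coords W
  let M : (Fin (n + 1) → ℂ) →ₗ[ℂ] (κ → ℂ) := LinearMap.funLeft ℂ ℂ a
  have hM : ∀ x, M x = fun k => x (a k) := fun _ => rfl
  have hInv : H15.Hart.Inv L M I :=
    { ML := fun z => by
        rw [hM]
        funext k
        exact hBa z k
      LM := fun x hx => by
        rw [hM, hBW' _ (hYW x hx)] }
  obtain ⟨x₀, hx₀, hx₀0⟩ := hne
  set r₀ := Module.finrank ℂ (LinearMap.ker (tr L)) with hr₀
  have hcard : r₀ + Fintype.card κ = n + 1 := by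
    have := finrank_ker_tr hInv
    rwa [Fintype.card_fin] at this
  have hr₀r : r₀ ≤ r := by
    rw [← hI.rank x₀ hx₀ hx₀0]
    exact Submodule.finrank_mono (ker_tr_le hInv hI.prime x₀)
  set r' := r - r₀ with hr'
  have hsm : Smooth (H15.Hart.pull M I) r' :=
    { prime := pull_isPrime hInv hI.prime
      homog := fun g hg d => by
        change H15.Hart.sub M _ ∈ I
        rw [← homogeneousComponent_sub]
        exact hI.homog _ hg d
      rank := fun z hz hz0 => by
        have h1 := finrank_N_pull hInv hI.prime z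
        rw [hI.rank _ ((cone_pull hInv hI.prime).1 hz) (L_ne_zero hInv hI.prime hz0)] at h1
        omega }
  have hr12 : r' ≤ 1 ∧ (r' = 1 → ∀ G e, H15.Hart.pull M I = Ideal.span {G} →
      G.IsHomogeneous e → e ≤ 2) := by
    refine core κ L M r' hInv hBW hBW' hsm ?_ (by omega) (by omega)
    intro s hs
    have h1 : ∀ y ∈ W, s ⬝ᵥ (fun k => y (a k)) = 0 := by
      intro y hy
      induction hy using Submodule.span_induction with
      | mem y hy =>
        apply hs
        rw [cone_pull hInv hI.prime, hBW' y (Submodule.subset_span hy)]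
        exact hy
      | zero => simp [dotProduct]
      | add y z _ _ h h' =>
        have : (fun k => (y + z) (a k)) = (fun k => y (a k)) + fun k => z (a k) := rfl
        rw [this, dotProduct_add, h, h', add_zero]
      | smul c y _ h =>
        have : (fun k => (c • y) (a k)) = c • fun k => y (a k) := rfl
        rw [this, dotProduct_smul, h, smul_zero]
    funext k
    have h2 := h1 _ (hBW (Pi.single k 1))
    simpa [hBa] using h2
  have hr1 := hr12.1
  obtain ⟨d, hd⟩ := exists_nat_of_add (n := n + 1) (by rw [hdim]; norm_cast)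
  have hdim' : ringKrullDim (MvPolynomial κ ℂ ⧸ H15.Hart.pull M I) + r' = Fintype.card κ := by
    rw [ringKrullDim_pull hInv hI.prime, hd]
    rw [hd] at hdim
    have h1 : d + r = n + 1 := by exact_mod_cast hdim
    have h2 : d + r' = Fintype.card κ := by omega
    exact_mod_cast h2
  obtain ⟨F', hF'h, hF'⟩ := exists_gens hsm.prime hsm.homog hr1 hdim'
  choose d' hd' using hF'h
  have hd'12 : ∀ j, d' j = 1 ∨ d' j = 2 := by
    intro j
    have hj := j.2
    have hr1' : r' = 1 := by omega
    have hrange : H15.Hart.pull M I = Ideal.span {F' j} := by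
      rw [hF']
      congr 1
      ext x
      constructor
      · rintro ⟨j', rfl⟩
        have : j' = j := Fin.ext (by have := j'.2; omega)
        rw [this]; rfl
      · rintro rfl; exact ⟨j, rfl⟩
    have h1 := hr12.2 hr1' (F' j) (d' j) hrange (hd' j)
    have h2 : d' j ≠ 0 := by
      intro h0
      have h3 := hd' j
      rw [h0] at h3
      by_cases hF0 : F' j = 0
      · have h4 := hr12.2 hr1' (F' j) 3 hrange (by rw [hF0]; exact isHomogeneous_zero _ _ _)
        omega
      · have hC := totalDegree_eq_zero_iff_eq_C.1 (h3.totalDegree hF0)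
        apply hsm.prime.ne_top
        rw [hrange, Ideal.eq_top_iff_one, hC]
        have hk : coeff 0 (F' j) ≠ 0 := by
          intro hk; apply hF0; rw [hC, hk, map_zero]
        have h5 : (1 : MvPolynomial κ ℂ) = C (coeff 0 (F' j))⁻¹ * C (coeff 0 (F' j)) := by
          rw [← C_mul, inv_mul_cancel₀ hk, C_1]
        rw [h5]
        exact Ideal.mul_mem_left _ _ (Ideal.mem_span_singleton_self _)
    omega
  let b := Module.finBasis ℂ (LinearMap.ker (tr L))
  have hb : Submodule.span ℂ (Set.range fun j => (b j : Fin (n + 1) → ℂ)) =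
      LinearMap.ker (tr L) := by
    have h1 := congrArg (Submodule.map (LinearMap.ker (tr L)).subtype) b.span_eq
    rw [Submodule.map_span, Submodule.map_subtype_top, ← Set.range_comp] at h1
    exact h1
  have hgen := gens_pull hInv hI.prime (fun j => (b j : Fin (n + 1) → ℂ)) hb F' hF'
  let e : Fin r ≃ Fin r₀ ⊕ Fin r' :=
    ((finSumFinEquiv).trans (finCongr (show r₀ + r' = r by omega))).symm
  have hgen' : I = Ideal.span (Set.range fun i => Sum.elim (fun j => lin (b j : Fin (n + 1) → ℂ))
      (fun j => H15.Hart.sub M (F' j)) (e i)) := by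
    have : (Set.range fun i => Sum.elim (fun j => lin (b j : Fin (n + 1) → ℂ))
      (fun j => H15.Hart.sub M (F' j)) (e i)) =
      Set.range (Sum.elim (fun j => lin (b j : Fin (n + 1) → ℂ))
      (fun j => H15.Hart.sub M (F' j))) := e.surjective.range_comp _
    rw [this]
    exact hgen
  refine ⟨_, fun i => Sum.elim (fun _ => 1) d' (e i), ?_, ?_, ?_, hgen', ?_⟩
  · intro i
    dsimp only
    rcases e i with j | j
    · exact lin_homog _
    · exact sub_homog M (hd' j)
  · intro i
    dsimp only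
    rcases e i with j | j
    · exact Or.inl rfl
    · exact hd'12 j
  · intro i i' hi hi'
    dsimp only at hi hi'
    apply e.injective
    rcases hei : e i with j | j
    · rw [hei] at hi; exact absurd hi (by simp)
    · rcases hei' : e i' with j' | j'
      · rw [hei'] at hi'; exact absurd hi' (by simp)
      · congr 1
        exact Fin.ext (by have := j.2; have := j'.2; omega)
  · intro x hx hx0
    rw [linearIndependent_iff_card_eq_finrank_span, Set.finrank, ← N_span hgen' hx,
      hI.rank x hx hx0, Fintype.card_fin]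

/-- The nondegenerate case of the theorem. -/
theorem core_all (κ : Type) [Fintype κ] [DecidableEq κ] (I : Ideal (MvPolynomial κ ℂ))
    (r d : ℕ) (hI : Smooth I r) (g : Module.End ℂ (κ → ℂ)) (hinj : Function.Injective g)
    (hstab : ∀ x ∈ cone I, g x ∈ cone I)
    (hnd : ∀ s, (∀ x ∈ cone I, s ⬝ᵥ x = 0) → s = 0)
    (hcut : ∀ x, (∀ f ∈ I, ∀ e ≤ d, f.IsHomogeneous e → eval x f = 0) → x ∈ cone I)
    (hord : ∀ N, 0 < N → N ≤ (2 * d) ^ (Fintype.card κ - 1) →
      ∃ x ∈ cone I, ∀ c : ℂ, (⇑g)^[N] x ≠ c • x)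
    (hcard : 23 * r < Fintype.card κ) (hcard' : 16 * r ^ 3 ≤ Fintype.card κ) :
    r ≤ 1 ∧ (r = 1 → ∀ G e, I = Ideal.span {G} → G.IsHomogeneous e → e ≤ 2) := by
  classical
  rcases jordan_cases hI.prime g hinj hstab with ⟨b, a, hb⟩ | ⟨A, m, hm, hne, hnil, horb⟩
  · -- diagonalizable
    have ha : ∀ i, a i ≠ 0 := by
      intro i h0
      have h1 := hb i
      rw [h0, zero_smul, ← map_zero g] at h1
      exact b.ne_zero i (hinj h1)
    have hgA : ∀ x, g x = b.equivFun.symm (fun i => a i * b.equivFun.symm.symm x i) := by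
      intro x
      rw [LinearEquiv.symm_symm, Module.Basis.equivFun_symm_apply]
      conv_lhs => rw [← b.sum_equivFun x, map_sum]
      refine Finset.sum_congr rfl fun i _ => ?_
      rw [map_smul, hb, smul_smul, mul_comm]
    have hiter : ∀ m x, (⇑g)^[m] x =
        b.equivFun.symm (fun i => a i ^ m * b.equivFun.symm.symm x i) := by
      intro m x
      induction m with
      | zero => simp
      | succ m ih =>
        rw [Function.iterate_succ_apply', ih, hgA]
        congr 1
        funext i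
        rw [LinearEquiv.symm_apply_apply]
        ring
    refine Pool.Agent.H25.Hart.core_order κ I r d hI b.equivFun.symm a ha
      (fun x hx => by rw [← hgA]; exact hstab x hx) hnd hcut ?_ hcard
    intro N hN hN'
    by_contra hcon
    push Not at hcon
    obtain ⟨x, hx, hc⟩ := hord N hN hN'
    obtain ⟨c, hc'⟩ : ∃ c : ℂ, ∀ k, a k ^ N = c := by
      rcases isEmpty_or_nonempty κ with he | ⟨⟨k₀⟩⟩
      · exact ⟨0, fun k => he.elim k⟩
      · exact ⟨a k₀ ^ N, fun k => hcon k k₀⟩
    apply hc c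
    rw [hiter]
    have h1 : (fun i => a i ^ N * b.equivFun.symm.symm x i) = c • b.equivFun.symm.symm x := by
      funext i
      rw [hc', Pi.smul_apply, smul_eq_mul]
    rw [h1, map_smul, LinearEquiv.apply_symm_apply]
  · constructor
    · by_contra hr
      have U : UniSetup I r A m :=
        { smooth := hI
          nd := hnd
          two_le := by omega
          one_le := hm
          ne := hne
          nil := hnil
          stab := horb
          card_gt := by omega }
      exact U.false hcard'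
    · rintro rfl G e hG he
      have hx : ∃ x ∈ cone I, Matrix.mulVec (A ^ m) x ≠ 0 := by
        by_contra hcon
        push Not at hcon
        apply hne
        ext i j
        have h1 : (A ^ m) i = 0 := by
          apply hnd
          intro x hx
          exact congrFun (hcon x hx) i
        rw [h1]; rfl
      exact deg_le_two hI hm hnil hx horb hG he

/-- arithmetic -/
theorem bounds {n r r' c : ℕ} (hn : 16 * r ^ 3 + 7 ≤ n) (hr' : r' ≤ r)
    (hcard : (r - r') + c = n + 1) : 23 * r' < c ∧ 16 * r' ^ 3 ≤ c := by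
  have hb1 : 16 * r' ^ 3 + (r - r') ≤ 16 * r ^ 3 := by
    obtain ⟨k, rfl⟩ : ∃ k, r = r' + k := ⟨r - r', by omega⟩
    rw [Nat.add_sub_cancel_left]
    have h1 : (r' + k) ^ 3 = r' ^ 3 + k ^ 3 + 3 * r' * k * (r' + k) := by ring
    have h2 : k ≤ k ^ 3 := Nat.le_self_pow (by norm_num) k
    rw [h1]
    have h3 : 0 ≤ 3 * r' * k * (r' + k) := Nat.zero_le _
    omega
  have hb4 : 16 * r' ^ 3 + 8 ≤ c := by omega
  refine ⟨?_, by omega⟩
  refine lt_of_lt_of_le ?_ hb4
  rcases Nat.lt_or_ge r' 2 with h0 | h0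
  · interval_cases r' <;> norm_num
  · have h5 : r' ^ 3 = r' ^ 2 * r' := by ring
    have h6 : 2 ^ 2 ≤ r' ^ 2 := Nat.pow_le_pow_left h0 2
    have h7 : 2 ^ 2 * r' ≤ r' ^ 2 * r' := Nat.mul_le_mul_right _ h6
    omega

/-- The theorem for one linear automorphism. -/
theorem main_all (n r d : ℕ) (I : Ideal (MvPolynomial (Fin (n + 1)) ℂ)) (hI : Smooth I r)
    (hdim : ringKrullDim (MvPolynomial (Fin (n + 1)) ℂ ⧸ I) + r = n + 1) (hd : 1 ≤ d)
    (hcut : ∀ x, (∀ f ∈ I, ∀ e ≤ d, f.IsHomogeneous e → eval x f = 0) → x ∈ cone I)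
    (g : Module.End ℂ (Fin (n + 1) → ℂ)) (hinj : Function.Injective g)
    (hstab : ∀ x ∈ cone I, g x ∈ cone I)
    (hord : ∀ N, 0 < N → N ≤ (2 * d) ^ n → ∃ x ∈ cone I, ∀ c : ℂ, (⇑g)^[N] x ≠ c • x)
    (hn : 16 * r ^ 3 + 7 ≤ n) :
    ∃ F : Fin r → MvPolynomial (Fin (n + 1)) ℂ, ∃ d : Fin r → ℕ,
      (∀ i, (F i).IsHomogeneous (d i)) ∧ (∀ i, d i = 1 ∨ d i = 2) ∧
      (∀ i j, d i = 2 → d j = 2 → i = j) ∧ I = Ideal.span (Set.range F) ∧
      ∀ x ∈ cone I, x ≠ 0 → LinearIndependent ℂ (fun i => dif (F i) x) := by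
  classical
  have hne : ∃ x ∈ cone I, x ≠ 0 := by
    obtain ⟨x, hx, hc⟩ := hord 1 one_pos (Nat.one_le_pow _ _ (by omega))
    refine ⟨x, hx, ?_⟩
    rintro rfl
    apply hc 0
    simp
  have hgW : ∀ x ∈ Submodule.span ℂ (cone I), g x ∈ Submodule.span ℂ (cone I) := by
    intro x hx
    have h1 : g x ∈ (Submodule.span ℂ (cone I)).map g := Submodule.mem_map_of_mem hx
    have h2 : (Submodule.span ℂ (cone I)).map g ≤ Submodule.span ℂ (cone I) := by
      rw [Submodule.map_span, Submodule.span_le]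
      rintro _ ⟨y, hy, rfl⟩
      exact Submodule.subset_span (hstab y hy)
    exact h2 h1
  refine reduction3 n r I hI hdim hne ?_
  intro κ _ _ L M r' hInv hLW hLM hsm hnd hr' hcard
  have hp := hI.prime
  let g' : Module.End ℂ (κ → ℂ) := M ∘ₗ g ∘ₗ L
  have hLg : ∀ z, L (g' z) = g (L z) := fun z => hLM _ (hgW _ (hLW z))
  have hLinj : Function.Injective L := fun z z' h => by
    rw [← hInv.ML z, h, hInv.ML]
  have hinj' : Function.Injective g' := by
    intro z z' h
    apply hLinj
    apply hinj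
    rw [← hLg, ← hLg, h]
  have hiter : ∀ N z, L ((⇑g')^[N] z) = (⇑g)^[N] (L z) := by
    intro N z
    induction N with
    | zero => rfl
    | succ N ih => rw [Function.iterate_succ_apply', Function.iterate_succ_apply', hLg, ih]
  obtain ⟨hb3, hb4⟩ := bounds hn hr' hcard
  refine core_all κ (H15.Hart.pull M I) r' d hsm g' hinj' ?_ hnd ?_ ?_ hb3 hb4
  · intro z hz
    rw [cone_pull hInv hp] at hz ⊢
    rw [hLg]
    exact hstab _ hz
  · intro z hz
    rw [cone_pull hInv hp]
    apply hcut
    intro f hf e he hfe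
    have := hz (H15.Hart.sub L f) ((sub_mem_pull hInv hp).2 hf) e he (sub_homog L hfe)
    rwa [H15.Hart.eval_sub] at this
  · intro N hN hN'
    obtain ⟨x, hx, hc⟩ := hord N hN (hN'.trans (Nat.pow_le_pow_right (by omega) (by omega)))
    refine ⟨M x, ?_, fun c hc' => hc c ?_⟩
    · rw [cone_pull hInv hp, hInv.LM x hx]
      exact hx
    · have h5 := congrArg L hc'
      rwa [hiter, map_smul, hInv.LM x hx] at h5

end H12.Uni
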