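import Pool.Agent.H12.Uni.Gen

/-! (ZM): the Zak type bound for a family of conormal spaces. -/

open MvPolynomial Matrix H89.Hart Filter Topology Pool.Agent.H25.Hart

set_option linter.unusedSectionVars false

namespace H12.Uni

variable {ι : Type*} [Fintype ι] [DecidableEq ι] {κ : Type*} [Fintype κ] [DecidableEq κ]

/-! ### linear algebra -/

theorem dot_single_map {c : ℕ} (φ : (ι → ℂ) →ₗ[ℂ] (Fin c → ℂ)) (s : ι → ℂ) (j : Fin c) :
    s ⬝ᵥ (fun k => φ (Pi.single k 1) j) = φ s j := by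
  have : s = ∑ k, s k • (Pi.single k (1 : ℂ) : ι → ℂ) := by
    funext m; simp [Finset.sum_apply, Pi.single_apply]
  conv_rhs => rw [this, map_sum]
  simp [dotProduct, Finset.sum_apply]

theorem finrank_comap_subtype {E : Type*} [AddCommGroup E] [Module ℂ E]
    (G S : Submodule ℂ E) : Module.finrank ℂ (Submodule.comap G.subtype S) =
      Module.finrank ℂ (G ⊓ S : Submodule ℂ E) := by
  rw [← Submodule.map_comap_subtype]
  exact (Submodule.equivMapOfInjective G.subtype G.injective_subtype _).finrank_eq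

theorem finrank_map_mkQ {E : Type*} [AddCommGroup E] [Module ℂ E] [FiniteDimensional ℂ E]
    (G S : Submodule ℂ E) : Module.finrank ℂ (G.map S.mkQ) +
      Module.finrank ℂ (G ⊓ S : Submodule ℂ E) = Module.finrank ℂ G := by
  have h1 := LinearMap.finrank_range_add_finrank_ker (S.mkQ.domRestrict G)
  have h2 : LinearMap.ker (S.mkQ.domRestrict G) = Submodule.comap G.subtype S := by
    ext x
    rw [LinearMap.mem_ker, LinearMap.domRestrict_apply, Submodule.mkQ_apply,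
      Submodule.Quotient.mk_eq_zero, Submodule.mem_comap]
    rfl
  rw [LinearMap.range_domRestrict, h2, finrank_comap_subtype] at h1
  exact h1

theorem exists_cut (S D : Submodule ℂ (ι → ℂ)) (hD : D ≤ S) :
    ∃ v : Fin (Module.finrank ℂ S - Module.finrank ℂ D) → ι → ℂ,
      (∀ s ∈ D, ∀ k, s ⬝ᵥ v k = 0) ∧ ∀ s ∈ S, (∀ k, s ⬝ᵥ v k = 0) → s ∈ D := by
  set R := S.map D.mkQ with hR
  have hfin : Module.finrank ℂ R = Module.finrank ℂ S - Module.finrank ℂ D := by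
    have h1 := finrank_map_mkQ S D
    rw [inf_eq_right.2 hD, ← hR] at h1
    omega
  let e : R ≃ₗ[ℂ] (Fin (Module.finrank ℂ S - Module.finrank ℂ D) → ℂ) :=
    LinearEquiv.ofFinrankEq _ _ (by rw [hfin, Module.finrank_fintype_fun_eq_card, Fintype.card_fin])
  obtain ⟨ψ, hψ⟩ := LinearMap.exists_extend e.toLinearMap
  let φ : (ι → ℂ) →ₗ[ℂ] (Fin (Module.finrank ℂ S - Module.finrank ℂ D) → ℂ) := ψ ∘ₗ D.mkQ
  refine ⟨fun k i => φ (Pi.single i 1) k, ?_, ?_⟩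
  · intro s hs k
    rw [dot_single_map]
    simp only [φ, LinearMap.comp_apply, Submodule.mkQ_apply]
    rw [(Submodule.Quotient.mk_eq_zero D).2 hs, map_zero]
    rfl
  · intro s hs h
    have h1 : φ s = 0 := by
      funext k
      rw [← dot_single_map φ s k]
      exact h k
    have hmem : D.mkQ s ∈ R := Submodule.mem_map_of_mem hs
    have h2 : φ s = e ⟨D.mkQ s, hmem⟩ := by
      have := LinearMap.congr_fun hψ ⟨D.mkQ s, hmem⟩
      simpa [φ] using this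
    rw [h2] at h1
    have h3 : (⟨D.mkQ s, hmem⟩ : R) = 0 := e.map_eq_zero_iff.1 h1
    have h4 : D.mkQ s = 0 := congrArg Subtype.val h3
    rwa [Submodule.mkQ_apply, Submodule.Quotient.mk_eq_zero] at h4

theorem exists_dual_mod {c : ℕ} (S : Submodule ℂ (ι → ℂ)) (b : Fin c → ι → ℂ)
    (hb : LinearIndependent ℂ (fun i => S.mkQ (b i))) :
    ∃ l : Fin c → ι → ℂ, (∀ i j, b i ⬝ᵥ l j = if i = j then 1 else 0) ∧
      ∀ s ∈ S, ∀ j, s ⬝ᵥ l j = 0 := by
  let L : (Fin c → ℂ) →ₗ[ℂ] ((ι → ℂ) ⧸ S) := Fintype.linearCombination ℂ fun i => S.mkQ (b i)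
  have hL : LinearMap.ker L = ⊥ := by
    rw [LinearMap.ker_eq_bot']
    intro x hx
    have := Fintype.linearIndependent_iff.1 hb x
      (by simpa [L, Fintype.linearCombination_apply] using hx)
    exact funext this
  obtain ⟨π, hπ⟩ := L.exists_leftInverse_of_injective hL
  let φ : (ι → ℂ) →ₗ[ℂ] (Fin c → ℂ) := π ∘ₗ S.mkQ
  refine ⟨fun j k => φ (Pi.single k 1) j, fun i j => ?_, fun s hs j => ?_⟩
  · rw [dot_single_map]
    have h1 : L (Pi.single i 1) = S.mkQ (b i) := by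
      simp [L, Fintype.linearCombination_apply]
    have h2 : φ (b i) = Pi.single i 1 := by
      simp only [φ, LinearMap.comp_apply]
      rw [← h1]
      have := congrArg (fun ψ => ψ (Pi.single i (1 : ℂ))) hπ
      simpa using this
    rw [h2, Pi.single_apply]
    by_cases h : i = j
    · subst h; simp
    · simp [h, Ne.symm h]
  · rw [dot_single_map]
    simp only [φ, LinearMap.comp_apply, Submodule.mkQ_apply]
    rw [(Submodule.Quotient.mk_eq_zero S).2 hs, map_zero]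
    rfl

/-- a basis of a complement of `S` in `G`, and dual vectors killing `S`. -/
theorem exists_compl_frame (G S : Submodule ℂ (ι → ℂ)) :
    ∃ (c : ℕ) (b l : Fin c → ι → ℂ), c + Module.finrank ℂ (G ⊓ S : Submodule ℂ (ι → ℂ)) =
      Module.finrank ℂ G ∧ (∀ i, b i ∈ G) ∧ LinearIndependent ℂ b ∧
      (∀ i j, b i ⬝ᵥ l j = if i = j then 1 else 0) ∧ ∀ s ∈ S, ∀ j, s ⬝ᵥ l j = 0 := by
  set R := G.map S.mkQ with hR
  let bR := Module.finBasis ℂ R
  have hex : ∀ i, ∃ x ∈ G, S.mkQ x = (bR i : (ι → ℂ) ⧸ S) := fun i => by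
    obtain ⟨x, hx, hx2⟩ := Submodule.mem_map.1 (bR i).2
    exact ⟨x, hx, hx2⟩
  choose b hbG hb using hex
  have hli : LinearIndependent ℂ (fun i => S.mkQ (b i)) := by
    have h1 : (fun i => S.mkQ (b i)) = R.subtype ∘ bR := funext fun i => hb i
    rw [h1]
    exact bR.linearIndependent.map' R.subtype R.ker_subtype
  obtain ⟨l, hl1, hl2⟩ := exists_dual_mod S b hli
  refine ⟨Module.finrank ℂ R, b, l, finrank_map_mkQ G S, hbG, ?_, hl1, hl2⟩
  exact LinearIndependent.of_comp S.mkQ hli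

/-- the conormal vectors killed by the `l j` when the `dif (g i)` are dual to the `l j`. -/
theorem finrank_killed {G : Submodule ℂ (ι → ℂ)} {c : ℕ} (b l : Fin c → ι → ℂ)
    (hb : ∀ i, b i ∈ G) (hdet : (Matrix.of fun i j => b i ⬝ᵥ l j).det ≠ 0)
    {S : Submodule ℂ (ι → ℂ)} (hS : ∀ s ∈ S, ∀ j, s ⬝ᵥ l j = 0)
    (hfin : Module.finrank ℂ G ≤ c + Module.finrank ℂ (G ⊓ S : Submodule ℂ (ι → ℂ)))
    {s : ι → ℂ} (hs : s ∈ G) (hsl : ∀ j, s ⬝ᵥ l j = 0) : s ∈ S := by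
  -- the evaluation map on `G`
  let φ : G →ₗ[ℂ] (Fin c → ℂ) :=
    { toFun := fun s j => (s : ι → ℂ) ⬝ᵥ l j
      map_add' := fun x y => by funext j; simp [add_dotProduct]
      map_smul' := fun a x => by funext j; simp [smul_dotProduct] }
  have hsurj : LinearMap.range φ = ⊤ := by
    rw [eq_top_iff]
    intro y _
    -- solve `x M = y`
    let M : Matrix (Fin c) (Fin c) ℂ := Matrix.of fun i j => b i ⬝ᵥ l j
    have hM : IsUnit M.det := isUnit_iff_ne_zero.2 hdet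
    let x : Fin c → ℂ := y ᵥ* M⁻¹
    have hx : x ᵥ* M = y := by
      simp only [x]
      rw [Matrix.vecMul_vecMul, Matrix.nonsing_inv_mul _ hM, Matrix.vecMul_one]
    refine ⟨∑ i, x i • ⟨b i, hb i⟩, ?_⟩
    rw [map_sum, ← hx]
    funext j
    rw [Finset.sum_apply]
    simp only [map_smul, Pi.smul_apply, smul_eq_mul, Matrix.vecMul, dotProduct]
    rfl
  have h1 := LinearMap.finrank_range_add_finrank_ker φ
  rw [hsurj, finrank_top, Module.finrank_fintype_fun_eq_card, Fintype.card_fin] at h1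
  -- the kernel as a submodule of the ambient space
  have h2 : Submodule.comap G.subtype S ≤ LinearMap.ker φ := by
    intro z hz
    rw [LinearMap.mem_ker]
    funext j
    exact hS _ hz j
  have h3 := finrank_comap_subtype G S
  have h4 : Submodule.comap G.subtype S = LinearMap.ker φ := by
    apply Submodule.eq_of_le_of_finrank_le h2
    omega
  have h5 : (⟨s, hs⟩ : G) ∈ LinearMap.ker φ := by
    rw [LinearMap.mem_ker]
    funext j
    exact hsl j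
  rw [← h4] at h5
  exact h5

/-! ### the section -/

/-- a subcone of codimension `≤ dim S - 1` along which one fixed form of `S` is conormal. -/
theorem exists_section_vec {I : Ideal (MvPolynomial ι ℂ)} {r : ℕ} (hI : Smooth I r)
    {P : Ideal (MvPolynomial κ ℂ)} (hP : P.IsPrime)
    (hPh : ∀ f ∈ P, ∀ d, homogeneousComponent d f ∈ P) (L : (κ → ℂ) →ₗ[ℂ] (ι → ℂ))
    (hL : ∀ u ∈ cone P, L u ∈ cone I) (S : Submodule ℂ (ι → ℂ))
    (hall : ∀ u ∈ cone P, L u ≠ 0 → ∃ s ∈ N I (L u), s ∈ S ∧ s ≠ 0)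
    (hne : ∃ u ∈ cone P, L u ≠ 0) :
    ∃ P₁ : Ideal (MvPolynomial κ ℂ), ∃ s₀ : ι → ℂ, P₁.IsPrime ∧
      (∀ f ∈ P₁, ∀ d, homogeneousComponent d f ∈ P₁) ∧ P ≤ P₁ ∧ s₀ ∈ S ∧ s₀ ≠ 0 ∧
      (∀ u ∈ cone P₁, L u ≠ 0 → s₀ ∈ N I (L u)) ∧
      ringKrullDim (MvPolynomial κ ℂ ⧸ P) ≤ ringKrullDim (MvPolynomial κ ℂ ⧸ P₁) +
        ((Module.finrank ℂ S - 1 : ℕ) : WithBot ℕ∞) := by
  classical
  -- the point with the smallest intersection
  obtain ⟨p, ⟨hp, hp0⟩, hmin⟩ : ∃ p, (p ∈ cone P ∧ L p ≠ 0) ∧ ∀ u ∈ cone P, L u ≠ 0 →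
      Module.finrank ℂ (N I (L p) ⊓ S : Submodule ℂ (ι → ℂ)) ≤
        Module.finrank ℂ (N I (L u) ⊓ S : Submodule ℂ (ι → ℂ)) := by
    let f : {u // u ∈ cone P ∧ L u ≠ 0} → ℕ := fun u =>
      Module.finrank ℂ (N I (L u) ⊓ S : Submodule ℂ (ι → ℂ))
    have : Nonempty {u // u ∈ cone P ∧ L u ≠ 0} := by
      obtain ⟨u, hu⟩ := hne
      exact ⟨⟨u, hu⟩⟩
    let p := Function.argmin f
    exact ⟨p.1, p.2, fun u hu hu0 => Function.argmin_le f ⟨u, hu, hu0⟩⟩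
  obtain ⟨s₀, hs₀N, hs₀S, hs₀⟩ := hall p hp hp0
  obtain ⟨c, b, l, hc, hbN, hbli, hbl, hlS⟩ := exists_compl_frame (N I (L p)) S
  have hNr := hI.rank _ (hL p hp) hp0
  -- homogeneous equations
  have hg : ∀ i, ∃ g ∈ I, ∃ d, g.IsHomogeneous d ∧ dif g (L p) = b i := fun i =>
    exists_homog_dif hI.homog (hL p hp) hp0 (hbN i)
  choose g hgI d hgd hgb using hg
  obtain ⟨g₀, hg₀I, d₀, hg₀d, hg₀b⟩ := exists_homog_dif hI.homog (hL p hp) hp0 hs₀N
  have hmat : matAt g l (L p) = 1 := by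
    ext i j; rw [matAt, Matrix.of_apply, hgb, hbl, Matrix.one_apply]
  -- the cutting vectors
  have hD : Submodule.span ℂ {s₀} ≤ S := by
    rw [Submodule.span_le]; rintro _ rfl; exact hs₀S
  have hcut := exists_cut S (Submodule.span ℂ {s₀}) hD
  rw [finrank_span_singleton hs₀] at hcut
  obtain ⟨v, hv1, hv2⟩ := hcut
  -- values of the section
  let sec : (ι → ℂ) → (ι → ℂ) := fun x => (matAt g l x).det • dif g₀ x -
      ∑ i, (∑ j, (dif g₀ x ⬝ᵥ l j) * (matAt g l x).adjugate j i) • dif (g i) x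
  have hsec : ∀ w x, eval x (Q g l g₀ w) = sec x ⬝ᵥ w := fun w x => eval_Q g l g₀ w x
  have hsecp : sec (L p) = s₀ := by
    simp only [sec]
    rw [hmat, hg₀b]
    simp only [Matrix.det_one, one_smul, Matrix.adjugate_one]
    rw [Finset.sum_eq_zero, sub_zero]
    intro i _
    have : ∑ j, (s₀ ⬝ᵥ l j) * (1 : Matrix (Fin c) (Fin c) ℂ) j i = 0 := by
      refine Finset.sum_eq_zero fun j _ => ?_
      rw [hlS _ hs₀S, zero_mul]
    rw [this, zero_smul]
  obtain ⟨P₁, hP₁, hP₁h, hPP₁, hgP₁, hpP₁, hdim⟩ := exists_component_over P hP hPh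
    (fun k => pull L (Q g l g₀ (v k)))
    (fun k => ⟨_, pull_homog L (Q_homog l hgd hg₀d (v k))⟩) p hp
    (fun k => by
      rw [eval_pull, hsec, hsecp]
      exact hv1 _ (Submodule.mem_span_singleton_self s₀) k)
  rw [Fintype.card_fin] at hdim
  refine ⟨P₁, s₀, hP₁, hP₁h, hPP₁, hs₀S, hs₀, ?_, hdim⟩
  -- a vector on which `s₀` does not vanish
  obtain ⟨w₀, hw₀⟩ : ∃ w, s₀ ⬝ᵥ w ≠ 0 := by
    by_contra hcon
    push Not at hcon
    exact hs₀ (dotProduct_eq_zero _ hcon)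
  have hh : pull L ((mat g l).det * Q g l g₀ w₀) ∉ P₁ := by
    intro hmem
    have := hpP₁ _ hmem
    rw [eval_pull, map_mul, eval_det_mat, hmat, Matrix.det_one, one_mul, hsec, hsecp] at this
    exact hw₀ this
  intro u hu hu0
  refine mem_N_of_generic_lin hI hP₁ L (fun z hz => hL z (cone_anti hPP₁ hz)) hh ?_ hu hu0
  intro z hz hz1 hz0
  rw [eval_pull, map_mul, eval_det_mat, hsec] at hz1
  have hdet : (matAt g l (L z)).det ≠ 0 := left_ne_zero_of_mul hz1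
  have hw : sec (L z) ⬝ᵥ w₀ ≠ 0 := right_ne_zero_of_mul hz1
  have hzP : z ∈ cone P := cone_anti hPP₁ hz
  have hsecN : sec (L z) ∈ N I (L z) := by
    refine Submodule.sub_mem _ (Submodule.smul_mem _ _ (mem_N.2 ⟨g₀, hg₀I, rfl⟩)) ?_
    exact Submodule.sum_mem _ fun i _ => Submodule.smul_mem _ _ (mem_N.2 ⟨g i, hgI i, rfl⟩)
  have hsecl : ∀ j, sec (L z) ⬝ᵥ l j = 0 := by
    intro j
    simp only [sec, sub_dotProduct, smul_dotProduct, sum_dotProduct, smul_eq_mul]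
    have h1 : ∀ i, dif (g i) (L z) ⬝ᵥ l j = matAt g l (L z) i j := fun i => rfl
    simp only [h1, Finset.sum_mul]
    rw [Finset.sum_comm]
    have h2 : ∀ k, ∑ i, dif g₀ (L z) ⬝ᵥ l k * (matAt g l (L z)).adjugate k i *
        matAt g l (L z) i j = dif g₀ (L z) ⬝ᵥ l k *
          ((matAt g l (L z)).adjugate * matAt g l (L z)) k j := by
      intro k
      rw [Matrix.mul_apply, Finset.mul_sum]
      refine Finset.sum_congr rfl fun i _ => ?_
      ring
    simp only [h2, Matrix.adjugate_mul, Matrix.smul_apply, Matrix.one_apply, smul_eq_mul]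
    simp [mul_comm]
  have hsecS : sec (L z) ∈ S := by
    refine finrank_killed (G := N I (L z)) (fun i => dif (g i) (L z)) l
      (fun i => mem_N.2 ⟨g i, hgI i, rfl⟩) hdet hlS ?_ hsecN hsecl
    have h1 := hI.rank _ (hL z hzP) hz0
    have h2 := hmin z hzP hz0
    omega
  have hsecD : sec (L z) ∈ Submodule.span ℂ {s₀} := by
    refine hv2 _ hsecS fun k => ?_
    rw [← hsec, ← eval_pull]
    exact hz _ (hgP₁ k)
  obtain ⟨a, ha⟩ := Submodule.mem_span_singleton.1 hsecD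
  have ha0 : a ≠ 0 := by
    rintro rfl
    apply hw
    rw [← ha, zero_smul, zero_dotProduct]
  rw [← ha] at hsecN
  exact ((N I (L z)).smul_mem_iff ha0).1 hsecN

/-! ### (ZM) -/

theorem exists_complement_forms (K : Submodule ℂ (κ → ℂ)) :
    ∃ v : Fin (Module.finrank ℂ K) → κ → ℂ, ∀ x ∈ K, (∀ k, v k ⬝ᵥ x = 0) → x = 0 := by
  have hcut := exists_cut K ⊥ bot_le
  rw [finrank_bot, Nat.sub_zero] at hcut
  obtain ⟨v, -, hv⟩ := hcut
  refine ⟨v, fun x hx h => ?_⟩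
  have := hv x hx fun k => by rw [dotProduct_comm]; exact h k
  simpa using this

/-- existence of one good point. -/
theorem zm_point {I : Ideal (MvPolynomial ι ℂ)} {r : ℕ} (hI : Smooth I r) (hr : 1 ≤ r)
    (hnd : ∀ s : ι → ℂ, (∀ x ∈ cone I, s ⬝ᵥ x = 0) → s = 0)
    {P : Ideal (MvPolynomial κ ℂ)} (hP : P.IsPrime)
    (hPh : ∀ f ∈ P, ∀ d, homogeneousComponent d f ∈ P) (L : (κ → ℂ) →ₗ[ℂ] (ι → ℂ))
    (hL : ∀ u ∈ cone P, L u ∈ cone I) (S : Submodule ℂ (ι → ℂ))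
    (hdim : ((Module.finrank ℂ S + r + Module.finrank ℂ (LinearMap.ker L) : ℕ) : WithBot ℕ∞) ≤
      ringKrullDim (MvPolynomial κ ℂ ⧸ P)) :
    ∃ u ∈ cone P, L u ≠ 0 ∧ ∀ s ∈ N I (L u), s ∈ S → s = 0 := by
  obtain ⟨dP, hdP⟩ := exists_dim hP
  rw [hdP] at hdim
  have hdim' : Module.finrank ℂ S + r + Module.finrank ℂ (LinearMap.ker L) ≤ dP := by
    exact_mod_cast hdim
  obtain ⟨v, hv⟩ := exists_complement_forms (LinearMap.ker L)
  -- a point outside the kernel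
  have hout : ∀ {P' : Ideal (MvPolynomial κ ℂ)}, P'.IsPrime →
      (∀ f ∈ P', ∀ d, homogeneousComponent d f ∈ P') → ∀ {d' : ℕ},
      ringKrullDim (MvPolynomial κ ℂ ⧸ P') = (d' : WithBot ℕ∞) →
      Module.finrank ℂ (LinearMap.ker L) < d' →
      ∃ u ∈ cone P', u ≠ 0 ∧ L u ≠ 0 ∧ ∀ k, v k ⬝ᵥ u = 0 := by
    intro P' hP' hP'h d' hd' hlt
    obtain ⟨u, hu, hu0, hul⟩ := exists_ne_zero P' hP' hP'h (fun k => lf (v k))
      (by intro k; rw [eval_lf]; simp) (by rw [hd', Fintype.card_fin]; exact_mod_cast hlt)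
    have hul' : ∀ k, v k ⬝ᵥ u = 0 := fun k => by simpa [eval_lf] using hul k
    exact ⟨u, hu, hu0, fun h0 => hu0 (hv u (LinearMap.mem_ker.2 h0) hul'), hul'⟩
  by_contra hcon
  push Not at hcon
  obtain ⟨u₀, hu₀, -, hu₀0, -⟩ := hout hP hPh hdP (by omega)
  have hS1 : 1 ≤ Module.finrank ℂ S := by
    obtain ⟨s, -, hs, hs0⟩ := hcon u₀ hu₀ hu₀0
    rw [Submodule.one_le_finrank_iff]
    rintro rfl
    exact hs0 ((Submodule.mem_bot ℂ).1 hs)
  obtain ⟨P₁, s₀, hP₁, hP₁h, hPP₁, -, hs₀, hs₀N, hdim₁⟩ := exists_section_vec hI hP hPh L hL S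
    (fun u hu hu0 => by
      obtain ⟨s, h1, h2, h3⟩ := hcon u hu hu0
      exact ⟨s, h1, h2, h3⟩) ⟨u₀, hu₀, hu₀0⟩
  obtain ⟨d₁, hd₁⟩ := exists_dim hP₁
  rw [hdP, hd₁] at hdim₁
  have hdim₁' : dP ≤ d₁ + (Module.finrank ℂ S - 1) := by exact_mod_cast hdim₁
  obtain ⟨u₁, hu₁, hu₁0, hu₁L, hu₁v⟩ := hout hP₁ hP₁h hd₁ (by omega)
  obtain ⟨P₂, hP₂, hP₂h, hP₁₂, hgP₂, hu₁P₂, hdim₂⟩ := exists_component_over P₁ hP₁ hP₁h
    (fun k => lf (v k)) (fun k => ⟨1, lf_homog _⟩) u₁ hu₁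
    (fun k => by rw [eval_lf]; exact hu₁v k)
  obtain ⟨d₂, hd₂⟩ := exists_dim hP₂
  rw [hd₁, hd₂, Fintype.card_fin] at hdim₂
  have hdim₂' : d₁ ≤ d₂ + Module.finrank ℂ (LinearMap.ker L) := by exact_mod_cast hdim₂
  obtain ⟨y, hy, hsy⟩ : ∃ y ∈ cone I, s₀ ⬝ᵥ y ≠ 0 := by
    by_contra hcon2
    push Not at hcon2
    exact hs₀ (hnd s₀ hcon2)
  have h3 := zakStar hI hP₂ hP₂h L (s := s₀) (fun u hu hu0 => by
    have hu1 : u ∈ cone P₁ := cone_anti hP₁₂ hu
    have hLu : L u ≠ 0 := by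
      intro h0
      apply hu0
      refine hv u (LinearMap.mem_ker.2 h0) fun k => ?_
      have := hu _ (hgP₂ k)
      rwa [eval_lf] at this
    exact ⟨hLu, hL u (cone_anti hPP₁ hu1), hs₀N u hu1 hLu⟩) hy hsy
  rw [hd₂] at h3
  have h4 : d₂ ≤ r := by exact_mod_cast h3
  omega

/-- a generic condition holds generically as soon as it holds at one point. -/
theorem generic_of_point {I : Ideal (MvPolynomial ι ℂ)} {r : ℕ} (hI : Smooth I r)
    {P : Ideal (MvPolynomial κ ℂ)} (L : (κ → ℂ) →ₗ[ℂ] (ι → ℂ))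
    (hL : ∀ u ∈ cone P, L u ∈ cone I) (S : Submodule ℂ (ι → ℂ)) {p : κ → ℂ} (hp : p ∈ cone P)
    (hp0 : L p ≠ 0) (hpS : ∀ s ∈ N I (L p), s ∈ S → s = 0) :
    ∃ h : MvPolynomial κ ℂ, h ∉ P ∧ ∀ u ∈ cone P, eval u h ≠ 0 →
      L u ≠ 0 ∧ ∀ s ∈ N I (L u), s ∈ S → s = 0 := by
  obtain ⟨c, b, l, hc, hbN, hbli, hbl, hlS⟩ := exists_compl_frame (N I (L p)) S
  have hNr := hI.rank _ (hL p hp) hp0
  have hbot : (N I (L p) ⊓ S : Submodule ℂ (ι → ℂ)) = ⊥ := by
    rw [Submodule.eq_bot_iff]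
    rintro s ⟨h1, h2⟩
    exact hpS s h1 h2
  rw [hbot, finrank_bot, add_zero, hNr] at hc
  subst hc
  have hg : ∀ i, ∃ g ∈ I, dif g (L p) = b i := fun i => mem_N.1 (hbN i)
  choose g hgI hgb using hg
  have hmat : matAt g l (L p) = 1 := by
    ext i j; rw [matAt, Matrix.of_apply, hgb, hbl, Matrix.one_apply]
  obtain ⟨k, hk⟩ : ∃ k, L p k ≠ 0 := by
    by_contra hc; push Not at hc; exact hp0 (funext hc)
  refine ⟨pull L (X k * (mat g l).det), ?_, ?_⟩
  · intro hmem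
    have := hp _ hmem
    rw [eval_pull, map_mul, eval_X, eval_det_mat, hmat, Matrix.det_one, mul_one] at this
    exact hk this
  · intro u hu hne
    rw [eval_pull, map_mul, eval_X, eval_det_mat] at hne
    have h1 : L u k ≠ 0 := left_ne_zero_of_mul hne
    have hdet : (matAt g l (L u)).det ≠ 0 := right_ne_zero_of_mul hne
    have hLu : L u ≠ 0 := fun h0 => h1 (congrFun h0 k)
    refine ⟨hLu, fun s hs hsS => ?_⟩
    rw [← span_dif_eq (hI.rank _ (hL u hu) hLu) g hgI (li_of_det g l _ hdet)] at hs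
    have h2 := cramer_id (fun i => dif (g i) (L u)) l (matAt g l (L u)) (fun i j => rfl) s hs
    have h3 : (matAt g l (L u)).det • s = 0 := by
      rw [h2]
      refine Finset.sum_eq_zero fun i _ => ?_
      have : ∑ j, (s ⬝ᵥ l j) * (matAt g l (L u)).adjugate j i = 0 := by
        refine Finset.sum_eq_zero fun j _ => ?_
        rw [hlS _ hsS, zero_mul]
      rw [this, zero_smul]
    exact (smul_eq_zero.1 h3).resolve_left hdet

/-- **(ZM)**, generic form. -/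
theorem zm {I : Ideal (MvPolynomial ι ℂ)} {r : ℕ} (hI : Smooth I r) (hr : 1 ≤ r)
    (hnd : ∀ s : ι → ℂ, (∀ x ∈ cone I, s ⬝ᵥ x = 0) → s = 0)
    {P : Ideal (MvPolynomial κ ℂ)} (hP : P.IsPrime)
    (hPh : ∀ f ∈ P, ∀ d, homogeneousComponent d f ∈ P) (L : (κ → ℂ) →ₗ[ℂ] (ι → ℂ))
    (hL : ∀ u ∈ cone P, L u ∈ cone I) (S : Submodule ℂ (ι → ℂ))
    (hdim : ((Module.finrank ℂ S + r + Module.finrank ℂ (LinearMap.ker L) : ℕ) : WithBot ℕ∞) ≤
      ringKrullDim (MvPolynomial κ ℂ ⧸ P)) :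
    ∃ h : MvPolynomial κ ℂ, h ∉ P ∧ ∀ u ∈ cone P, eval u h ≠ 0 →
      L u ≠ 0 ∧ ∀ s ∈ N I (L u), s ∈ S → s = 0 := by
  obtain ⟨p, hp, hp0, hpS⟩ := zm_point hI hr hnd hP hPh L hL S hdim
  exact generic_of_point hI L hL S hp hp0 hpS

end H12.Uni
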