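import Pool.Agent.H12.Uni.Flow
import Pool.Agent.H12.Uni.ZM
import Pool.Agent.H34.Uni.Dom

/-! Condition (star) and its first consequences (3a), (3b). -/

open MvPolynomial Matrix H89.Hart Filter Topology Pool.Agent.H25.Hart

set_option linter.unusedSectionVars false

namespace H12.Uni

variable {ι : Type*} [Fintype ι] [DecidableEq ι]

section

variable {I : Ideal (MvPolynomial ι ℂ)} {r : ℕ} {A : Matrix ι ι ℂ} {m : ℕ}

theorem UniSetup.star_of_rank (U : UniSetup I r A m) (h : 2 * r ≤ rk A m) : Star I A m := by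
  obtain ⟨d, hd⟩ := exists_dim U.smooth.prime
  have h1 := U.dim_le
  rw [hd] at h1
  have h1' : Fintype.card ι ≤ d + r := by exact_mod_cast h1
  have h2 := finrank_kerB A m
  have hk : Module.finrank ℂ (LinearMap.ker (LinearMap.id : (ι → ℂ) →ₗ[ℂ] (ι → ℂ))) = 0 := by
    rw [LinearMap.ker_id, finrank_bot]
  obtain ⟨h, hh, hgen⟩ := zm U.smooth (by have := U.two_le; omega) U.nd U.smooth.prime
    U.smooth.homog LinearMap.id (fun u hu => hu) (kerB A m) (by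
      rw [hd, hk]
      have : Module.finrank ℂ (kerB A m) + r + 0 ≤ d := by omega
      exact_mod_cast this)
  obtain ⟨x, hx, hxh⟩ := exists_of_not_mem U.smooth.prime hh
  obtain ⟨h3, h4⟩ := hgen x hx hxh
  exact ⟨x, hx, h3, fun s hs hs0 => h4 s hs (mem_kerB.2 hs0)⟩

/-- the generic form of (star). -/
theorem UniSetup.star_gen (U : UniSetup I r A m) (hS : Star I A m) :
    ∃ h : MvPolynomial ι ℂ, h ∉ I ∧ ∀ x ∈ cone I, eval x h ≠ 0 →
      A ^ m *ᵥ x ≠ 0 ∧ ∀ s ∈ N I x, s ᵥ* A ^ m = 0 → s = 0 := by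
  obtain ⟨x, hx, hx0, hxs⟩ := hS
  obtain ⟨h, hh, hgen⟩ := generic_of_point U.smooth (P := I) LinearMap.id (fun u hu => hu)
    (kerB A m) hx hx0 (fun s hs hs0 => hxs s hs (mem_kerB.1 hs0))
  obtain ⟨z, hz, hz0⟩ := U.exists_pow_ne
  obtain ⟨k, hk⟩ : ∃ k, (A ^ m *ᵥ z) k ≠ 0 := by
    by_contra hc; push Not at hc; exact hz0 (funext hc)
  have hev : ∀ y : ι → ℂ, eval y (linP (A ^ m).mulVecLin k) = (A ^ m *ᵥ y) k := fun y =>
    congrFun (ev_linP (A ^ m).mulVecLin y) k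
  have h1 : linP (A ^ m).mulVecLin k ∉ I := by
    intro hmem
    apply hk
    rw [← hev]
    exact hz _ hmem
  refine ⟨linP (A ^ m).mulVecLin k * h, fun hmem => ?_, fun y hy hne => ?_⟩
  · rcases U.smooth.prime.mem_or_mem hmem with h2 | h2
    · exact h1 h2
    · exact hh h2
  · rw [map_mul, hev] at hne
    refine ⟨fun h0 => left_ne_zero_of_mul hne (congrFun h0 k), fun s hs hs0 => ?_⟩
    exact (hgen y hy (right_ne_zero_of_mul hne)).2 s hs (mem_kerB.2 hs0)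

theorem UniSetup.imB_le_kerB (U : UniSetup I r A m) {s : ι → ℂ} (hs : s ∈ imB A m) :
    s ᵥ* A ^ m = 0 := by
  obtain ⟨u, rfl⟩ := mem_imB.1 hs
  rw [Matrix.vecMul_vecMul, U.pow_mul_self, Matrix.vecMul_zero]

theorem UniSetup.imA_le_kerA (U : UniSetup I r A m) {w : ι → ℂ} (hw : w ∈ imA A m) :
    A ^ m *ᵥ w = 0 := by
  obtain ⟨u, rfl⟩ := mem_imA.1 hw
  rw [Matrix.mulVec_mulVec, U.pow_mul_self, Matrix.zero_mulVec]

/-- (DOM) for `A ^ m : X → im A ^ m`. -/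
theorem UniSetup.dom_star (U : UniSetup I r A m) (hS : Star I A m) {g : MvPolynomial ι ℂ}
    (hg : ∀ x ∈ cone I, eval (A ^ m *ᵥ x) g = 0) : ∀ w ∈ imA A m, eval w g = 0 := by
  obtain ⟨x, hx, hx0, hxs⟩ := hS
  intro w hw
  obtain ⟨v, rfl⟩ := mem_imA.1 hw
  refine dom U.smooth U.smooth.prime le_rfl ⊤ (fun _ _ => trivial) ?_ (A ^ m).mulVecLin hx hx0 ?_
    (g := g) (fun z hz => hg z hz) v trivial
  · rw [finrank_top, Module.finrank_fintype_fun_eq_card]
    exact U.dim_le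
  · intro s hs h
    refine hxs s hs (U.imB_le_kerB (mem_imB_iff.2 fun v hv => h v trivial ?_))
    rw [Matrix.mulVecLin_apply, hv]

/-- a generic version of `dom_star`. -/
theorem UniSetup.dom_star' (U : UniSetup I r A m) (hS : Star I A m) {g h : MvPolynomial ι ℂ}
    (hh : h ∉ I) (hg : ∀ x ∈ cone I, eval x h ≠ 0 → eval (A ^ m *ᵥ x) g = 0) :
    ∀ w ∈ imA A m, eval w g = 0 := by
  refine U.dom_star hS fun x hx => ?_
  have h1 : h * pull (A ^ m).mulVecLin g ∈ I := by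
    apply mem_of_cone U.smooth.prime
    intro z hz
    rw [map_mul, eval_pull]
    by_cases hz0 : eval z h = 0
    · rw [hz0, zero_mul]
    · rw [Matrix.mulVecLin_apply, hg z hz hz0, mul_zero]
  have h2 := hx _ ((U.smooth.prime.mem_or_mem h1).resolve_left hh)
  rwa [eval_pull] at h2

/-- (3a) -/
theorem UniSetup.im_mem (U : UniSetup I r A m) (hS : Star I A m) : ∀ w ∈ imA A m, w ∈ cone I := by
  intro w hw f hf
  refine U.dom_star hS (fun x hx => ?_) w hw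
  exact U.cl_cone hx (by rw [U.nil, Matrix.zero_mulVec]) f hf

/-- conormal spaces at the limit points. -/
theorem UniSetup.N_pow_eq (U : UniSetup I r A m) {x : ι → ℂ} (hx : x ∈ cone I)
    (hx0 : A ^ m *ᵥ x ≠ 0) (hxs : ∀ s ∈ N I x, s ᵥ* A ^ m = 0 → s = 0) {s' : ι → ℂ} :
    s' ∈ N I (A ^ m *ᵥ x) ↔ ∃ s ∈ N I x, s ᵥ* A ^ m = s' := by
  have hx00 : x ≠ 0 := by
    rintro rfl
    exact hx0 (Matrix.mulVec_zero _)
  have hkill : A ^ (m + 1) *ᵥ x = 0 := by rw [U.nil, Matrix.zero_mulVec]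
  have hle : (N I x).map (A ^ m).vecMulLinear ≤ N I (A ^ m *ᵥ x) := by
    rintro _ ⟨s, hs, rfl⟩
    exact U.cl hx hs hx0 hkill (by rw [U.nil, Matrix.vecMul_zero])
  have hinj : Function.Injective ((A ^ m).vecMulLinear.domRestrict (N I x)) := by
    rw [← LinearMap.ker_eq_bot, LinearMap.ker_eq_bot']
    intro s hs
    exact Subtype.ext (hxs s s.2 hs)
  have hfin : Module.finrank ℂ ((N I x).map (A ^ m).vecMulLinear) = r := by
    rw [← LinearMap.range_domRestrict, LinearMap.finrank_range_of_inj hinj]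
    exact U.smooth.rank x hx hx00
  have heq := Submodule.eq_of_le_of_finrank_eq hle (by
    rw [hfin, U.smooth.rank _ (U.cl_cone hx hkill) hx0])
  rw [← heq, Submodule.mem_map]
  rfl

/-- (3a) -/
theorem UniSetup.N_im (U : UniSetup I r A m) (hS : Star I A m) {w : ι → ℂ} (hw : w ∈ imA A m)
    {s : ι → ℂ} (hs : s ∈ N I w) : s ∈ imB A m := by
  rw [mem_imB_iff]
  intro v hv
  obtain ⟨f, hf, rfl⟩ := mem_N.1 hs
  obtain ⟨h, hh, hgen⟩ := U.star_gen hS
  rw [← eval_dd]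
  refine U.dom_star' hS hh (fun x hx hxh => ?_) w hw
  obtain ⟨h1, h2⟩ := hgen x hx hxh
  rw [eval_dd]
  obtain ⟨s, -, hs2⟩ := (U.N_pow_eq hx h1 h2).1 (mem_N.2 ⟨f, hf, rfl⟩)
  rw [← hs2, ← dotProduct_mulVec, hv, dotProduct_zero]

/-- `U_w = A ^ m T_w`. -/
noncomputable def Uw (I : Ideal (MvPolynomial ι ℂ)) (A : Matrix ι ι ℂ) (m : ℕ) (w : ι → ℂ) :
    Submodule ℂ (ι → ℂ) := (T I w).map (A ^ m).mulVecLin

theorem mem_Uw {w u : ι → ℂ} : u ∈ Uw I A m w ↔ ∃ v ∈ T I w, A ^ m *ᵥ v = u := by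
  rw [Uw, Submodule.mem_map]
  rfl

theorem finrank_map_add {E F : Type*} [AddCommGroup E] [Module ℂ E] [FiniteDimensional ℂ E]
    [AddCommGroup F] [Module ℂ F] (f : E →ₗ[ℂ] F) (G : Submodule ℂ E) (h : LinearMap.ker f ≤ G) :
    Module.finrank ℂ (G.map f) + Module.finrank ℂ (LinearMap.ker f) = Module.finrank ℂ G := by
  have h1 := LinearMap.finrank_range_add_finrank_ker (f.domRestrict G)
  have h2 : LinearMap.ker (f.domRestrict G) = Submodule.comap G.subtype (LinearMap.ker f) := by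
    ext x
    rfl
  rw [LinearMap.range_domRestrict, h2, finrank_comap_subtype, inf_eq_right.2 h] at h1
  exact h1

theorem UniSetup.kerA_le_T (U : UniSetup I r A m) (hS : Star I A m) {w : ι → ℂ}
    (hw : w ∈ imA A m) : kerA A m ≤ T I w := by
  intro v hv s hs
  exact mem_imB_iff.1 (U.N_im hS hw hs) v (mem_kerA.1 hv)

theorem UniSetup.finrank_Uw (U : UniSetup I r A m) (hS : Star I A m) {w : ι → ℂ}
    (hw : w ∈ imA A m) (hw0 : w ≠ 0) : Module.finrank ℂ (Uw I A m w) + r = rk A m := by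
  have h1 := finrank_map_add (A ^ m).mulVecLin (T I w) (U.kerA_le_T hS hw)
  have h2 := finrank_T U.smooth (U.im_mem hS w hw) hw0
  have h3 := finrank_kerA A m
  rw [kerA] at h3
  rw [Uw]
  omega

theorem Uw_le_imA (w : ι → ℂ) : Uw I A m w ≤ imA A m := by
  rintro _ ⟨v, -, rfl⟩
  exact mem_imA.2 ⟨v, rfl⟩

/-- `A ^ m v ∈ U_w` iff `v ∈ T_w`. -/
theorem UniSetup.mem_T_iff (U : UniSetup I r A m) (hS : Star I A m) {w : ι → ℂ}
    (hw : w ∈ imA A m) {v : ι → ℂ} : A ^ m *ᵥ v ∈ Uw I A m w ↔ v ∈ T I w := by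
  constructor
  · intro h
    obtain ⟨v', hv', hvv⟩ := mem_Uw.1 h
    have h1 : v - v' ∈ T I w := U.kerA_le_T hS hw (mem_kerA.2 (by
      rw [Matrix.mulVec_sub, hvv, sub_self]))
    have h2 := (T I w).add_mem h1 hv'
    rwa [sub_add_cancel] at h2
  · intro h
    exact mem_Uw.2 ⟨v, h, rfl⟩

/-- a linear section of `A ^ m` over its image. -/
theorem exists_sec (A : Matrix ι ι ℂ) (m : ℕ) :
    ∃ σ : (ι → ℂ) →ₗ[ℂ] (ι → ℂ), ∀ w ∈ imA A m, A ^ m *ᵥ σ w = w := by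
  have hsurj : LinearMap.range (A ^ m).mulVecLin.rangeRestrict = ⊤ := LinearMap.range_rangeRestrict _
  obtain ⟨τ, hτ⟩ := LinearMap.exists_rightInverse_of_surjective _ hsurj
  obtain ⟨σ, hσ⟩ := LinearMap.exists_extend τ
  refine ⟨σ, fun w hw => ?_⟩
  have h1 : σ w = τ ⟨w, hw⟩ := by
    have := LinearMap.congr_fun hσ ⟨w, hw⟩
    simpa using this
  have h2 := LinearMap.congr_fun hτ ⟨w, hw⟩
  rw [h1]
  exact congrArg Subtype.val h2

/-- the derivative form of the flows: `x` is tangent at `η(A ^ m x)`. -/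
theorem UniSetup.flow_tangent (U : UniSetup I r A m) (g : Fin r → MvPolynomial ι ℂ)
    (hg : ∀ i, g i ∈ I) (l : Fin r → ι → ℂ)
    {p : ι → ℂ} (hp : p ∈ cone I) (hp0 : p ≠ 0) (hdet : (matAt g l p).det ≠ 0) (v : ι → ℂ)
    {x : ι → ℂ} (hx : x ∈ cone I) : x ∈ T I (eta A m g l v (A ^ m *ᵥ x)) := by
  intro s hs
  obtain ⟨f, hf, rfl⟩ := mem_N.1 hs
  set u := eta A m g l v (A ^ m *ᵥ x) with hu
  rw [← coeff_one_ln]
  have h1 : ln u x f = 0 := by
    refine Polynomial.eq_zero_of_infinite_isRoot _ (Set.Infinite.mono (s := {0}ᶜ) ?_ ?_)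
    · intro c hc
      have hc0 : c ≠ 0 := hc
      rw [Set.mem_ofPred_eq, Polynomial.IsRoot, eval_ln]
      have h2 := smul_mem_cone U.smooth (U.flow g hg l hp hp0 hdet v hx c⁻¹) c
      rw [smul_add, smul_smul, mul_inv_cancel₀ hc0, one_smul, add_comm] at h2
      exact h2 f hf
    · exact (Set.finite_singleton (0 : ℂ)).infinite_compl
  rw [h1, Polynomial.coeff_zero]

/-- (3b) -/
theorem UniSetup.symm (U : UniSetup I r A m) (hS : Star I A m) {u w : ι → ℂ} (hw : w ∈ imA A m)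
    (hw0 : w ≠ 0) (hu0 : u ≠ 0) (h : u ∈ Uw I A m w) : w ∈ Uw I A m u := by
  obtain ⟨v, hv, rfl⟩ := mem_Uw.1 h
  have hwI := U.im_mem hS w hw
  obtain ⟨g, l, hg, -, hli, hmat⟩ := exists_frame U.smooth hwI hw0
  have hdet : (matAt g l w).det ≠ 0 := by rw [hmat]; simp
  have hηw : eta A m g l v w = A ^ m *ᵥ v := eta_self A m g hg l hmat hv
  obtain ⟨σ, hσ⟩ := exists_sec A m
  refine mem_Uw.2 ⟨σ w, ?_, hσ w hw⟩
  intro s hs
  obtain ⟨f, hf, rfl⟩ := mem_N.1 hs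
  obtain ⟨k, hk⟩ : ∃ k, (A ^ m *ᵥ v) k ≠ 0 := by
    by_contra hc; push Not at hc; exact hu0 (funext hc)
  let G : MvPolynomial ι ℂ := etaP A m g l v k *
    ∑ j, bind₁ (etaP A m g l v) (pderiv j f) * linP σ j
  have hG : ∀ y, eval y G = eta A m g l v y k * (dif f (eta A m g l v y) ⬝ᵥ σ y) := by
    intro y
    simp only [G, map_mul, map_sum, eval_etaP, eval_bind, ev_etaP, dotProduct, dif]
    congr 1
    refine Finset.sum_congr rfl fun j _ => ?_
    congr 1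
    exact congrFun (ev_linP σ y) j
  have h1 : ∀ x ∈ cone I, eval (A ^ m *ᵥ x) G = 0 := by
    intro x hx
    rw [hG]
    by_cases h0 : eta A m g l v (A ^ m *ᵥ x) k = 0
    · rw [h0, zero_mul]
    have hmem : dif f (eta A m g l v (A ^ m *ᵥ x)) ∈ N I (eta A m g l v (A ^ m *ᵥ x)) :=
      mem_N.2 ⟨f, hf, rfl⟩
    have h2 := U.flow_tangent g hg l hwI hw0 hdet v hx _ hmem
    have h3 := mem_imB_iff.1 (U.N_im hS (eta_mem_imA A m g l v _) hmem) (σ (A ^ m *ᵥ x) - x) (by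
      rw [Matrix.mulVec_sub, hσ _ (mem_imA.2 ⟨x, rfl⟩), sub_self])
    rw [dotProduct_sub, h2, sub_zero] at h3
    rw [h3, mul_zero]
  have h2 := U.dom_star hS h1 w hw
  rw [hG, hηw] at h2
  exact (mul_eq_zero.1 h2).resolve_left hk

end

end H12.Uni
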